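import Pool.Agent.Work.MP_954b6f_co_helper49.Star

/-!
# Windows

`Wset P r b`: the `P + 1` consecutive blue chords on `r` ending with `b`.  If no `c + 1` red chords
cross `P + 1` common blue chords, the windows are counted at most `c` times, and every window has
a top red chord.  Result: `B1`.
-/

set_option autoImplicit false
set_option linter.unusedSectionVars false

open Finset

namespace CGr

namespace Diag

variable {R B : Type} (D : Diag R B) [Fintype R] [Fintype B]

/-- no `c + 1` red chords cross `p + 1` common blue chords -/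
def free (c p : ℕ) : Prop := ∀ (X : Finset R) (Y : Finset B),
  (∀ r ∈ X, ∀ b ∈ Y, D.cr r b) → X.card ≤ c ∨ Y.card ≤ p

lemma L_eq {r : R} {b : B} : D.L r b = ((D.N r).filter (fun y => D.inn r y < D.inn r b)).card := by
  unfold L pre A
  rw [filter_image, card_image_of_injOn]
  intro x hx y hy h
  simp only [coe_filter, Set.mem_ofPred_eq] at hx hy
  exact D.inn_inj (D.mem_N.1 hx.1) (D.mem_N.1 hy.1) h

lemma L_le_iff {r : R} {b c : B} (_hb : D.cr r b) (hc : D.cr r c) :
    D.L r b ≤ D.L r c ↔ D.inn r b ≤ D.inn r c :=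
  ⟨fun h => le_of_pre_le (D.mem_A hc) h, fun h => pre_le_pre h⟩

lemma L_inj {r : R} {b c : B} (hb : D.cr r b) (hc : D.cr r c) (h : D.L r b = D.L r c) : b = c :=
  D.inn_inj hb hc (le_antisymm ((D.L_le_iff hb hc).1 h.le) ((D.L_le_iff hc hb).1 h.ge))

/-- the window of `P + 1` blue chords on `r` ending with `b` -/
def Wset (P : ℕ) (r : R) (b : B) : Finset B :=
  (D.N r).filter (fun y => D.L r y ≤ D.L r b ∧ D.L r b ≤ D.L r y + P)

lemma mem_Wset {P : ℕ} {r : R} {b y : B} : y ∈ D.Wset P r b ↔
    D.cr r y ∧ D.L r y ≤ D.L r b ∧ D.L r b ≤ D.L r y + P := by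
  rw [Wset, mem_filter, mem_N]

lemma card_Wset {P : ℕ} {r : R} {b : B} (hb : D.cr r b) (h : P ≤ D.L r b) :
    (D.Wset P r b).card = P + 1 := by
  unfold Wset
  have h1 := D.card_filter_L r (fun k => k ≤ D.L r b ∧ D.L r b ≤ k + P)
  rw [h1]
  have h2 := D.L_add hb
  have : (range (D.N r).card).filter (fun k => k ≤ D.L r b ∧ D.L r b ≤ k + P) =
      Icc (D.L r b - P) (D.L r b) := by
    ext k
    simp only [mem_filter, mem_range, mem_Icc]
    omega
  rw [this, Nat.card_Icc]
  omega

lemma self_mem_Wset {P : ℕ} {r : R} {b : B} (hb : D.cr r b) : b ∈ D.Wset P r b := by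
  rw [mem_Wset]; exact ⟨hb, le_refl _, by omega⟩

/-- a set of `P + 1` consecutive blue chords on `s` is a window -/
lemma eq_Wset {P : ℕ} {s : R} {X : Finset B} {b : B} (hX : ∀ x ∈ X, D.cr s x) (hb : b ∈ X)
    (hmax : ∀ x ∈ X, D.inn s x ≤ D.inn s b) (hcard : X.card = P + 1)
    (hconv : ∀ x ∈ X, ∀ y ∈ X, ∀ z, D.cr s z → D.inn s x ≤ D.inn s z → D.inn s z ≤ D.inn s y →
      z ∈ X) :
    P ≤ D.L s b ∧ D.Wset P s b = X := by
  classical
  have h1 : P ≤ D.L s b := by
    rw [D.L_eq]
    have : X.erase b ⊆ (D.N s).filter (fun y => D.inn s y < D.inn s b) := by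
      intro x hx
      rw [mem_erase] at hx
      rw [mem_filter, mem_N]
      refine ⟨hX x hx.2, lt_of_le_of_ne (hmax x hx.2) ?_⟩
      intro h
      exact hx.1 (D.inn_inj (hX x hx.2) (hX b hb) h)
    have := card_le_card this
    rw [card_erase_of_mem hb] at this
    omega
  refine ⟨h1, ?_⟩
  symm
  apply eq_of_subset_of_card_le
  · intro x hx
    rw [mem_Wset]
    refine ⟨hX x hx, (D.L_le_iff (hX x hx) (hX b hb)).2 (hmax x hx), ?_⟩
    rw [D.L_eq (b := b), D.L_eq (b := x)]
    have : (D.N s).filter (fun y => D.inn s y < D.inn s b) ⊆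
        (D.N s).filter (fun y => D.inn s y < D.inn s x) ∪ X.erase b := by
      intro y hy
      rw [mem_filter, mem_N] at hy
      rw [mem_union, mem_filter, mem_N, mem_erase]
      by_cases hc : D.inn s y < D.inn s x
      · exact Or.inl ⟨hy.1, hc⟩
      · right
        refine ⟨?_, hconv x hx b hb y hy.1 (by omega) hy.2.le⟩
        rintro rfl
        exact lt_irrefl _ hy.2
    have h2 := (card_le_card this).trans (card_union_le _ _)
    rw [card_erase_of_mem hb] at h2
    omega
  · rw [D.card_Wset (hX b hb) h1, hcard]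

/-- common neighbours of near chords are convex, and their orders agree up to reversal -/
lemma strip_order {r s : R} (h : D.NP r s) {x y : B} (hx : D.cr r x) (hx' : D.cr s x)
    (hy : D.cr r y) (hy' : D.cr s y) :
    (D.par r = some s ∧ D.inn r x = D.inn s x ∧ D.inn r y = D.inn s y) ∨
    (D.par r ≠ some s ∧ (D.inn r x ≤ D.inn r y ↔ D.inn s y ≤ D.inn s x) ∧
      (D.inn r y ≤ D.inn r x ↔ D.inn s x ≤ D.inn s y)) := by
  have h1 := D.cr_cases hx
  have h2 := D.cr_cases hx'
  have h3 := D.cr_cases hy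
  have h4 := D.cr_cases hy'
  have h5 := D.hb x
  have h6 := D.hb y
  rcases D.NP_cases h with a | a
  · left
    exact ⟨a.1, by omega, by omega⟩
  · right
    by_cases hxy : x = y
    · subst hxy
      exact ⟨a.1, by omega, by omega⟩
    · have h7 := D.bbx x y hxy
      exact ⟨a.1, by omega, by omega⟩

lemma strip_conv_left {r s : R} (h : D.NP r s) {x y z : B} (hx : D.cr r x) (hx' : D.cr s x)
    (hy : D.cr r y) (hy' : D.cr s y) (hz : D.cr r z) (h1 : D.inn r x ≤ D.inn r z)
    (h2 : D.inn r z ≤ D.inn r y) : D.cr s z := by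
  by_cases e1 : z = x
  · rw [e1]; exact hx'
  by_cases e2 : z = y
  · rw [e2]; exact hy'
  have a1 := D.cr_cases hx
  have a2 := D.cr_cases hx'
  have a3 := D.cr_cases hy
  have a4 := D.cr_cases hy'
  have a5 := D.cr_cases hz
  have a6 := D.hb x
  have a7 := D.hb y
  have a8 := D.hb z
  have a9 := D.bbx z x e1
  have a10 := D.bbx z y e2
  have a11 := D.ne s z
  have a12 : x ≠ y → _ := D.bbx x y
  have a13 := D.hr r
  have a14 := D.hr s
  have a15 : x = y → D.ba x = D.ba y ∧ D.bb x = D.bb y := fun h => by rw [h]; exact ⟨rfl, rfl⟩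
  unfold cr
  rcases D.NP_cases h with a | a
  · by_cases e3 : x = y
    · subst e3; omega
    · have a12 := D.bbx x y e3
      omega
  · by_cases e3 : x = y
    · subst e3; omega
    · have a12 := D.bbx x y e3
      omega

lemma strip_conv_right {r s : R} (h : D.NP r s) {x y z : B} (hx : D.cr r x) (hx' : D.cr s x)
    (hy : D.cr r y) (hy' : D.cr s y) (hz : D.cr s z) (h1 : D.inn s x ≤ D.inn s z)
    (h2 : D.inn s z ≤ D.inn s y) : D.cr r z := by
  by_cases e1 : z = x
  · rw [e1]; exact hx
  by_cases e2 : z = y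
  · rw [e2]; exact hy
  have a1 := D.cr_cases hx
  have a2 := D.cr_cases hx'
  have a3 := D.cr_cases hy
  have a4 := D.cr_cases hy'
  have a5 := D.cr_cases hz
  have a6 := D.hb x
  have a7 := D.hb y
  have a8 := D.hb z
  have a9 := D.bbx z x e1
  have a10 := D.bbx z y e2
  have a11 := D.ne r z
  have a13 := D.hr r
  have a14 := D.hr s
  unfold cr
  rcases D.NP_cases h with a | a
  · by_cases e3 : x = y
    · subst e3; omega
    · have a12 := D.bbx x y e3
      omega
  · by_cases e3 : x = y
    · subst e3; omega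
    · have a12 := D.bbx x y e3
      omega

/-- windows move along near pairs -/
lemma Wset_move {P : ℕ} {r s : R} (h : D.NP r s) {b : B} (hb : D.cr r b) (hP : P ≤ D.L r b)
    (hW : D.Wset P r b ⊆ D.N s) :
    ∃ b', D.cr s b' ∧ P ≤ D.L s b' ∧ D.Wset P s b' = D.Wset P r b := by
  obtain ⟨b', hb', hmax⟩ := exists_max_image (D.Wset P r b) (D.inn s) ⟨b, D.self_mem_Wset hb⟩
  have hX : ∀ x ∈ D.Wset P r b, D.cr s x := fun x hx => D.mem_N.1 (hW hx)
  have hX' : ∀ x ∈ D.Wset P r b, D.cr r x := fun x hx => (D.mem_Wset.1 hx).1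
  obtain ⟨h1, h2⟩ := D.eq_Wset hX hb' hmax (D.card_Wset hb hP) (by
    intro x hx y hy z hz hxz hzy
    have hz' : D.cr r z := D.strip_conv_right h (hX' x hx) (hX x hx) (hX' y hy) (hX y hy) hz hxz hzy
    have c1 := D.strip_order h (hX' x hx) (hX x hx) hz' hz
    have c2 := D.strip_order h hz' hz (hX' y hy) (hX y hy)
    have d1 := D.mem_Wset.1 hx
    have d2 := D.mem_Wset.1 hy
    rw [mem_Wset]
    refine ⟨hz', ?_⟩
    have e1 := D.L_le_iff (hX' x hx) hz'
    have e2 := D.L_le_iff hz' (hX' x hx)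
    have e3 := D.L_le_iff (hX' y hy) hz'
    have e4 := D.L_le_iff hz' (hX' y hy)
    by_cases hp : D.par r = some s
    · rcases c1 with c1 | c1
      · rcases c2 with c2 | c2
        · have f1 := e1.2 (by omega)
          have f2 := e4.2 (by omega)
          omega
        · exact absurd hp c2.1
      · exact absurd hp c1.1
    · rcases c1 with c1 | c1
      · exact absurd c1.1 hp
      · rcases c2 with c2 | c2
        · exact absurd c2.1 hp
        · have f1 := e2.2 (c1.2.2.2 hxz)
          have f2 := e3.2 (c2.2.2.2 hzy)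
          omega)
  exact ⟨b', hX b' hb', h1, h2⟩

/-- the positions of the windows -/
def Wn (P : ℕ) : Finset (R × B) := D.cells.filter (fun p => P ≤ D.L p.1 p.2)

lemma mem_Wn {P : ℕ} {p : R × B} : p ∈ D.Wn P ↔ D.cr p.1 p.2 ∧ P ≤ D.L p.1 p.2 := by
  rw [Wn, mem_filter, mem_cells]

lemma card_Wn (P : ℕ) : (D.Wn P).card = ∑ r, ((D.N r).card - P) := by
  classical
  rw [card_eq_sum_card_fiberwise (f := Prod.fst) (t := univ) (fun _ _ => mem_coe.2 (mem_univ _))]
  apply sum_congr rfl
  intro r _
  have h1 : ((D.Wn P).filter (fun p => p.1 = r)).card =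
      ((D.N r).filter (fun b => P ≤ D.L r b)).card := by
    apply card_bij (fun p _ => p.2)
    · intro p hp
      rw [mem_filter, D.mem_Wn] at hp
      rw [mem_filter, D.mem_N, ← hp.2]
      exact hp.1
    · intro p hp q hq h
      rw [mem_filter] at hp hq
      exact Prod.ext (hp.2.trans hq.2.symm) h
    · intro b hb
      rw [mem_filter, D.mem_N] at hb
      exact ⟨(r, b), by rw [mem_filter, D.mem_Wn]; exact ⟨hb, rfl⟩, rfl⟩
  rw [h1, D.card_filter_L r (fun k => P ≤ k)]
  have : (range (D.N r).card).filter (fun k => P ≤ k) = Ico P (D.N r).card := by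
    ext k; simp only [mem_filter, mem_range, mem_Ico]; omega
  rw [this, Nat.card_Ico]

open Classical in
/-- windows of a near pair -/
lemma cw_le {P : ℕ} {r s : R} (h : D.NP r s) : D.cw (r, s) - P ≤
    ((D.N r).filter (fun b => P ≤ D.L r b ∧ D.Wset P r b ⊆ D.N s)).card := by
  classical
  set C := (D.N r).filter (fun b => D.cr s b) with hC
  have hCm : ∀ b, b ∈ C ↔ D.cr r b ∧ D.cr s b := by
    intro b; rw [hC, mem_filter, mem_N]
  have hinj : Set.InjOn (D.inn r) C := by
    intro x hx y hy hxy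
    exact D.inn_inj ((hCm x).1 hx).1 ((hCm y).1 hy).1 hxy
  have h1 := card_filter_pre (C.image (D.inn r)) (fun k => P ≤ k)
  rw [card_image_of_injOn hinj] at h1
  have h2 : (range C.card).filter (fun k => P ≤ k) = Ico P C.card := by
    ext k; simp only [mem_filter, mem_range, mem_Ico]; omega
  rw [h2, Nat.card_Ico] at h1
  show C.card - P ≤ _
  rw [← h1]
  -- every such point comes from a blue chord
  have h3 : ((C.image (D.inn r)).filter (fun u => P ≤ pre (C.image (D.inn r)) u)) ⊆
      ((D.N r).filter (fun b => P ≤ D.L r b ∧ D.Wset P r b ⊆ D.N s)).image (D.inn r) := by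
    intro u hu
    rw [mem_filter] at hu
    obtain ⟨b, hb, rfl⟩ := mem_image.1 hu.1
    have hbC := (hCm b).1 hb
    have hu2 : P ≤ (C.filter (fun y => D.inn r y < D.inn r b)).card := by
      refine hu.2.trans ?_
      unfold pre
      rw [filter_image]
      exact card_image_le
    apply mem_image_of_mem
    rw [mem_filter, mem_N]
    refine ⟨hbC.1, ?_, ?_⟩
    · rw [D.L_eq]
      refine hu2.trans (card_le_card ?_)
      exact filter_subset_filter _ (filter_subset _ _)
    · intro x hx
      rw [mem_Wset] at hx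
      rw [mem_N]
      by_contra hxs
      have hxb : x ≠ b := by rintro rfl; exact hxs hbC.2
      have hlt : D.inn r x < D.inn r b := by
        refine lt_of_le_of_ne ((D.L_le_iff hx.1 hbC.1).1 hx.2.1) ?_
        intro he
        exact hxb (D.inn_inj hx.1 hbC.1 he)
      have h4 : (D.N r).filter (fun y => D.inn r y < D.inn r x) ∪
          insert x (C.filter (fun y => D.inn r y < D.inn r b)) ⊆
          (D.N r).filter (fun y => D.inn r y < D.inn r b) := by
        intro y hy
        rw [mem_union, mem_insert, mem_filter, mem_filter] at hy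
        rw [mem_filter]
        rcases hy with hy | rfl | hy
        · exact ⟨hy.1, by omega⟩
        · exact ⟨D.mem_N.2 hx.1, hlt⟩
        · exact ⟨(mem_filter.1 hy.1).1, hy.2⟩
      have hgt : ∀ y ∈ C.filter (fun y => D.inn r y < D.inn r b), D.inn r x < D.inn r y := by
        intro y hy
        rw [mem_filter] at hy
        have hy' := (hCm y).1 hy.1
        by_contra hc
        exact hxs (D.strip_conv_left h hy'.1 hy'.2 hbC.1 hbC.2 hx.1 (by omega) hlt.le)
      have h5 : x ∉ C.filter (fun y => D.inn r y < D.inn r b) := fun hc => lt_irrefl _ (hgt x hc)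
      have h6 : Disjoint ((D.N r).filter (fun y => D.inn r y < D.inn r x))
          (insert x (C.filter (fun y => D.inn r y < D.inn r b))) := by
        rw [Finset.disjoint_left]
        intro y hy hy'
        rw [mem_filter] at hy
        rcases mem_insert.1 hy' with rfl | hy'
        · exact lt_irrefl _ hy.2
        · have := hgt y hy'
          omega
      have h7 := card_le_card h4
      rw [card_union_of_disjoint h6, card_insert_of_notMem h5, ← D.L_eq, ← D.L_eq] at h7
      omega
  exact (card_le_card h3).trans card_image_le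

open Classical in
/-- the windows which move up -/
noncomputable def nontop (P : ℕ) : Finset (R × B) :=
  (D.Wn P).filter (fun p => ∃ s, D.NP p.1 s ∧ D.Wset P p.1 p.2 ⊆ D.N s)

lemma M_le (P : ℕ) : ∑ p ∈ D.NPs, (D.cw p - P) ≤ (D.nontop P).card := by
  classical
  set F : R × R → Finset (R × R × B) := fun p =>
    ((D.N p.1).filter (fun b => P ≤ D.L p.1 b ∧ D.Wset P p.1 b ⊆ D.N p.2)).image
      (fun b => (p.1, p.2, b)) with hF
  have h1 : ∑ p ∈ D.NPs, (D.cw p - P) ≤ ∑ p ∈ D.NPs, (F p).card := by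
    apply sum_le_sum
    intro p hp
    rw [hF]
    simp only
    rw [card_image_of_injective _ (fun a b h => by simpa using h)]
    exact D.cw_le (D.mem_NPs.1 hp)
  refine h1.trans ?_
  rw [← card_biUnion]
  · apply card_le_card_of_injOn (fun l => (l.1, l.2.2))
    · intro l hl
      rw [mem_coe, mem_biUnion] at hl
      obtain ⟨p, hp, hl⟩ := hl
      obtain ⟨b, hb, rfl⟩ := mem_image.1 hl
      rw [mem_filter, mem_N] at hb
      rw [mem_coe, nontop, mem_filter, mem_Wn]
      exact ⟨⟨hb.1, hb.2.1⟩, p.2, D.mem_NPs.1 hp, hb.2.2⟩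
    · intro l hl l' hl' he
      rw [mem_coe, mem_biUnion] at hl hl'
      obtain ⟨p, hp, hl⟩ := hl
      obtain ⟨b, hb, rfl⟩ := mem_image.1 hl
      obtain ⟨p', hp', hl'⟩ := hl'
      obtain ⟨b', hb', rfl⟩ := mem_image.1 hl'
      simp only [Prod.mk.injEq] at he
      obtain ⟨he1, rfl⟩ := he
      rw [mem_filter, mem_N] at hb hb'
      have e2 : p.2 = p'.2 := by
        apply D.NP_unique hb.1 (D.mem_NPs.1 hp)
        · rw [he1]; exact D.mem_NPs.1 hp'
        · exact D.mem_N.1 (hb.2.2 (D.self_mem_Wset hb.1))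
        · exact D.mem_N.1 (hb'.2.2 (D.self_mem_Wset hb'.1))
      rw [he1, e2]
  · intro p _ q _ hpq
    rw [Function.onFun, Finset.disjoint_left]
    intro l hl hl'
    obtain ⟨b, _, rfl⟩ := mem_image.1 hl
    obtain ⟨b', _, he⟩ := mem_image.1 hl'
    simp only [Prod.mk.injEq] at he
    exact hpq (Prod.ext he.1.symm he.2.1.symm)

lemma windows {c P : ℕ} (hf : D.free c P) :
    ∑ r, ((D.N r).card - P) + c * ∑ p ∈ D.NPs, (D.cw p - P) ≤ c * ∑ r, ((D.N r).card - P) := by
  classical
  rw [← D.card_Wn]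
  set T0 := (D.Wn P).filter (fun p => ¬ ∃ s, D.NP p.1 s ∧ D.Wset P p.1 p.2 ⊆ D.N s) with hT0
  have h1 : (D.nontop P).card + T0.card = (D.Wn P).card := by
    unfold nontop
    exact card_filter_add_card_filter_not _
  set f : R × B → Finset B := fun p => D.Wset P p.1 p.2 with hf'
  have h2 : (D.Wn P).image f ⊆ T0.image f := by
    intro W hW
    obtain ⟨p0, hp0, hp0W⟩ := mem_image.1 hW
    obtain ⟨p, hp, hmax⟩ := exists_max_image ((D.Wn P).filter (fun p => f p = W))
      (fun p => D.rb p.1) ⟨p0, mem_filter.2 ⟨hp0, hp0W⟩⟩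
    rw [mem_filter] at hp
    refine mem_image.2 ⟨p, ?_, hp.2⟩
    rw [hT0, mem_filter]
    refine ⟨hp.1, ?_⟩
    rintro ⟨s, hs, hWs⟩
    have hp1 := D.mem_Wn.1 hp.1
    obtain ⟨b', hb1, hb2, hb3⟩ := D.Wset_move hs hp1.1 hp1.2 hWs
    have := hmax (s, b') (mem_filter.2 ⟨D.mem_Wn.2 ⟨hb1, hb2⟩, by
      rw [← hp.2, hf']; exact hb3⟩)
    have h3 := D.NP_rb hs
    simp only at this
    omega
  have h3 : ((D.Wn P).image f).card ≤ T0.card := (card_le_card h2).trans card_image_le
  have h4 : (D.Wn P).card ≤ c * ((D.Wn P).image f).card := by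
    apply card_le_mul_card_image
    intro W hW
    obtain ⟨p0, hp0, hp0W⟩ := mem_image.1 hW
    have hp0' := D.mem_Wn.1 hp0
    have hcW : W.card = P + 1 := by rw [← hp0W]; exact D.card_Wset hp0'.1 hp0'.2
    have h5 := hf (univ.filter (fun r => W ⊆ D.N r)) W (by
      intro r hr b hb
      rw [mem_filter] at hr
      exact D.mem_N.1 (hr.2 hb))
    have h6 : (univ.filter (fun r => W ⊆ D.N r)).card ≤ c := by
      rcases h5 with h5 | h5
      · exact h5
      · omega
    refine le_trans ?_ h6
    apply card_le_card_of_injOn (fun p => p.1)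
    · intro p hp
      rw [mem_coe, mem_filter] at hp
      rw [mem_coe, mem_filter, ← hp.2]
      exact ⟨mem_univ _, filter_subset _ _⟩
    · intro p hp q hq he
      rw [mem_coe, mem_filter] at hp hq
      have e1 : p.1 = q.1 := he
      have hp1 := D.mem_Wn.1 hp.1
      have hq1 := D.mem_Wn.1 hq.1
      rw [← e1] at hq1
      have e2 : D.Wset P p.1 p.2 = D.Wset P p.1 q.2 := by
        have := hp.2.trans hq.2.symm
        simp only [hf'] at this
        rw [this, e1]
      have a1 : p.2 ∈ D.Wset P p.1 q.2 := by rw [← e2]; exact D.self_mem_Wset hp1.1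
      have a2 : q.2 ∈ D.Wset P p.1 p.2 := by rw [e2]; exact D.self_mem_Wset hq1.1
      rw [mem_Wset] at a1 a2
      exact Prod.ext e1 (D.L_inj hp1.1 hq1.1 (le_antisymm a1.2.1 a2.2.1))
  have h5 := D.M_le P
  calc (D.Wn P).card + c * ∑ p ∈ D.NPs, (D.cw p - P)
      ≤ c * T0.card + c * (D.nontop P).card := by
        apply add_le_add
        · exact h4.trans (Nat.mul_le_mul_left c h3)
        · exact Nat.mul_le_mul_left c h5
    _ = c * (D.Wn P).card := by rw [← h1]; ring

/-- **Inequality (B1).** -/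
theorem B1 {c P : ℕ} (hf : D.free c P) :
    c * (D.tops P).card + D.m ≤ 2 * c * D.nb + P * D.nr := by
  classical
  have h1 := D.windows hf
  have h2 := Nat.mul_le_mul_left c (D.star P)
  have h3 : D.m ≤ ∑ r, ((D.N r).card - P) + P * D.nr := by
    unfold m nr
    rw [mul_comm P, ← smul_eq_mul, ← sum_const, sum_filter, ← sum_add_distrib]
    apply sum_le_sum
    intro r _
    split_ifs with h
    · omega
    · rw [not_nonempty_iff_eq_empty] at h
      rw [h]; simp
  rw [mul_add, mul_add] at h2
  nlinarith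

end Diag

end CGr
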