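import Pool.Agent.Work.MP_954b6f_co_helper49.Split
import Pool.Agent.Work.MP_954b6f_co_helper49.Window

/-!
# Erosion

`IsPres D K D' φ ψ`: the diagram `D'` has the crossings in `K`, its chords being the runs of `K` on
the chords of `D`.  The set of the crossings of rank at least `k` (at least `k` further crossings
in all four directions) can be presented.
-/

set_option autoImplicit false
set_option linter.unusedSectionVars false

open Finset

namespace CGr

namespace Diag

variable {R B : Type}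

structure IsPres (D : Diag R B) (K : R → B → Prop) {R' B' : Type} (D' : Diag R' B')
    (φ : R' → R) (ψ : B' → B) : Prop where
  sub : ∀ r b, D'.cr r b → K (φ r) (ψ b)
  inj : ∀ r b r' b', D'.cr r b → D'.cr r' b' → φ r = φ r' → ψ b = ψ b' → r = r' ∧ b = b'
  surj : ∀ r b, K r b → ∃ r' b', D'.cr r' b' ∧ φ r' = r ∧ ψ b' = b
  btR : ∀ r x y z, D'.cr r x → D'.cr r y → D'.cr r z →
    (D'.bt r x y z ↔ D.bt (φ r) (ψ x) (ψ y) (ψ z))
  btB : ∀ b x y z, D'.cr x b → D'.cr y b → D'.cr z b →
    (D'.swap.bt b x y z ↔ D.swap.bt (ψ b) (φ x) (φ y) (φ z))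
  runR : ∀ r r' x y, D'.cr r x → D'.cr r' y → φ r = φ r' →
    (r = r' ↔ ∀ b, D.cr (φ r) b → D.bt (φ r) (ψ x) b (ψ y) → K (φ r) b)
  runB : ∀ b b' x y, D'.cr x b → D'.cr y b' → ψ b = ψ b' →
    (b = b' ↔ ∀ r, D.cr r (ψ b) → D.swap.bt (ψ b) (φ x) r (φ y) → K r (ψ b))

lemma IsPres.swap {D : Diag R B} {K : R → B → Prop} {R' B' : Type} {D' : Diag R' B'}
    {φ : R' → R} {ψ : B' → B} (h : IsPres D K D' φ ψ) :
    IsPres D.swap (fun b r => K r b) D'.swap ψ φ where
  sub := fun b r hc => h.sub r b ((D'.swap_cr r b).1 hc)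
  inj := fun b r b' r' hc hc' e1 e2 =>
    (h.inj r b r' b' ((D'.swap_cr r b).1 hc) ((D'.swap_cr r' b').1 hc') e2 e1).symm
  surj := fun b r hK => by
    obtain ⟨r', b', h1, h2, h3⟩ := h.surj r b hK
    exact ⟨b', r', (D'.swap_cr r' b').2 h1, h3, h2⟩
  btR := fun b x y z hx hy hz =>
    h.btB b x y z ((D'.swap_cr x b).1 hx) ((D'.swap_cr y b).1 hy) ((D'.swap_cr z b).1 hz)
  btB := fun r x y z hx hy hz =>
    h.btR r x y z ((D'.swap_cr r x).1 hx) ((D'.swap_cr r y).1 hy) ((D'.swap_cr r z).1 hz)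
  runR := fun b b' x y hx hy e => by
    rw [h.runB b b' x y ((D'.swap_cr x b).1 hx) ((D'.swap_cr y b').1 hy) e]
    constructor
    · intro H r hr; exact H r ((D.swap_cr r _).1 hr)
    · intro H r hr; exact H r ((D.swap_cr r _).2 hr)
  runB := fun r r' x y hx hy e => by
    rw [h.runR r r' x y ((D'.swap_cr r x).1 hx) ((D'.swap_cr r' y).1 hy) e]
    constructor
    · intro H b hb; exact H b ((D.swap_cr _ b).1 hb)
    · intro H b hb; exact H b ((D.swap_cr _ b).2 hb)

def Pres (D : Diag R B) (K : R → B → Prop) : Prop :=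
  ∃ (R' B' : Type) (_ : Fintype R') (_ : Fintype B') (D' : Diag R' B') (φ : R' → R) (ψ : B' → B),
    IsPres D K D' φ ψ

lemma Pres.swap {D : Diag R B} {K : R → B → Prop} (h : Pres D K) :
    Pres D.swap (fun b r => K r b) := by
  obtain ⟨R', B', f1, f2, D', φ, ψ, h⟩ := h
  exact ⟨B', R', f2, f1, D'.swap, ψ, φ, h.swap⟩

lemma bt_trans {D : Diag R B} {r : R} {x y z w : B} (h : D.bt r x y z) (h' : D.bt r x w y) :
    D.bt r x w z := by
  unfold bt at *; omega

lemma bt_trans' {D : Diag R B} {r : R} {x y z w : B} (h : D.bt r x y z) (h' : D.bt r y w z) :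
    D.bt r x w z := by
  unfold bt at *; omega

lemma bt_symm {D : Diag R B} {r : R} {x y z : B} : D.bt r x y z ↔ D.bt r z y x := by
  unfold bt; omega

/-- removing an extreme crossing of a red chord -/
lemma Pres.removeR {D : Diag R B} {K : R → B → Prop} (h : Pres D K) {r0 : R} {b0 : B}
    (h0 : K r0 b0)
    (hend : (∀ b, D.cr r0 b → D.inn r0 b < D.inn r0 b0 → ¬ K r0 b) ∨
      (∀ b, D.cr r0 b → D.inn r0 b0 < D.inn r0 b → ¬ K r0 b))
    (hK : ∀ r b, K r b → D.cr r b) :
    Pres D (fun r b => K r b ∧ ¬ (r = r0 ∧ b = b0)) := by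
  classical
  obtain ⟨R', B', f1, f2, D', φ, ψ, h⟩ := h
  obtain ⟨r', b', hrb, rfl, rfl⟩ := h.surj r0 b0 h0
  -- nothing of `K` on both sides
  have hno : ∀ x y, K (φ r') x → K (φ r') y → ¬ D.bt (φ r') x (ψ b') y := by
    intro x y hx hy hb
    have hx' := hK _ _ hx
    have hy' := hK _ _ hy
    unfold bt at hb
    rcases hend with he | he
    · rcases hb with hb | hb
      · exact he x hx' hb.1 hx
      · exact he y hy' hb.1 hy
    · rcases hb with hb | hb
      · exact he y hy' hb.2 hy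
      · exact he x hx' hb.2 hx
  have hext : (∀ b, D'.cr r' b → D'.inn r' b ≤ D'.inn r' b') ∨
      (∀ b, D'.cr r' b → D'.inn r' b' ≤ D'.inn r' b) := by
    by_contra hc
    push Not at hc
    obtain ⟨⟨x, hx, hx'⟩, ⟨y, hy, hy'⟩⟩ := hc
    apply hno (ψ x) (ψ y) (h.sub _ _ hx) (h.sub _ _ hy)
    rw [← h.btR r' x b' y hx hrb hy]
    right; exact ⟨hy', hx'⟩
  obtain ⟨e, p, q, hs⟩ : ∃ e p q, D'.SplitData r' b' e p q := by
    rcases hext with hext | hext
    · exact ⟨D'.rb r', 3 * D'.rb r' - 1, 3 * D'.rb r' + 1, hrb, Or.inl ⟨rfl, rfl, rfl, hext⟩⟩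
    · exact ⟨D'.ra r', 3 * D'.ra r' + 1, 3 * D'.ra r' - 1, hrb, Or.inr ⟨rfl, rfl, rfl, hext⟩⟩
  refine ⟨R', Option B', f1, inferInstance, splitD hs, φ, fun x => ψ (prj b' x), ?_⟩
  constructor
  · -- sub
    intro r x hx
    have h1 := split_prj_cr hs hx
    refine ⟨h.sub _ _ h1, ?_⟩
    rintro ⟨e1, e2⟩
    obtain ⟨rfl, e3⟩ := h.inj _ _ _ _ h1 hrb e1 e2
    rcases x with _ | b
    · exact ((split_cr_right hs).1 hx).2.1 rfl
    · simp only [prj] at e3
      subst e3
      have := ((split_cr_left hs).1 hx).2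
      unfold sb at this
      omega
  · -- inj
    intro r x s y hx hy e1 e2
    obtain ⟨rfl, e3⟩ := h.inj _ _ _ _ (split_prj_cr hs hx) (split_prj_cr hs hy) e1 e2
    refine ⟨rfl, ?_⟩
    rcases x with _ | b <;> rcases y with _ | c
    · rfl
    · simp only [prj] at e3
      subst e3
      exact absurd ((split_cr_left hs).1 hy).2 ((split_cr_right hs).1 hx).2.2
    · simp only [prj] at e3
      subst e3
      exact absurd ((split_cr_left hs).1 hx).2 ((split_cr_right hs).1 hy).2.2
    · simp only [prj] at e3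
      rw [e3]
  · -- surj
    rintro r b ⟨hKb, hne⟩
    obtain ⟨s, c, hsc, rfl, rfl⟩ := h.surj r b hKb
    by_cases hc : c = b'
    · subst hc
      have hsr : s ≠ r' := by rintro rfl; exact hne ⟨rfl, rfl⟩
      by_cases hsb : D'.sb s r'
      · exact ⟨s, some c, (split_cr_left hs).2 ⟨hsc, hsb⟩, rfl, rfl⟩
      · exact ⟨s, none, (split_cr_right hs).2 ⟨hsc, hsr, hsb⟩, rfl, rfl⟩
    · exact ⟨s, some c, (split_cr_other hs hc).2 hsc, rfl, rfl⟩
  · -- btR
    intro r x y z hx hy hz
    rw [split_bt hs hx hy hz]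
    exact h.btR _ _ _ _ (split_prj_cr hs hx) (split_prj_cr hs hy) (split_prj_cr hs hz)
  · -- btB
    intro b x y z hx hy hz
    rw [split_swap_bt hs hx hy hz]
    exact h.btB _ _ _ _ (split_prj_cr hs hx) (split_prj_cr hs hy) (split_prj_cr hs hz)
  · -- runR
    intro r s x y hx hy e1
    have hx' := split_prj_cr hs hx
    have hy' := split_prj_cr hs hy
    rw [h.runR r s _ _ hx' hy' e1]
    constructor
    · intro H b hb hbt
      refine ⟨H b hb hbt, ?_⟩
      rintro ⟨e2, rfl⟩
      have k1 := h.sub _ _ hx'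
      have k2 := h.sub _ _ hy'
      rw [← e1] at k2
      rw [e2] at k1 k2 hbt
      exact hno _ _ k1 k2 hbt
    · intro H b hb hbt
      exact (H b hb hbt).1
  · -- runB
    intro x y r s hx hy e1
    have hx' := split_prj_cr hs hx
    have hy' := split_prj_cr hs hy
    constructor
    · intro hxy
      subst hxy
      have H := (h.runB _ _ r s hx' hy' e1).1 rfl
      intro t ht hbt
      refine ⟨H t ht hbt, ?_⟩
      rintro ⟨rfl, e2⟩
      -- the chord is `b'`
      have e3 : prj b' x = b' := by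
        rw [h.runB (prj b' x) b' r r' hx' hrb e2]
        intro t ht1 ht2
        exact H t ht1 (bt_trans hbt ht2)
      have h1 : D'.swap.bt b' r r' s := by
        rw [h.btB b' r r' s (by rw [← e3]; exact hx') hrb (by rw [← e3]; exact hy')]
        rw [← e2]
        exact hbt
      rw [swap_bt_iff (by rw [← e3]; exact hx') hrb (by rw [← e3]; exact hy')] at h1
      rcases x with _ | b
      · have g1 := ((split_cr_right hs).1 hx).2.2
        have g2 := ((split_cr_right hs).1 hy).2.2
        rcases h1.2.2 with h2 | h2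
        · exact g1 h2.1
        · exact g2 h2.2
      · simp only [prj] at e3
        subst e3
        have g1 := ((split_cr_left hs).1 hx).2
        have g2 := ((split_cr_left hs).1 hy).2
        rcases h1.2.2 with h2 | h2
        · exact h2.2 g2
        · exact h2.1 g1
    · intro H
      have e2 : prj b' x = prj b' y := by
        rw [h.runB _ _ r s hx' hy' e1]
        intro t ht hbt
        exact (H t ht hbt).1
      -- the mixed case
      have key : ∀ r s, (splitD hs).cr r (some b') → (splitD hs).cr s none →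
          D'.swap.bt b' r r' s := by
        intro r s hr hs'
        have g1 := (split_cr_left hs).1 hr
        have g2 := (split_cr_right hs).1 hs'
        rw [swap_bt_iff g1.1 hrb g2.1]
        refine ⟨?_, Ne.symm g2.2.1, Or.inl ⟨g1.2, g2.2.2⟩⟩
        rintro rfl
        have := g1.2
        unfold sb at this
        omega
      rcases x with _ | b <;> rcases y with _ | c
      · rfl
      · exfalso
        simp only [prj] at e2 e1 H
        subst e2
        have h1 := key s r hy hx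
        rw [h.btB b' s r' r hy' hrb hx'] at h1
        exact (H (φ r') (hK _ _ h0) (bt_symm.1 h1)).2 ⟨rfl, trivial⟩
      · exfalso
        simp only [prj] at e2 e1 H
        subst e2
        have h1 := key r s hx hy
        rw [h.btB b r r' s hx' hrb hy'] at h1
        exact (H (φ r') (hK _ _ h0) h1).2 ⟨rfl, rfl⟩
      · simp only [prj] at e2
        rw [e2]

/-- removing an extreme crossing of a blue chord -/
lemma Pres.removeB {D : Diag R B} {K : R → B → Prop} (h : Pres D K) {r0 : R} {b0 : B}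
    (h0 : K r0 b0)
    (hend : (∀ r, D.cr r b0 → D.swap.inn b0 r < D.swap.inn b0 r0 → ¬ K r b0) ∨
      (∀ r, D.cr r b0 → D.swap.inn b0 r0 < D.swap.inn b0 r → ¬ K r b0))
    (hK : ∀ r b, K r b → D.cr r b) :
    Pres D (fun r b => K r b ∧ ¬ (r = r0 ∧ b = b0)) := by
  have h1 := Pres.removeR (D := D.swap) (K := fun b r => K r b) h.swap (r0 := b0) (b0 := r0) h0
    (by
      rcases hend with hend | hend
      · left; intro r hr; exact hend r ((D.swap_cr r b0).1 hr)
      · right; intro r hr; exact hend r ((D.swap_cr r b0).1 hr))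
    (fun b r hb => (D.swap_cr r b).2 (hK r b hb))
  have h2 := h1.swap
  have h3 : (fun r b => K r b ∧ ¬ (r = r0 ∧ b = b0)) = (fun r b => K r b ∧ ¬ (b = b0 ∧ r = r0)) := by
    funext r b
    rw [and_comm (a := r = r0)]
  rw [h3]
  exact h2

variable (D : Diag R B) [Fintype R] [Fintype B]

/-- number of further crossings in the four directions -/
def rk (r : R) (b : B) : ℕ := min (min (D.L r b) (D.Rt r b)) (min (D.swap.L b r) (D.swap.Rt b r))

lemma pres_id : Pres D (fun r b => D.cr r b ∧ 0 ≤ D.rk r b) := by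
  refine ⟨R, B, inferInstance, inferInstance, D, id, id, ?_⟩
  constructor
  · intro r b h; exact ⟨h, Nat.zero_le _⟩
  · intro r b r' b' _ _ h1 h2; exact ⟨h1, h2⟩
  · intro r b h; exact ⟨r, b, h.1, rfl, rfl⟩
  · intros; rfl
  · intros; rfl
  · intro r r' x y _ _ h
    exact ⟨fun _ b hb _ => ⟨hb, Nat.zero_le _⟩, fun _ => h⟩
  · intro r r' x y _ _ h
    exact ⟨fun _ b hb _ => ⟨hb, Nat.zero_le _⟩, fun _ => h⟩

lemma pres_step (k : ℕ) : ∀ (n : ℕ) (K : R → B → Prop),
    (∀ r b, K r b → D.cr r b ∧ k ≤ D.rk r b) → (∀ r b, D.cr r b ∧ k + 1 ≤ D.rk r b → K r b) →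
    Set.ncard {p : R × B | K p.1 p.2 ∧ D.rk p.1 p.2 = k} = n → Pres D K →
    Pres D (fun r b => D.cr r b ∧ k + 1 ≤ D.rk r b) := by
  intro n
  induction n with
  | zero =>
    intro K h1 h2 h3 h
    have hfin : Set.Finite {p : R × B | K p.1 p.2 ∧ D.rk p.1 p.2 = k} := Set.toFinite _
    rw [Set.ncard_eq_zero hfin] at h3
    have : (fun r b => D.cr r b ∧ k + 1 ≤ D.rk r b) = K := by
      funext r b
      apply propext
      refine ⟨h2 r b, fun hK => ?_⟩
      obtain ⟨a, b'⟩ := h1 r b hK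
      refine ⟨a, ?_⟩
      by_contra hc
      have : (r, b) ∈ ({p : R × B | K p.1 p.2 ∧ D.rk p.1 p.2 = k} : Set _) :=
        ⟨hK, by simp only; omega⟩
      rw [h3] at this
      exact this
    rw [this]
    exact h
  | succ n ih =>
    intro K h1 h2 h3 h
    have hfin : Set.Finite {p : R × B | K p.1 p.2 ∧ D.rk p.1 p.2 = k} := Set.toFinite _
    have hne : Set.Nonempty {p : R × B | K p.1 p.2 ∧ D.rk p.1 p.2 = k} := by
      rw [← Set.ncard_pos hfin]; omega
    obtain ⟨⟨r0, b0⟩, hp0, hpk⟩ := hne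
    simp only at hp0 hpk
    have hcr := (h1 r0 b0 hp0).1
    apply ih (fun r b => K r b ∧ ¬ (r = r0 ∧ b = b0))
    · intro r b hK; exact h1 r b hK.1
    · rintro r b hK
      refine ⟨h2 r b hK, ?_⟩
      rintro ⟨rfl, rfl⟩
      omega
    · have e : {p : R × B | (K p.1 p.2 ∧ ¬ (p.1 = r0 ∧ p.2 = b0)) ∧ D.rk p.1 p.2 = k} =
          {p : R × B | K p.1 p.2 ∧ D.rk p.1 p.2 = k} \ {(r0, b0)} := by
        ext p
        constructor
        · rintro ⟨⟨a, b⟩, c⟩
          exact ⟨⟨a, c⟩, fun hc => b (by rw [Set.mem_singleton_iff] at hc; rw [hc]; exact ⟨rfl, rfl⟩)⟩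
        · rintro ⟨⟨a, b⟩, c⟩
          exact ⟨⟨a, fun hc => c (Prod.ext hc.1 hc.2)⟩, b⟩
      show Set.ncard {p : R × B | (K p.1 p.2 ∧ ¬ (p.1 = r0 ∧ p.2 = b0)) ∧ D.rk p.1 p.2 = k} = n
      have hmem : (r0, b0) ∈ {p : R × B | K p.1 p.2 ∧ D.rk p.1 p.2 = k} := ⟨hp0, hpk⟩
      rw [e, Set.ncard_sdiff_singleton_of_mem hmem, h3]
      rfl
    · have hK' : ∀ r b, K r b → D.cr r b := fun r b hK => (h1 r b hK).1
      have hrk : ∀ r b, K r b → k ≤ D.L r b ∧ k ≤ D.Rt r b ∧ k ≤ D.swap.L b r ∧
          k ≤ D.swap.Rt b r := by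
        intro r b hK
        have := (h1 r b hK).2
        unfold rk at this
        omega
      have hcase : D.L r0 b0 = k ∨ D.Rt r0 b0 = k ∨ D.swap.L b0 r0 = k ∨ D.swap.Rt b0 r0 = k := by
        unfold rk at hpk
        omega
      rcases hcase with hc | hc | hc | hc
      · apply h.removeR hp0 _ hK'
        left
        intro b hb hlt hK
        have h4 := (hrk r0 b hK).1
        have h5 : D.L r0 b < D.L r0 b0 := pre_lt_pre (D.mem_A hb) hlt
        omega
      · apply h.removeR hp0 _ hK'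
        right
        intro b hb hlt hK
        have h4 := (hrk r0 b hK).2.1
        have h5 : D.Rt r0 b < D.Rt r0 b0 := post_lt_post (D.mem_A hb) hlt
        omega
      · apply h.removeB hp0 _ hK'
        left
        intro r hr hlt hK
        have h4 := (hrk r b0 hK).2.2.1
        have h5 : D.swap.L b0 r < D.swap.L b0 r0 :=
          pre_lt_pre (D.swap.mem_A ((D.swap_cr r b0).2 hr)) hlt
        omega
      · apply h.removeB hp0 _ hK'
        right
        intro r hr hlt hK
        have h4 := (hrk r b0 hK).2.2.2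
        have h5 : D.swap.Rt b0 r < D.swap.Rt b0 r0 :=
          post_lt_post (D.swap.mem_A ((D.swap_cr r b0).2 hr)) hlt
        omega

theorem pres_rank (k : ℕ) : Pres D (fun r b => D.cr r b ∧ k ≤ D.rk r b) := by
  induction k with
  | zero => exact D.pres_id
  | succ k ih =>
    exact D.pres_step k _ _ (fun r b h => h) (fun r b h => ⟨h.1, by omega⟩) rfl ih

end Diag

end CGr
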