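import Mathlib

/-!
# Circle graphs and average degrees: definitions
-/

namespace CircleKst

/-- `G` is a circle graph: its vertices can be represented by chords of the unit circle of the
complex plane (the chord of `v` joins the points `p v` and `q v`; all endpoints are distinct) such
that two different vertices are adjacent iff their chords cross, that is, have a common point. -/
def IsCircleGraph {V : Type*} (G : SimpleGraph V) : Prop :=
  ∃ p q : V → ℂ, (∀ v, ‖p v‖ = 1 ∧ ‖q v‖ = 1) ∧ Function.Injective (Sum.elim p q) ∧
    ∀ u v, G.Adj u v ↔ u ≠ v ∧ (segment ℝ (p u) (q u) ∩ segment ℝ (p v) (q v)).Nonempty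

/-- `G` is a bipartite circle graph without a (not necessarily induced) subgraph `K_{s,t}` -/
def InClass (s t : ℕ) {V : Type*} (G : SimpleGraph V) : Prop :=
  IsCircleGraph G ∧ G.Colorable 2 ∧ (completeBipartiteGraph (Fin s) (Fin t)).Free G

/-- the set of all average degrees `2 |E(G)| / |V(G)|` of the graphs `G` with at least one vertex in
the class; `d(s,t)` is its supremum -/
def avgDegrees (s t : ℕ) : Set ℝ :=
  {x | ∃ (n : ℕ) (G : SimpleGraph (Fin n)), 0 < n ∧ InClass s t G ∧
    x = 2 * (G.edgeSet.ncard : ℝ) / n}

end CircleKst
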