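import Pool.Agent.Work.MP_954b6f_co_helper49.Pre

/-!
# Two-coloured chord diagrams

A diagram: noncrossing red chords and noncrossing blue chords of a line, all endpoints distinct
integers.
-/

set_option autoImplicit false
set_option linter.unusedSectionVars false

open Finset

namespace CGr

structure Diag (R B : Type) where
  ra : R → ℤ
  rb : R → ℤ
  ba : B → ℤ
  bb : B → ℤ
  hr : ∀ r, ra r < rb r
  hb : ∀ b, ba b < bb b
  rr : ∀ r s, r ≠ s → rb r < ra s ∨ rb s < ra r ∨ (ra r < ra s ∧ rb s < rb r) ∨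
    (ra s < ra r ∧ rb r < rb s)
  bbx : ∀ r s, r ≠ s → bb r < ba s ∨ bb s < ba r ∨ (ba r < ba s ∧ bb s < bb r) ∨
    (ba s < ba r ∧ bb r < bb s)
  ne : ∀ r b, ra r ≠ ba b ∧ ra r ≠ bb b ∧ rb r ≠ ba b ∧ rb r ≠ bb b

namespace Diag

variable {R B : Type} (D : Diag R B)

/-- exchange the colours -/
def swap : Diag B R where
  ra := D.ba
  rb := D.bb
  ba := D.ra
  bb := D.rb
  hr := D.hb
  hb := D.hr
  rr := D.bbx
  bbx := D.rr
  ne := fun b r => by have := D.ne r b; omega

/-- the chords cross -/
def cr (r : R) (b : B) : Prop :=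
  (D.ra r < D.ba b ∧ D.ba b < D.rb r ∧ D.rb r < D.bb b) ∨
  (D.ba b < D.ra r ∧ D.ra r < D.bb b ∧ D.bb b < D.rb r)

instance (r : R) (b : B) : Decidable (D.cr r b) := by unfold cr; infer_instance

lemma swap_cr (r : R) (b : B) : D.swap.cr b r ↔ D.cr r b := by
  unfold cr swap
  have := D.ne r b
  simp only
  omega

/-- the endpoint of `b` in the interval of `r` (if they cross) -/
def inn (r : R) (b : B) : ℤ := if D.ra r < D.ba b ∧ D.ba b < D.rb r then D.ba b else D.bb b

lemma cr_cases {r : R} {b : B} (h : D.cr r b) :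
    (D.inn r b = D.ba b ∧ D.ra r < D.ba b ∧ D.ba b < D.rb r ∧ D.rb r < D.bb b) ∨
    (D.inn r b = D.bb b ∧ D.ba b < D.ra r ∧ D.ra r < D.bb b ∧ D.bb b < D.rb r) := by
  unfold inn
  rcases h with h | h
  · left
    rw [if_pos ⟨h.1, h.2.1⟩]
    exact ⟨rfl, h⟩
  · right
    rw [if_neg (by omega)]
    exact ⟨rfl, h⟩

variable [Fintype R] [Fintype B]

/-- the blue chords crossing `r` -/
def N (r : R) : Finset B := univ.filter (fun b => D.cr r b)

/-- the positions of the crossings on `r` -/
def A (r : R) : Finset ℤ := (D.N r).image (D.inn r)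

lemma mem_N {r : R} {b : B} : b ∈ D.N r ↔ D.cr r b := by simp [N]

lemma inn_inj {r s : R} {b c : B} (hb : D.cr r b) (hc : D.cr s c) (h : D.inn r b = D.inn s c) :
    b = c := by
  by_contra hne
  have h1 := D.cr_cases hb
  have h2 := D.cr_cases hc
  have h3 := D.bbx b c hne
  have h4 := D.hb b
  have h5 := D.hb c
  omega

lemma inn_injOn (r : R) : Set.InjOn (D.inn r) (D.N r) := by
  intro b hb c hc h
  exact D.inn_inj (D.mem_N.1 hb) (D.mem_N.1 hc) h

lemma card_A (r : R) : (D.A r).card = (D.N r).card := card_image_of_injOn (D.inn_injOn r)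

lemma mem_A {r : R} {b : B} (h : D.cr r b) : D.inn r b ∈ D.A r :=
  mem_image_of_mem _ (D.mem_N.2 h)

/-- number of blue chords crossing `r` before / after `b` -/
def L (r : R) (b : B) : ℕ := pre (D.A r) (D.inn r b)
def Rt (r : R) (b : B) : ℕ := post (D.A r) (D.inn r b)

lemma L_add {r : R} {b : B} (h : D.cr r b) : D.L r b + D.Rt r b + 1 = (D.N r).card := by
  rw [← D.card_A]
  exact pre_add_post (D.mem_A h)

/-- counting cells on a chord by their position -/
lemma card_filter_L (r : R) (p : ℕ → Prop) [DecidablePred p] :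
    ((D.N r).filter (fun b => p (D.L r b))).card = ((range (D.N r).card).filter p).card := by
  rw [← D.card_A, ← card_filter_pre (D.A r) p]
  unfold A
  rw [filter_image, card_image_of_injOn]
  · rfl
  · intro b hb c hc h
    simp only [coe_filter, Set.mem_ofPred_eq] at hb hc
    exact D.inn_inj (D.mem_N.1 hb.1) (D.mem_N.1 hc.1) h

/-- number of crossings -/
def m : ℕ := ∑ r, (D.N r).card

/-- numbers of chords which cross something -/
def nr : ℕ := (univ.filter (fun r => (D.N r).Nonempty)).card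
def nb : ℕ := D.swap.nr

/-- the crossings -/
def cells : Finset (R × B) := univ.filter (fun p => D.cr p.1 p.2)

lemma mem_cells {p : R × B} : p ∈ D.cells ↔ D.cr p.1 p.2 := by simp [cells]

lemma card_cells : D.cells.card = D.m := by
  classical
  unfold m
  rw [card_eq_sum_card_fiberwise (f := Prod.fst) (t := univ) (fun _ _ => mem_coe.2 (mem_univ _))]
  apply sum_congr rfl
  intro r _
  apply card_bij (fun p _ => p.2)
  · intro p hp
    rw [mem_filter, D.mem_cells] at hp
    rw [D.mem_N, ← hp.2]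
    exact hp.1
  · intro p hp q hq h
    rw [mem_filter] at hp hq
    exact Prod.ext (hp.2.trans hq.2.symm) h
  · intro b hb
    exact ⟨(r, b), by rw [mem_filter, D.mem_cells]; exact ⟨D.mem_N.1 hb, rfl⟩, rfl⟩

lemma swap_m : D.swap.m = D.m := by
  rw [← card_cells, ← card_cells]
  apply card_bij (fun p _ => (p.2, p.1))
  · intro p hp
    rw [mem_cells] at hp ⊢
    exact (D.swap_cr _ _).1 hp
  · intro p _ q _ h
    simp only [Prod.mk.injEq] at h
    exact Prod.ext h.2 h.1
  · intro p hp
    rw [mem_cells] at hp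
    exact ⟨(p.2, p.1), by rw [mem_cells]; exact (D.swap_cr _ _).2 hp, rfl⟩

end Diag

end CGr
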