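import Mathlib

/-!
# Chords of the unit circle

The Cayley parametrisation of the unit circle, and: two chords with distinct endpoints intersect iff
the parameters of their endpoints alternate.
-/

set_option autoImplicit false

namespace CGr

/-- Cayley parametrisation -/
noncomputable def cay (t : ℝ) : ℂ := ⟨(1 - t ^ 2) / (1 + t ^ 2), 2 * t / (1 + t ^ 2)⟩

lemma cay_norm (t : ℝ) : ‖cay t‖ = 1 := by
  have h : (1 + t ^ 2) ≠ 0 := by positivity
  have h1 : Complex.normSq (cay t) = 1 := by
    rw [Complex.normSq_apply]
    unfold cay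
    simp only
    field_simp
    ring
  rw [Complex.norm_def, h1, Real.sqrt_one]

lemma cay_inj : Function.Injective cay := by
  intro s t h
  have hs : (1 + s ^ 2) ≠ 0 := by positivity
  have ht : (1 + t ^ 2) ≠ 0 := by positivity
  have h1 := congrArg Complex.re h
  have h2 := congrArg Complex.im h
  unfold cay at h1 h2
  simp only at h1 h2
  rw [div_eq_div_iff hs ht] at h1 h2
  have h3 : s ^ 2 = t ^ 2 := by nlinarith
  rw [h3] at h2
  have h4 := mul_right_cancel₀ ht h2
  linarith

lemma cay_surj {z : ℂ} (hz : ‖z‖ = 1) (hz1 : z ≠ -1) : ∃ t, cay t = z := by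
  have h1 : z.re * z.re + z.im * z.im = 1 := by
    have : Complex.normSq z = 1 := by
      rw [Complex.normSq_eq_norm_sq, hz]
      norm_num
    rwa [Complex.normSq_apply] at this
  have h2 : 1 + z.re ≠ 0 := by
    intro h
    apply hz1
    have h3 : z.re = -1 := by linarith
    have h4 : z.im = 0 := by
      have : z.im * z.im = 0 := by nlinarith
      exact mul_self_eq_zero.1 this
    apply Complex.ext
    · simp [h3]
    · simp [h4]
  refine ⟨z.im / (1 + z.re), ?_⟩
  have h5 : 1 + (z.im / (1 + z.re)) ^ 2 = 2 / (1 + z.re) := by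
    field_simp
    nlinarith
  have h6 : (2 : ℝ) / (1 + z.re) ≠ 0 := by positivity
  apply Complex.ext
  · unfold cay
    simp only
    rw [h5, div_eq_iff h6]
    field_simp
    nlinarith
  · unfold cay
    simp only
    rw [h5]
    field_simp

/-- twice the signed area of a triangle -/
def side (A B X : ℂ) : ℝ := (B.re - A.re) * (X.im - A.im) - (B.im - A.im) * (X.re - A.re)

lemma side_cay (a b c : ℝ) : side (cay a) (cay b) (cay c) =
    4 * ((b - a) * (c - a) * (c - b)) / ((1 + a ^ 2) * (1 + b ^ 2) * (1 + c ^ 2)) := by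
  have ha : (1 + a ^ 2) ≠ 0 := by positivity
  have hb : (1 + b ^ 2) ≠ 0 := by positivity
  have hc : (1 + c ^ 2) ≠ 0 := by positivity
  unfold side cay
  simp only
  field_simp
  ring

lemma side_seg {A B C D X : ℂ} (hX : X ∈ segment ℝ C D) :
    ∃ u v : ℝ, 0 ≤ u ∧ 0 ≤ v ∧ u + v = 1 ∧ side A B X = u * side A B C + v * side A B D := by
  obtain ⟨u, v, hu, hv, huv, rfl⟩ := hX
  refine ⟨u, v, hu, hv, huv, ?_⟩
  unfold side
  simp only [Complex.add_re, Complex.add_im, Complex.real_smul, Complex.mul_re, Complex.mul_im,
    Complex.ofReal_re, Complex.ofReal_im]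
  have : v = 1 - u := by linarith
  subst this
  ring

lemma side_self {A B X : ℂ} (hX : X ∈ segment ℝ A B) : side A B X = 0 := by
  obtain ⟨u, v, _, _, _, h⟩ := side_seg (A := A) (B := B) hX
  rw [h]
  unfold side
  ring

/-- opposite sides: the segments intersect -/
lemma inter_of_sides {A B C D : ℂ} (h1 : side A B C * side A B D < 0)
    (h2 : side C D A * side C D B < 0) : (segment ℝ A B ∩ segment ℝ C D).Nonempty := by
  have key : ∀ {x y : ℝ}, x * y < 0 → x - y ≠ 0 ∧ 0 ≤ x / (x - y) ∧ 0 ≤ -y / (x - y) ∧
      -y / (x - y) + x / (x - y) = 1 := by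
    intro x y h
    have hne : x - y ≠ 0 := by
      intro h0
      have : x = y := by linarith
      subst this
      nlinarith [mul_self_nonneg x]
    refine ⟨hne, ?_, ?_, ?_⟩
    · rcases lt_or_gt_of_ne hne with h3 | h3
      · apply div_nonneg_of_nonpos _ h3.le
        by_contra hc
        nlinarith
      · apply div_nonneg _ h3.le
        by_contra hc
        nlinarith
    · rcases lt_or_gt_of_ne hne with h3 | h3
      · apply div_nonneg_of_nonpos _ h3.le
        by_contra hc
        nlinarith
      · apply div_nonneg _ h3.le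
        by_contra hc
        nlinarith
    · field_simp
      ring
  obtain ⟨n1, p1, q1, r1⟩ := key h1
  obtain ⟨n2, p2, q2, r2⟩ := key h2
  refine ⟨((-side C D B / (side C D A - side C D B) : ℝ) : ℂ) * A +
    ((side C D A / (side C D A - side C D B) : ℝ) : ℂ) * B, ?_, ?_⟩
  · refine ⟨_, _, q2, p2, r2, ?_⟩
    simp only [Complex.real_smul]
  · refine ⟨_, _, q1, p1, r1, ?_⟩
    simp only [Complex.real_smul]
    have e : side C D A - side C D B = -(side A B C - side A B D) := by
      unfold side
      ring
    have n1' : side A B C - side A B D ≠ 0 := n1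
    rw [e]
    apply Complex.ext
    · simp only [Complex.add_re, Complex.mul_re, Complex.ofReal_re, Complex.ofReal_im]
      field_simp
      unfold side
      ring
    · simp only [Complex.add_im, Complex.mul_im, Complex.ofReal_re, Complex.ofReal_im]
      field_simp
      unfold side
      ring

/-- two chords with four distinct endpoints intersect iff the endpoints alternate -/
lemma chords_iff {a b c d : ℝ} (hab : a < b) (hcd : c < d) (h1 : a ≠ c) (h2 : a ≠ d) (h3 : b ≠ c)
    (h4 : b ≠ d) : (segment ℝ (cay a) (cay b) ∩ segment ℝ (cay c) (cay d)).Nonempty ↔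
      (a < c ∧ c < b ∧ b < d) ∨ (c < a ∧ a < d ∧ d < b) := by
  have pa : 0 < 1 + a ^ 2 := by positivity
  have pb : 0 < 1 + b ^ 2 := by positivity
  have pc : 0 < 1 + c ^ 2 := by positivity
  have pd : 0 < 1 + d ^ 2 := by positivity
  have pos : ∀ x, x < a ∨ b < x → 0 < side (cay a) (cay b) (cay x) := by
    intro x hx
    have px : 0 < 1 + x ^ 2 := by positivity
    rw [side_cay]
    apply div_pos _ (by positivity)
    apply mul_pos (by norm_num)
    rcases hx with hx | hx
    · rw [mul_assoc]
      exact mul_pos (by linarith) (mul_pos_of_neg_of_neg (by linarith) (by linarith))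
    · exact mul_pos (mul_pos (by linarith) (by linarith)) (by linarith)
  have neg : ∀ x, a < x → x < b → side (cay a) (cay b) (cay x) < 0 := by
    intro x hx hx'
    have px : 0 < 1 + x ^ 2 := by positivity
    rw [side_cay]
    apply div_neg_of_neg_of_pos _ (by positivity)
    have : (b - a) * (x - a) * (x - b) < 0 :=
      mul_neg_of_pos_of_neg (mul_pos (by linarith) (by linarith)) (by linarith)
    linarith
  have pos' : ∀ x, x < c ∨ d < x → 0 < side (cay c) (cay d) (cay x) := by
    intro x hx
    have px : 0 < 1 + x ^ 2 := by positivity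
    rw [side_cay]
    apply div_pos _ (by positivity)
    apply mul_pos (by norm_num)
    rcases hx with hx | hx
    · rw [mul_assoc]
      exact mul_pos (by linarith) (mul_pos_of_neg_of_neg (by linarith) (by linarith))
    · exact mul_pos (mul_pos (by linarith) (by linarith)) (by linarith)
  have neg' : ∀ x, c < x → x < d → side (cay c) (cay d) (cay x) < 0 := by
    intro x hx hx'
    have px : 0 < 1 + x ^ 2 := by positivity
    rw [side_cay]
    apply div_neg_of_neg_of_pos _ (by positivity)
    have : (d - c) * (x - c) * (x - d) < 0 :=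
      mul_neg_of_pos_of_neg (mul_pos (by linarith) (by linarith)) (by linarith)
    linarith
  constructor
  · rintro ⟨X, hX1, hX2⟩
    by_contra hc
    rw [not_or] at hc
    have h0 := side_self hX1
    obtain ⟨u, v, hu, hv, huv, h5⟩ := side_seg (A := cay a) (B := cay b) hX2
    rw [h0] at h5
    have split : (0 < side (cay a) (cay b) (cay c) ∧ 0 < side (cay a) (cay b) (cay d)) ∨
        (side (cay a) (cay b) (cay c) < 0 ∧ side (cay a) (cay b) (cay d) < 0) := by
      rcases lt_or_gt_of_ne h1 with k1 | k1
      · rcases lt_or_gt_of_ne h3 with k3 | k3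
        · left
          exact ⟨pos c (Or.inr k3), pos d (Or.inr (by linarith))⟩
        · rcases lt_or_gt_of_ne h4 with k4 | k4
          · exact absurd ⟨k1, k3, k4⟩ hc.1
          · right
            exact ⟨neg c k1 k3, neg d (by linarith) k4⟩
      · rcases lt_or_gt_of_ne h2 with k2 | k2
        · rcases lt_or_gt_of_ne h4 with k4 | k4
          · left
            exact ⟨pos c (Or.inl k1), pos d (Or.inr k4)⟩
          · exact absurd ⟨k1, k2, k4⟩ hc.2
        · left
          exact ⟨pos c (Or.inl k1), pos d (Or.inl k2)⟩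
    rcases split with ⟨k1, k2⟩ | ⟨k1, k2⟩
    · rcases eq_or_lt_of_le hu with k3 | k3
      · rw [← k3] at h5 huv
        nlinarith
      · nlinarith [mul_pos k3 k1, mul_nonneg hv k2.le]
    · rcases eq_or_lt_of_le hu with k3 | k3
      · rw [← k3] at h5 huv
        nlinarith
      · nlinarith [mul_pos k3 (neg_pos.2 k1), mul_nonneg hv (neg_pos.2 k2).le]
  · rintro (⟨k1, k2, k3⟩ | ⟨k1, k2, k3⟩)
    · apply inter_of_sides
      · exact mul_neg_of_neg_of_pos (neg c k1 k2) (pos d (Or.inr k3))
      · exact mul_neg_of_pos_of_neg (pos' a (Or.inl k1)) (neg' b k2 k3)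
    · apply inter_of_sides
      · exact mul_neg_of_pos_of_neg (pos c (Or.inl k1)) (neg d k2 k3)
      · exact mul_neg_of_neg_of_pos (neg' a k1 k2) (pos' b (Or.inr k3))

end CGr
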