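import Pool.Agent.Work.MP_954b6f_co_helper49.Grow3

/-!
# The growing construction: no 4-cycles
-/

set_option autoImplicit false
set_option linter.unusedSectionVars false
set_option linter.unusedVariables false

open Finset

namespace CGr

namespace Gr

variable {C : Finset (ℤ × ℤ)} {κ : ℤ → Bool}

def adj (c d : ℤ × ℤ) : Prop := crs c d ∨ crs d c

lemma adj_symm {c d : ℤ × ℤ} (h : adj c d) : adj d c := Or.symm h

lemma N3 (h : Good C κ) {g d : ℤ × ℤ} (hg : g ∈ G C) (k : κ g.1 = κ g.2) (hd : d ∈ nxt C κ)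
    (hcd : adj (7 * g.1 + 1, 7 * g.2 - 1) d) :
    d = (7 * g.1 - 2, 7 * g.1 + 2) ∨ d = (7 * g.2 - 2, 7 * g.2 + 2) := by
  rcases hcd with hcd | hcd
  · rcases crs_cases h (n3 hg k) hd hcd with ⟨a, ha, b, hb, h1, h2, h3⟩ | ⟨a, ha, h2, h3⟩ |
      ⟨a, ha, h2, h3⟩ | ⟨g', hg', k, h2, h3⟩ | ⟨g', hg', k, h2, h3⟩ | ⟨g', hg', k, h2, h3⟩ |
      ⟨g', hg', k, h2, h3⟩ | ⟨g', hg', k, h2, h3⟩ <;> rw [Prod.mk.injEq] at h2 <;>
      first
      | omega
      | (right; rw [h3]; apply pe <;> simp only <;> omega)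
  · rcases crs_cases h hd (n3 hg k) hcd with ⟨a, ha, b, hb, h1, h2, h3⟩ | ⟨a, ha, h2, h3⟩ |
      ⟨a, ha, h2, h3⟩ | ⟨g', hg', k, h2, h3⟩ | ⟨g', hg', k, h2, h3⟩ | ⟨g', hg', k, h2, h3⟩ |
      ⟨g', hg', k, h2, h3⟩ | ⟨g', hg', k, h2, h3⟩ <;> rw [Prod.mk.injEq] at h3 <;>
      first
      | omega
      | (left; rw [h2]; apply pe <;> simp only <;> omega)

lemma N4 (h : Good C κ) {g d : ℤ × ℤ} (hg : g ∈ G C) (k : κ g.1 ≠ κ g.2) (hd : d ∈ nxt C κ)
    (hcd : adj (7 * g.1 + 1, 7 * g.1 + 4) d) :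
    d = (7 * g.1 - 2, 7 * g.1 + 2) ∨ d = (7 * g.1 + 3, 7 * g.2 - 1) := by
  rcases hcd with hcd | hcd
  · rcases crs_cases h (n4 hg k) hd hcd with ⟨a, ha, b, hb, h1, h2, h3⟩ | ⟨a, ha, h2, h3⟩ |
      ⟨a, ha, h2, h3⟩ | ⟨g', hg', k, h2, h3⟩ | ⟨g', hg', k, h2, h3⟩ | ⟨g', hg', k, h2, h3⟩ |
      ⟨g', hg', k, h2, h3⟩ | ⟨g', hg', k, h2, h3⟩ <;> rw [Prod.mk.injEq] at h2 <;>
      first
      | omega
      | (right; rw [h3, gap_unique hg hg' (by omega)])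
  · rcases crs_cases h hd (n4 hg k) hcd with ⟨a, ha, b, hb, h1, h2, h3⟩ | ⟨a, ha, h2, h3⟩ |
      ⟨a, ha, h2, h3⟩ | ⟨g', hg', k, h2, h3⟩ | ⟨g', hg', k, h2, h3⟩ | ⟨g', hg', k, h2, h3⟩ |
      ⟨g', hg', k, h2, h3⟩ | ⟨g', hg', k, h2, h3⟩ <;> rw [Prod.mk.injEq] at h3 <;>
      first
      | omega
      | (left; rw [h2]; apply pe <;> simp only <;> omega)

lemma N5 (h : Good C κ) {g d : ℤ × ℤ} (hg : g ∈ G C) (k : κ g.1 ≠ κ g.2) (hd : d ∈ nxt C κ)
    (hcd : adj (7 * g.1 + 3, 7 * g.2 - 1) d) :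
    d = (7 * g.1 + 1, 7 * g.1 + 4) ∨ d = (7 * g.2 - 2, 7 * g.2 + 2) := by
  rcases hcd with hcd | hcd
  · rcases crs_cases h (n5 hg k) hd hcd with ⟨a, ha, b, hb, h1, h2, h3⟩ | ⟨a, ha, h2, h3⟩ |
      ⟨a, ha, h2, h3⟩ | ⟨g', hg', k, h2, h3⟩ | ⟨g', hg', k, h2, h3⟩ | ⟨g', hg', k, h2, h3⟩ |
      ⟨g', hg', k, h2, h3⟩ | ⟨g', hg', k, h2, h3⟩ <;> rw [Prod.mk.injEq] at h2 <;>
      first
      | omega
      | (right; rw [h3]; apply pe <;> simp only <;> omega)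
  · rcases crs_cases h hd (n5 hg k) hcd with ⟨a, ha, b, hb, h1, h2, h3⟩ | ⟨a, ha, h2, h3⟩ |
      ⟨a, ha, h2, h3⟩ | ⟨g', hg', k, h2, h3⟩ | ⟨g', hg', k, h2, h3⟩ | ⟨g', hg', k, h2, h3⟩ |
      ⟨g', hg', k, h2, h3⟩ | ⟨g', hg', k, h2, h3⟩ <;> rw [Prod.mk.injEq] at h3 <;>
      first
      | omega
      | (left; rw [h2]; apply pe <;> simp only <;> omega)

/-- common neighbours of the short chords over two consecutive ends -/
lemma XX (h : Good C κ) {g e : ℤ × ℤ} (hg : g ∈ G C) (he : e ∈ nxt C κ)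
    (h1 : adj e (7 * g.1 - 2, 7 * g.1 + 2)) (h2 : adj e (7 * g.2 - 2, 7 * g.2 + 2)) :
    e = (7 * g.1 + 1, 7 * g.2 - 1) := by
  have hG := mem_G.1 hg
  rw [mem_nxt] at he
  unfold adj crs at h1 h2
  rcases he with ⟨b, hb, he⟩ | ⟨b, hb, he⟩ | ⟨b, hb, l, he⟩ | ⟨b, hb, l, he⟩ | ⟨b, hb, l, he⟩ <;>
    subst he <;> simp only at h1 h2
  · exfalso
    obtain ⟨z, hz, hz1, hz2⟩ := h.inner b hb
    have := hG.2.2.2 z hz
    have := h.lt b hb
    omega
  · exfalso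
    omega
  · have h3 := hG.2.2.2 b.1 (mem_G.1 hb).1
    have h4 := hG.2.2.2 b.2 (mem_G.1 hb).2.1
    have h5 := (mem_G.1 hb).2.2.1
    apply pe <;> simp only <;> omega
  · exfalso
    omega
  · exfalso
    omega

lemma noX {g : ℤ × ℤ} (hg : g ∈ G C) :
    ¬ adj (7 * g.1 - 2, 7 * g.1 + 2) (7 * g.2 - 2, 7 * g.2 + 2) := by
  have hG := (mem_G.1 hg).2.2.1
  unfold adj crs
  simp only
  omega

/-- no 4-cycle contains a connecting chord -/
lemma noQ (h : Good C κ) {c c' d d' g : ℤ × ℤ} (hg : g ∈ G C)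
    (hc : (κ g.1 = κ g.2 ∧ c = (7 * g.1 + 1, 7 * g.2 - 1)) ∨
      (κ g.1 ≠ κ g.2 ∧ c = (7 * g.1 + 1, 7 * g.1 + 4)) ∨
      (κ g.1 ≠ κ g.2 ∧ c = (7 * g.1 + 3, 7 * g.2 - 1)))
    (hc' : c' ∈ nxt C κ) (hd : d ∈ nxt C κ) (hd' : d' ∈ nxt C κ) (hcc : c ≠ c') (hdd : d ≠ d')
    (h1 : adj c d) (h2 : adj c d') (h3 : adj c' d) (h4 : adj c' d') : False := by
  rcases hc with ⟨k, hc⟩ | ⟨k, hc⟩ | ⟨k, hc⟩
  · subst hc
    have h5 := N3 h hg k hd h1
    have h6 := N3 h hg k hd' h2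
    apply hcc
    rcases h5 with h5 | h5 <;> rcases h6 with h6 | h6
    · exact absurd (h5.trans h6.symm) hdd
    · rw [h5] at h3
      rw [h6] at h4
      exact (XX h hg hc' h3 h4).symm
    · rw [h5] at h3
      rw [h6] at h4
      exact (XX h hg hc' h4 h3).symm
    · exact absurd (h5.trans h6.symm) hdd
  · subst hc
    have h5 := N4 h hg k hd h1
    have h6 := N4 h hg k hd' h2
    have key : adj c' (7 * g.1 - 2, 7 * g.1 + 2) ∧ adj c' (7 * g.1 + 3, 7 * g.2 - 1) := by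
      rcases h5 with h5 | h5 <;> rcases h6 with h6 | h6
      · exact absurd (h5.trans h6.symm) hdd
      · rw [h5] at h3
        rw [h6] at h4
        exact ⟨h3, h4⟩
      · rw [h5] at h3
        rw [h6] at h4
        exact ⟨h4, h3⟩
      · exact absurd (h5.trans h6.symm) hdd
    rcases N5 h hg k hc' (adj_symm key.2) with h7 | h7
    · exact hcc h7.symm
    · rw [h7] at key
      exact noX hg (adj_symm key.1)
  · subst hc
    have h5 := N5 h hg k hd h1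
    have h6 := N5 h hg k hd' h2
    have key : adj c' (7 * g.1 + 1, 7 * g.1 + 4) ∧ adj c' (7 * g.2 - 2, 7 * g.2 + 2) := by
      rcases h5 with h5 | h5 <;> rcases h6 with h6 | h6
      · exact absurd (h5.trans h6.symm) hdd
      · rw [h5] at h3
        rw [h6] at h4
        exact ⟨h3, h4⟩
      · rw [h5] at h3
        rw [h6] at h4
        exact ⟨h4, h3⟩
      · exact absurd (h5.trans h6.symm) hdd
    rcases N4 h hg k hc' (adj_symm key.1) with h7 | h7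
    · rw [h7] at key
      exact noX hg key.2
    · exact hcc h7.symm

/-- old chords and short chords -/
def P12 (C : Finset (ℤ × ℤ)) (c : ℤ × ℤ) : Prop :=
  (∃ a ∈ C, c = (7 * a.1, 7 * a.2)) ∨ (∃ x ∈ E C, c = (7 * x - 2, 7 * x + 2))

lemma split_nxt {c : ℤ × ℤ} (hc : c ∈ nxt C κ) : P12 C c ∨
    ∃ g ∈ G C, (κ g.1 = κ g.2 ∧ c = (7 * g.1 + 1, 7 * g.2 - 1)) ∨
      (κ g.1 ≠ κ g.2 ∧ c = (7 * g.1 + 1, 7 * g.1 + 4)) ∨
      (κ g.1 ≠ κ g.2 ∧ c = (7 * g.1 + 3, 7 * g.2 - 1)) := by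
  rw [mem_nxt] at hc
  rcases hc with hc | hc | ⟨g, hg, k, hc⟩ | ⟨g, hg, k, hc⟩ | ⟨g, hg, k, hc⟩
  · exact Or.inl (Or.inl hc)
  · exact Or.inl (Or.inr hc)
  · exact Or.inr ⟨g, hg, Or.inl ⟨k, hc⟩⟩
  · exact Or.inr ⟨g, hg, Or.inr (Or.inl ⟨k, hc⟩)⟩
  · exact Or.inr ⟨g, hg, Or.inr (Or.inr ⟨k, hc⟩)⟩

/-- a short chord has one neighbour among the old and the short chords -/
lemma NX (h : Good C κ) {x : ℤ} {d d' : ℤ × ℤ} (hd : P12 C d) (hd' : P12 C d')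
    (h1 : adj (7 * x - 2, 7 * x + 2) d) (h2 : adj (7 * x - 2, 7 * x + 2) d') : d = d' := by
  unfold adj crs at h1 h2
  rcases hd with ⟨a, ha, hd⟩ | ⟨y, hy, hd⟩
  · rcases hd' with ⟨b, hb, hd'⟩ | ⟨y, hy, hd'⟩
    · subst hd hd'
      simp only at h1 h2
      have : a = b := by
        by_contra hne
        have := h.dist a ha b hb hne
        omega
      rw [this]
    · subst hd'
      simp only at h2
      omega
  · subst hd
    simp only at h1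
    omega

lemma c4_nxt (h : Good C κ) : ∀ c ∈ nxt C κ, ∀ c' ∈ nxt C κ, ∀ d ∈ nxt C κ, ∀ d' ∈ nxt C κ,
    c ≠ c' → d ≠ d' → (crs c d ∨ crs d c) → (crs c d' ∨ crs d' c) → (crs c' d ∨ crs d c') →
    (crs c' d' ∨ crs d' c') → False := by
  intro c hc c' hc' d hd d' hd' hcc hdd h1 h2 h3 h4
  change adj c d at h1
  change adj c d' at h2
  change adj c' d at h3
  change adj c' d' at h4
  rcases split_nxt hc with pc | ⟨g, hg, k⟩
  swap
  · exact noQ h hg k hc' hd hd' hcc hdd h1 h2 h3 h4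
  rcases split_nxt hc' with pc' | ⟨g, hg, k⟩
  swap
  · exact noQ h hg k hc hd hd' hcc.symm hdd h3 h4 h1 h2
  rcases split_nxt hd with pd | ⟨g, hg, k⟩
  swap
  · exact noQ h hg k hd' hc hc' hdd hcc (adj_symm h1) (adj_symm h3) (adj_symm h2) (adj_symm h4)
  rcases split_nxt hd' with pd' | ⟨g, hg, k⟩
  swap
  · exact noQ h hg k hd hc hc' hdd.symm hcc (adj_symm h2) (adj_symm h4) (adj_symm h1)
      (adj_symm h3)
  have qc := pc
  have qc' := pc'
  have qd := pd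
  have qd' := pd'
  rcases pc with ⟨a, ha, rfl⟩ | ⟨x, hx, rfl⟩
  swap
  · exact hdd (NX h qd qd' h1 h2)
  rcases pc' with ⟨a', ha', rfl⟩ | ⟨x, hx, rfl⟩
  swap
  · exact hdd (NX h qd qd' h3 h4)
  rcases pd with ⟨b, hb, rfl⟩ | ⟨x, hx, rfl⟩
  swap
  · exact hcc (NX h qc qc' (adj_symm h1) (adj_symm h3))
  rcases pd' with ⟨b', hb', rfl⟩ | ⟨x, hx, rfl⟩
  swap
  · exact hcc (NX h qc qc' (adj_symm h2) (adj_symm h4))
  unfold adj crs at h1 h2 h3 h4
  simp only at h1 h2 h3 h4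
  refine h.c4 a ha a' ha' b hb b' hb' ?_ ?_ ?_ ?_ ?_ ?_
  · rintro rfl
    exact hcc rfl
  · rintro rfl
    exact hdd rfl
  all_goals
    unfold crs
    omega

theorem good_nxt (h : Good C κ) : Good (nxt C κ) (ncol κ) where
  lt := lt_nxt h
  dist := dist_nxt h
  col := col_nxt h
  nc := ncr_nxt h
  c4 := c4_nxt h
  inner := inner_nxt h

/-! ### the base diagram -/

def C0 : Finset (ℤ × ℤ) := {(0, 2), (1, 3)}

def κ0 (z : ℤ) : Bool := decide (z % 2 = 0)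

lemma good0 : Good C0 κ0 where
  lt := by decide
  dist := by decide
  col := by decide
  nc := by decide
  c4 := by
    unfold C0 crs
    decide
  inner := by decide

lemma card_xx0 : (xx C0).card = 1 := by decide

lemma card_GD0 : (GD C0 κ0).card = 3 := by decide

lemma card_C0 : C0.card = 2 := by decide

theorem exists_good (k : ℕ) : ∃ (C : Finset (ℤ × ℤ)) (κ : ℤ → Bool), Good C κ ∧
    4 ^ k ≤ C.card ∧
    Real.sqrt 2 * C.card ≤ (xx C).card + 2 * (k + 1) ∧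
    ((GD C κ).card : ℝ) ≤ 2 + (2 * Real.sqrt 2 - 2) * C.card := by
  have s1 : Real.sqrt 2 * Real.sqrt 2 = 2 := Real.mul_self_sqrt (by norm_num)
  have s2 : Real.sqrt 2 < 1.4143 := by
    rw [Real.sqrt_lt' (by norm_num)]
    norm_num
  have s3 : 1.4142 < Real.sqrt 2 := by
    rw [Real.lt_sqrt (by norm_num)]
    norm_num
  induction k with
  | zero =>
    refine ⟨C0, κ0, good0, ?_, ?_, ?_⟩
    · rw [card_C0]
      norm_num
    · rw [card_xx0, card_C0]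
      push_cast
      linarith
    · rw [card_GD0, card_C0]
      push_cast
      linarith
  | succ k ih =>
    obtain ⟨C, κ, hg, h1, h2, h3⟩ := ih
    have hpos : 1 ≤ C.card := le_trans (Nat.one_le_pow _ _ (by norm_num)) h1
    have hne : C.Nonempty := card_pos.1 hpos
    have e1 := card_nxt hg hne
    have e2 := card_xx hg hne
    have e3 := card_GD_nxt hg
    refine ⟨nxt C κ, ncol κ, good_nxt hg, ?_, ?_, ?_⟩
    · rw [pow_succ]
      omega
    · have e1' : ((nxt C κ).card : ℝ) + 1 = 5 * C.card + (GD C κ).card := by exact_mod_cast e1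
      have e2' : ((xx C).card : ℝ) + 6 * C.card + (GD C κ).card ≤ (xx (nxt C κ)).card + 2 := by
        exact_mod_cast e2
      have e4 : ((nxt C κ).card : ℝ) = 5 * C.card + (GD C κ).card - 1 := by linarith
      rw [e4]
      push_cast
      nlinarith
    · have e1' : ((nxt C κ).card : ℝ) + 1 = 5 * C.card + (GD C κ).card := by exact_mod_cast e1
      have e3' : ((GD (nxt C κ) (ncol κ)).card : ℝ) ≤ 4 * C.card + (GD C κ).card := by
        exact_mod_cast e3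
      have e4 : ((nxt C κ).card : ℝ) = 5 * C.card + (GD C κ).card - 1 := by linarith
      rw [e4]
      nlinarith

end Gr

end CGr
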