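import Pool.Agent.Work.MP_954b6f_co_helper49.Overlap
import Pool.Agent.Work.MP_954b6f_co_helper49.Grow4

/-!
# From diagrams to graphs: the lower bound
-/

set_option autoImplicit false
set_option linter.unusedSectionVars false

open Finset

namespace CGr

open CircleKst

/-- transfer to `Fin n` -/
lemma mem_avg {V : Type} [Fintype V] [Nonempty V] {G : SimpleGraph V} {s t : ℕ}
    (hG : InClass s t G) :
    2 * (G.edgeSet.ncard : ℝ) / (Fintype.card V : ℝ) ∈ avgDegrees s t := by
  let e := Fintype.equivFin V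
  let H : SimpleGraph (Fin (Fintype.card V)) := G.comap e.symm
  let φ : H ≃g G := ⟨e.symm, by intro a b; rfl⟩
  refine ⟨Fintype.card V, H, Fintype.card_pos, ⟨?_, ?_, ?_⟩, ?_⟩
  · obtain ⟨a, b, h1, h2, h3⟩ := overlap_of_circle hG.1
    apply circle_of_overlap
    refine ⟨a ∘ e.symm, b ∘ e.symm, ?_, fun v => h2 _, fun u v => h3 _ _⟩
    have : Sum.elim (a ∘ e.symm) (b ∘ e.symm) = Sum.elim a b ∘ Sum.map e.symm e.symm := by
      ext x
      rcases x with x | x <;> rfl
    rw [this]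
    exact h1.comp (Sum.map_injective.2 ⟨e.symm.injective, e.symm.injective⟩)
  · exact hG.2.1.of_hom φ.toHom
  · intro h
    apply hG.2.2
    exact h.trans ⟨φ.toCopy⟩
  · have : H.edgeSet.ncard = G.edgeSet.ncard := by
      rw [Set.ncard_def, Set.ncard_def]
      exact congrArg _ (Set.encard_congr φ.mapEdgeSet)
    rw [this]

section blow

variable {C : Finset (ℤ × ℤ)} {κ : ℤ → Bool} (σ : ℕ)

/-- the vertices of the blow-up -/
abbrev VV (C : Finset (ℤ × ℤ)) (σ : ℕ) := {c // c ∈ C} × Fin σ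

def pa (v : VV C σ) : ℤ := σ * v.1.1.1 + v.2.1
def pb (v : VV C σ) : ℤ := σ * v.1.1.2 + (σ - 1 - v.2.1)

variable {σ}

lemma key_lt {x y i j : ℤ} (h : x < y) (hi : i < σ) (hj : 0 ≤ j) :
    (σ : ℤ) * x + i < σ * y + j := by
  have : (0 : ℤ) ≤ σ := by positivity
  nlinarith

/-- alternation for different chords -/
lemma alt_iff (h : Gr.Good C κ) (u v : VV C σ) :
    (pa σ u < pa σ v ∧ pa σ v < pb σ u ∧ pb σ u < pb σ v) ↔ Gr.crs u.1.1 v.1.1 := by
  obtain ⟨⟨c, hc⟩, ⟨i, hi⟩⟩ := u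
  obtain ⟨⟨d, hd⟩, ⟨j, hj⟩⟩ := v
  unfold pa pb Gr.crs
  simp only
  by_cases hcd : c = d
  · subst hcd
    omega
  · have h1 := h.dist c hc d hd hcd
    have hi' : (i : ℤ) < σ := by exact_mod_cast hi
    have hj' : (j : ℤ) < σ := by exact_mod_cast hj
    constructor
    · rintro ⟨h2, h3, h4⟩
      refine ⟨?_, ?_, ?_⟩
      · by_contra hc
        have := key_lt (σ := σ) (x := d.1) (y := c.1) (i := j) (j := i) (by omega) hj' (by omega)
        omega
      · by_contra hc
        have := key_lt (σ := σ) (x := c.2) (y := d.1) (i := σ - 1 - i) (j := j) (by omega)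
          (by omega) (by omega)
        omega
      · by_contra hc
        have := key_lt (σ := σ) (x := d.2) (y := c.2) (i := σ - 1 - j) (j := σ - 1 - i) (by omega)
          (by omega) (by omega)
        omega
    · rintro ⟨h2, h3, h4⟩
      exact ⟨key_lt h2 hi' (by omega), key_lt h3 hj' (by omega), key_lt h4 (by omega) (by omega)⟩

/-- the blow-up -/
def bg (C : Finset (ℤ × ℤ)) (σ : ℕ) : SimpleGraph (VV C σ) where
  Adj u v := Gr.adj u.1.1 v.1.1
  symm := ⟨fun _ _ h => Gr.adj_symm h⟩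
  loopless := ⟨fun u h => by
    unfold Gr.adj Gr.crs at h
    omega⟩

lemma bg_adj {u v : VV C σ} : (bg C σ).Adj u v ↔ Gr.adj u.1.1 v.1.1 := Iff.rfl

lemma bg_circle (h : Gr.Good C κ) : IsCircleGraph (bg C σ) := by
  apply circle_of_overlap
  refine ⟨fun v => (pa σ v : ℝ), fun v => (pb σ v : ℝ), ?_, ?_, ?_⟩
  · have key : ∀ x y i j : ℤ, 0 ≤ i → i < σ → 0 ≤ j → j < σ → (σ : ℤ) * x + i = σ * y + j →
        x = y ∧ i = j := by
      intro x y i j hi0 hi hj0 hj hxy
      rcases lt_trichotomy x y with h1 | h1 | h1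
      · have := key_lt h1 hi hj0
        omega
      · subst h1
        exact ⟨rfl, by omega⟩
      · have := key_lt h1 hj hi0
        omega
    rintro (⟨⟨c, hc⟩, ⟨i, hi⟩⟩ | ⟨⟨c, hc⟩, ⟨i, hi⟩⟩) (⟨⟨d, hd⟩, ⟨j, hj⟩⟩ | ⟨⟨d, hd⟩, ⟨j, hj⟩⟩) hcd
    all_goals
      simp only [Sum.elim_inl, Sum.elim_inr, Int.cast_inj, pa, pb] at hcd
      have hi' : (i : ℤ) < σ := by exact_mod_cast hi
      have hj' : (j : ℤ) < σ := by exact_mod_cast hj
      have h2 := key _ _ _ _ (by omega) (by omega) (by omega) (by omega) hcd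
      by_cases hne : c = d
    · subst hne
      have : i = j := by omega
      subst this
      rfl
    · exact absurd h2.1 (h.dist c hc d hd hne).1
    · subst hne
      have := h.lt c hc
      omega
    · exact absurd h2.1 (h.dist c hc d hd hne).2.1
    · subst hne
      have := h.lt c hc
      omega
    · exact absurd h2.1 (h.dist c hc d hd hne).2.2.1
    · subst hne
      have : i = j := by omega
      subst this
      rfl
    · exact absurd h2.1 (h.dist c hc d hd hne).2.2.2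
  · intro v
    have h1 := h.lt _ v.1.2
    have h2 := v.2.2
    have h2' : (v.2.1 : ℤ) < σ := by exact_mod_cast h2
    have h3 : pa σ v < pb σ v := key_lt h1 h2' (by omega)
    change (pa σ v : ℝ) < (pb σ v : ℝ)
    exact_mod_cast h3
  · intro u v
    rw [bg_adj, Gr.adj, ← alt_iff h, ← alt_iff h]
    simp only [Int.cast_lt]

lemma bg_colorable (h : Gr.Good C κ) : (bg C σ).Colorable 2 := by
  have c : (bg C σ).Coloring Bool := SimpleGraph.Coloring.mk (fun v => κ v.1.1.1) (by
    intro u v huv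
    rcases huv with huv | huv
    · exact h.nc _ u.1.2 _ v.1.2 huv
    · exact (h.nc _ v.1.2 _ u.1.2 huv).symm)
  have := c.colorable
  simpa using this

lemma two_chords {m : ℕ} (hm : σ < m) {f : Fin m → VV C σ} (hf : Function.Injective f) :
    ∃ i j, (f i).1.1 ≠ (f j).1.1 := by
  by_contra hc
  push Not at hc
  have h1 : Function.Injective (fun i => (f i).2) := by
    intro i j hij
    apply hf
    exact Prod.ext (Subtype.ext (hc i j)) hij
  have := Fintype.card_le_of_injective _ h1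
  simp only [Fintype.card_fin] at this
  omega

lemma bg_free (h : Gr.Good C κ) {s t : ℕ} (hs : σ < s) (hst : s ≤ t) :
    (completeBipartiteGraph (Fin s) (Fin t)).Free (bg C σ) := by
  rintro ⟨⟨f, hf⟩⟩
  have h1 : Function.Injective (fun i : Fin s => f (Sum.inl i)) := fun i j hij =>
    Sum.inl_injective (hf hij)
  have h2 : Function.Injective (fun i : Fin t => f (Sum.inr i)) := fun i j hij =>
    Sum.inr_injective (hf hij)
  obtain ⟨i, i', hi⟩ := two_chords hs h1
  obtain ⟨j, j', hj⟩ := two_chords (hs.trans_le hst) h2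
  have key : ∀ i j, Gr.adj (f (Sum.inl i)).1.1 (f (Sum.inr j)).1.1 := by
    intro i j
    rw [← bg_adj]
    apply f.map_rel
    simp [completeBipartiteGraph]
  exact h.c4 _ (f (Sum.inl i)).1.2 _ (f (Sum.inl i')).1.2 _ (f (Sum.inr j)).1.2 _
    (f (Sum.inr j')).1.2 hi hj (key _ _) (key _ _) (key _ _) (key _ _)

lemma bg_edges : (Gr.xx C).card * (σ * σ) ≤ (bg C σ).edgeSet.ncard := by
  classical
  have hfin : (bg C σ).edgeSet.Finite := Set.toFinite _
  have hmem : ∀ p : {p // p ∈ Gr.xx C} × (Fin σ × Fin σ),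
      s((⟨p.1.1.1, (Gr.mem_xx.1 p.1.2).1⟩, p.2.1), (⟨p.1.1.2, (Gr.mem_xx.1 p.1.2).2.1⟩, p.2.2)) ∈
        (bg C σ).edgeSet := by
    intro p
    rw [SimpleGraph.mem_edgeSet, bg_adj]
    exact Or.inl (Gr.mem_xx.1 p.1.2).2.2
  let f : {p // p ∈ Gr.xx C} × (Fin σ × Fin σ) → (bg C σ).edgeSet := fun p => ⟨_, hmem p⟩
  have hinj : Function.Injective f := by
    intro p q hpq
    have h1 := congrArg Subtype.val hpq
    simp only [f, Sym2.eq_iff, Prod.mk.injEq, Subtype.mk.injEq] at h1
    rcases h1 with ⟨⟨h2, h3⟩, h4, h5⟩ | ⟨⟨h2, h3⟩, h4, h5⟩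
    · exact Prod.ext (Subtype.ext (Prod.ext h2 h4)) (Prod.ext h3 h5)
    · exfalso
      have h6 := (Gr.mem_xx.1 p.1.2).2.2
      have h7 := (Gr.mem_xx.1 q.1.2).2.2
      rw [h2, h4] at h6
      unfold Gr.crs at h6 h7
      omega
  have h2 := Nat.card_le_card_of_injective f hinj
  rw [Nat.card_eq_fintype_card, Fintype.card_prod, Fintype.card_prod, Fintype.card_coe,
    Fintype.card_fin] at h2
  exact h2

end blow

/-- lower bound -/
theorem lower_bound {s t : ℕ} (hs : 1 ≤ s) (hst : s ≤ t) {u : ℝ}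
    (hu : u ∈ upperBounds (avgDegrees s t)) : 2 * Real.sqrt 2 * (s - 1) ≤ u := by
  rcases Nat.eq_or_lt_of_le hs with h1 | h1
  · -- `s = 1`
    subst h1
    have h2 : InClass 1 t (⊥ : SimpleGraph (Fin 1)) := by
      refine ⟨circle_of_overlap ⟨fun _ => 0, fun _ => 1, ?_, fun _ => by norm_num, ?_⟩, ?_, ?_⟩
      · rintro (i | i) (j | j) h
        · rw [Subsingleton.elim i j]
        · simp at h
        · simp at h
        · rw [Subsingleton.elim i j]
      · intro i j
        simp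
      · exact ⟨SimpleGraph.Coloring.mk (fun _ => 0) (by simp)⟩
      · rintro ⟨⟨f, hf⟩⟩
        have h3 : (Sum.inl 0 : Fin 1 ⊕ Fin t) = Sum.inr ⟨0, hst⟩ := hf (Subsingleton.elim _ _)
        exact Sum.inl_ne_inr h3
    have h3 : (2 * ((⊥ : SimpleGraph (Fin 1)).edgeSet.ncard : ℝ) / ((1 : ℕ) : ℝ)) ≤ u :=
      hu ⟨1, _, Nat.one_pos, h2, rfl⟩
    simp only [SimpleGraph.edgeSet_bot, Set.ncard_empty] at h3
    norm_num at h3 ⊢
    exact h3
  · -- `2 ≤ s`
    obtain ⟨σ, rfl⟩ : ∃ σ, s = σ + 1 := ⟨s - 1, by omega⟩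
    have hσ : 0 < σ := by omega
    have hσ' : (0 : ℝ) < σ := by exact_mod_cast hσ
    have key : ∀ k : ℕ, 2 * Real.sqrt 2 * σ - 4 * σ * (1 / 2) ^ k ≤ u := by
      intro k
      obtain ⟨C, κ, hg, h2, h3, _⟩ := Gr.exists_good k
      have hpos : 0 < C.card := lt_of_lt_of_le (by positivity) h2
      have hpos' : (0 : ℝ) < C.card := by exact_mod_cast hpos
      have : Nonempty {c // c ∈ C} := by
        obtain ⟨c, hc⟩ := card_pos.1 hpos
        exact ⟨⟨c, hc⟩⟩
      have : Nonempty (Fin σ) := ⟨⟨0, hσ⟩⟩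
      have h4 := hu (mem_avg (G := bg C σ) (s := σ + 1) (t := t)
        ⟨bg_circle hg, bg_colorable hg, bg_free hg (Nat.lt_succ_self _) hst⟩)
      refine le_trans ?_ h4
      rw [Fintype.card_prod, Fintype.card_coe, Fintype.card_fin]
      push_cast
      rw [le_div_iff₀ (by positivity)]
      have h5 : ((Gr.xx C).card : ℝ) * (σ * σ) ≤ (bg C σ).edgeSet.ncard := by
        exact_mod_cast bg_edges (C := C) (σ := σ)
      have h6 : ((k : ℝ) + 1) ≤ (1 / 2) ^ k * C.card := by
        have h7 : ((k : ℝ) + 1) ≤ 2 ^ k := by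
          have : k + 1 ≤ 2 ^ k := Nat.lt_two_pow_self
          exact_mod_cast this
        have h8 : (4 : ℝ) ^ k ≤ C.card := by exact_mod_cast h2
        have h9 : ((1 : ℝ) / 2) ^ k * 4 ^ k = 2 ^ k := by
          rw [← mul_pow]
          norm_num
        calc ((k : ℝ) + 1) ≤ 2 ^ k := h7
          _ = (1 / 2) ^ k * 4 ^ k := h9.symm
          _ ≤ _ := mul_le_mul_of_nonneg_left h8 (by positivity)
      have h7 : Real.sqrt 2 * C.card - 2 * ((1 / 2) ^ k * C.card) ≤ (Gr.xx C).card := by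
        linarith
      have h8 : (Real.sqrt 2 * C.card - 2 * ((1 / 2) ^ k * C.card)) * (σ * σ) ≤
          (bg C σ).edgeSet.ncard :=
        le_trans (mul_le_mul_of_nonneg_right h7 (by positivity)) h5
      nlinarith
    push_cast
    rw [add_sub_cancel_right]
    by_contra hc
    rw [not_le] at hc
    obtain ⟨k, hk⟩ := exists_pow_lt_of_lt_one (x := (2 * Real.sqrt 2 * σ - u) / (4 * σ))
      (y := (1 : ℝ) / 2) (div_pos (by linarith) (by positivity)) (by norm_num)
    rw [lt_div_iff₀ (by positivity)] at hk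
    have := key k
    linarith

end CGr
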