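import Pool.Agent.Work.MP_954b6f_co_helper49.Closure

/-!
# The upper bound for diagrams
-/

set_option autoImplicit false
set_option linter.unusedSectionVars false

open Finset

namespace CGr

namespace Diag

variable {R B : Type} (D : Diag R B) [Fintype R] [Fintype B]

/-- near chords are consecutive on a common blue chord -/
lemma NP_adj {s s' t : R} {b : B} (h : D.NP s s') (hs : D.cr s b) (hs' : D.cr s' b)
    (ht : D.cr t b) : ¬ D.swap.bt b s t s' := by
  rw [swap_bt_iff hs ht hs']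
  rintro ⟨h1, h2, h3⟩
  rcases h with h | h
  · have hp := D.par_some.1 h
    rcases h3 with ⟨h3, h4⟩ | ⟨h3, h4⟩
    · rcases hp.2 t h3 with h5 | h5
      · exact h2 h5
      · exact h4 h5
    · apply h3
      have := hp.1
      unfold sub at this
      unfold sb at *
      omega
  · have key : ∀ {s s' : R}, D.par s = D.par s' → D.sub s t → D.sub s' t := by
      intro s s' h hst
      obtain ⟨p, hp⟩ := D.exists_par ⟨t, hst⟩
      have hp' : D.isPar s' p := by
        rw [← D.par_some, ← h, D.par_some]; exact hp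
      rcases hp.2 t hst with h5 | h5
      · rw [h5]; exact hp'.1
      · have := hp'.1
        unfold sub at *
        omega
    rcases h3 with ⟨h3, h4⟩ | ⟨h3, h4⟩
    · exact h4 (key h.1 h3)
    · exact h3 (key h.1.symm h4)

/-- a maximal element of a set of crossings on a blue chord closed under near pairs -/
lemma exists_top {P : ℕ} {r1 : R} {b : B} (h1 : D.cr r1 b) (hG : D.inG P r1 b) :
    ∃ s, (s, b) ∈ D.tops P ∧ (∀ t, D.cr t b → D.swap.bt b r1 t s → D.inG P t b) := by
  classical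
  obtain ⟨s, hs, hmax⟩ := exists_max_image (univ.filter (fun s => D.cr s b ∧ D.inG P s b ∧
    ∀ t, D.cr t b → D.swap.bt b r1 t s → D.inG P t b)) D.rb ⟨r1, by
      rw [mem_filter]
      refine ⟨mem_univ _, h1, hG, ?_⟩
      intro t _ hbt
      unfold bt at hbt
      omega⟩
  rw [mem_filter] at hs
  obtain ⟨_, hs1, hs2, hs3⟩ := hs
  refine ⟨s, ?_, hs3⟩
  rw [mem_tops]
  refine ⟨⟨hs1, hs2⟩, ?_⟩
  show ∀ s', D.NP s s' → D.cr s' b → ¬ D.inG P s' b
  intro s' hNP hs' hG'
  have h4 := hmax s' (by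
    rw [mem_filter]
    refine ⟨mem_univ _, hs', hG', ?_⟩
    intro t ht hbt
    by_cases e : t = s
    · rw [e]; exact hs2
    by_cases e' : t = s'
    · rw [e']; exact hG'
    have hadj := D.NP_adj hNP hs1 hs' ht
    have n1 : D.swap.inn b t ≠ D.swap.inn b s := fun hh =>
      e (D.swap.inn_inj ((D.swap_cr t b).2 ht) ((D.swap_cr s b).2 hs1) hh)
    have n2 : D.swap.inn b t ≠ D.swap.inn b s' := fun hh =>
      e' (D.swap.inn_inj ((D.swap_cr t b).2 ht) ((D.swap_cr s' b).2 hs') hh)
    apply hs3 t ht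
    unfold bt at *
    omega)
  have h5 := D.NP_rb hNP
  omega

/-- the crossings of large rank -/
def Sx (P : ℕ) : Finset (R × B) := D.cells.filter (fun p => P ≤ D.rk p.1 p.2)

lemma mem_Sx {P : ℕ} {p : R × B} : p ∈ D.Sx P ↔ D.cr p.1 p.2 ∧ P ≤ D.rk p.1 p.2 := by
  rw [Sx, mem_filter, mem_cells]

lemma rk_iff {P : ℕ} {r : R} {b : B} : P ≤ D.rk r b ↔ D.inG P r b ∧ D.swap.inG P b r := by
  unfold rk inG; omega

/-- number of crossings on a chord near its ends -/
lemma near_end (P : ℕ) (r : R) : ((D.N r).filter (fun b => ¬ D.inG P r b)).card ≤ 2 * P := by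
  have h1 := D.card_filter_L r (fun k => ¬ (P ≤ k ∧ P ≤ (D.N r).card - 1 - k ∧ k < (D.N r).card))
  have h2 : (D.N r).filter (fun b => ¬ D.inG P r b) = (D.N r).filter (fun b => ¬ (P ≤ D.L r b ∧
      P ≤ (D.N r).card - 1 - D.L r b ∧ D.L r b < (D.N r).card)) := by
    apply filter_congr
    intro b hb
    have := D.L_add (D.mem_N.1 hb)
    unfold inG
    omega
  rw [h2, h1]
  generalize (D.N r).card = n
  have h3 : (range n).filter (fun k => ¬ (P ≤ k ∧ P ≤ n - 1 - k ∧ k < n)) ⊆
      range P ∪ Ico (n - P) n := by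
    intro k hk
    simp only [mem_filter, mem_range, mem_union, mem_Ico] at hk ⊢
    omega
  refine (card_le_card h3).trans ((card_union_le _ _).trans ?_)
  rw [card_range, Nat.card_Ico]
  omega

/-- erosion removes few crossings -/
lemma m_le_Sx (P : ℕ) : D.m ≤ (D.Sx P).card + 2 * P * D.nr + 2 * P * (D.tops P).card := by
  classical
  -- horizontal erosion
  have h1 : D.m ≤ (D.GP P).card + 2 * P * D.nr := by
    have e : 2 * P * D.nr = ∑ r, if (D.N r).Nonempty then 2 * P else 0 := by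
      unfold nr
      rw [← sum_filter, sum_const, smul_eq_mul, mul_comm]
    rw [D.card_GP, e]
    unfold m
    rw [← sum_add_distrib]
    apply sum_le_sum
    intro r _
    split_ifs with h
    · omega
    · rw [not_nonempty_iff_eq_empty] at h
      rw [h]; simp
  -- vertical erosion
  set V := (D.GP P).filter (fun p => ¬ D.swap.inG P p.2 p.1) with hV
  have h2 : (D.GP P).card = (D.Sx P).card + V.card := by
    rw [hV, ← card_filter_add_card_filter_not (s := D.GP P) (fun p => D.swap.inG P p.2 p.1)]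
    congr 2
    ext p
    rw [mem_filter, mem_GP, mem_Sx, rk_iff, and_assoc]
  have h3 : V.card ≤ 2 * P * (V.image Prod.snd).card := by
    apply card_le_mul_card_image
    intro b _
    refine le_trans ?_ (D.swap.near_end P b)
    apply card_le_card_of_injOn (fun p => p.1)
    · intro p hp
      rw [mem_coe, mem_filter, hV, mem_filter, mem_GP] at hp
      rw [mem_coe, mem_filter, mem_N, swap_cr, ← hp.2]
      exact ⟨hp.1.1.1, hp.1.2⟩
    · intro p hp q hq he
      rw [mem_coe, mem_filter] at hp hq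
      exact Prod.ext he (hp.2.trans hq.2.symm)
  have h4 : (V.image Prod.snd).card ≤ (D.tops P).card := by
    have h5 : V.image Prod.snd ⊆ (D.tops P).image Prod.snd := by
      intro b hb
      obtain ⟨p, hp, rfl⟩ := mem_image.1 hb
      rw [hV, mem_filter, mem_GP] at hp
      obtain ⟨s, hs, _⟩ := D.exists_top hp.1.1 hp.1.2
      exact mem_image.2 ⟨(s, p.2), hs, rfl⟩
    exact (card_le_card h5).trans card_image_le
  have h6 := h3.trans (Nat.mul_le_mul_left (2 * P) h4)
  omega

variable {D}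

section pres

variable {P : ℕ} {R' B' : Type} [Fintype R'] [Fintype B'] {D' : Diag R' B'} {φ : R' → R}
  {ψ : B' → B}

lemma pres_m (h : IsPres D (fun r b => D.cr r b ∧ P ≤ D.rk r b) D' φ ψ) :
    D'.m = (D.Sx P).card := by
  rw [← D'.card_cells]
  apply card_bij (fun p _ => (φ p.1, ψ p.2))
  · intro p hp
    rw [mem_cells] at hp
    rw [mem_Sx]
    exact h.sub _ _ hp
  · intro p hp q hq he
    rw [mem_cells] at hp hq
    simp only [Prod.mk.injEq] at he
    obtain ⟨e1, e2⟩ := h.inj _ _ _ _ hp hq he.1 he.2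
    exact Prod.ext e1 e2
  · intro p hp
    rw [mem_Sx] at hp
    obtain ⟨r', b', h1, h2, h3⟩ := h.surj p.1 p.2 hp
    exact ⟨(r', b'), by rw [mem_cells]; exact h1, by rw [h2, h3]⟩

lemma pres_nb (h : IsPres D (fun r b => D.cr r b ∧ P ≤ D.rk r b) D' φ ψ) :
    D'.nb ≤ (D.tops P).card := by
  classical
  unfold nb nr
  apply card_le_card_of_forall_subsingleton (fun b' p => ψ b' = p.2 ∧ ∃ x, D'.cr x b' ∧
    ∀ t, D.cr t (ψ b') → D.swap.bt (ψ b') (φ x) t p.1 → D.inG P t (ψ b'))
  · intro b' hb'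
    rw [mem_filter] at hb'
    obtain ⟨x, hx⟩ := hb'.2
    rw [mem_N, swap_cr] at hx
    have h1 := h.sub x b' hx
    obtain ⟨s, hs, hs'⟩ := D.exists_top h1.1 (D.rk_iff.1 h1.2).1
    exact ⟨(s, ψ b'), hs, rfl, x, hx, hs'⟩
  · intro p hp b1 hb1 b2 hb2
    obtain ⟨_, e1, x1, hx1, H1⟩ := hb1
    obtain ⟨_, e2, x2, hx2, H2⟩ := hb2
    rw [mem_tops] at hp
    rw [h.runB b1 b2 x1 x2 hx1 hx2 (e1.trans e2.symm)]
    intro r hr hbt
    have k1 := h.sub _ _ hx1
    have k2 := h.sub _ _ hx2
    rw [D.rk_iff] at k1 k2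
    rw [e2, ← e1] at k2 H2
    refine ⟨hr, ?_⟩
    rw [D.rk_iff]
    constructor
    · by_cases e : r = p.1
      · rw [e, e1]; exact hp.1.2
      · have n1 : D.swap.inn (ψ b1) r ≠ D.swap.inn (ψ b1) p.1 := fun hh =>
          e (D.swap.inn_inj ((D.swap_cr r _).2 hr) ((D.swap_cr p.1 _).2 (by rw [e1]; exact hp.1.1))
            hh)
        by_cases hb : D.swap.bt (ψ b1) (φ x1) r p.1
        · exact H1 r hr hb
        · apply H2 r hr
          unfold bt at *
          omega
    · have k3 := k1.2.2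
      have k4 := k2.2.2
      unfold inG at *
      unfold bt at hbt
      have l1 : ∀ {u v : R}, D.swap.inn (ψ b1) u ≤ D.swap.inn (ψ b1) v →
          D.swap.L (ψ b1) u ≤ D.swap.L (ψ b1) v := fun h => pre_le_pre h
      have l2 : ∀ {u v : R}, D.swap.inn (ψ b1) u ≤ D.swap.inn (ψ b1) v →
          D.swap.Rt (ψ b1) v ≤ D.swap.Rt (ψ b1) u := fun h => post_le_post h
      rcases hbt with hbt | hbt
      · have := l1 hbt.1.le; have := l2 hbt.2.le; omega
      · have := l1 hbt.1.le; have := l2 hbt.2.le; omega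

lemma pres_free (h : IsPres D (fun r b => D.cr r b ∧ P ≤ D.rk r b) D' φ ψ) {c p : ℕ}
    (hf : D.free c p) : D'.free c p := by
  classical
  intro X Y hXY
  rcases X.eq_empty_or_nonempty with rfl | ⟨x0, hx0⟩
  · left; simp
  rcases Y.eq_empty_or_nonempty with rfl | ⟨y0, hy0⟩
  · right; simp
  have h1 : (X.image φ).card = X.card := by
    apply card_image_of_injOn
    intro x hx y hy e
    exact (h.inj x y0 y y0 (hXY x hx y0 hy0) (hXY y hy y0 hy0) e rfl).1
  have h2 : (Y.image ψ).card = Y.card := by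
    apply card_image_of_injOn
    intro x hx y hy e
    exact (h.inj x0 x x0 y (hXY x0 hx0 x hx) (hXY x0 hx0 y hy) rfl e).2
  rw [← h1, ← h2]
  apply hf
  intro r hr b hb
  obtain ⟨x, hx, rfl⟩ := mem_image.1 hr
  obtain ⟨y, hy, rfl⟩ := mem_image.1 hb
  exact (h.sub x y (hXY x hx y hy)).1

end pres

lemma rk_swap (r : R) (b : B) : D.swap.rk b r = D.rk r b := by
  unfold rk
  rw [min_comm]
  rfl

lemma pres_swap {P : ℕ} {R' B' : Type} {D' : Diag R' B'} {φ : R' → R} {ψ : B' → B}
    (h : IsPres D (fun r b => D.cr r b ∧ P ≤ D.rk r b) D' φ ψ) :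
    IsPres D.swap (fun b r => D.swap.cr b r ∧ P ≤ D.swap.rk b r) D'.swap ψ φ := by
  have h1 := h.swap
  have : (fun b r => D.swap.cr b r ∧ P ≤ D.swap.rk b r) = (fun b r => D.cr r b ∧ P ≤ D.rk r b) := by
    funext b r
    rw [swap_cr, rk_swap]
  rw [this]
  exact h1

lemma free_zero {c : ℕ} (hf : D.free c 0) (hc : c = 0) : D.m = 0 := by
  subst hc
  unfold m
  apply sum_eq_zero
  intro r _
  rw [card_eq_zero, eq_empty_iff_forall_notMem]
  intro b hb
  rw [mem_N] at hb
  rcases hf {r} {b} (by simpa using hb) with h | h <;> simp at h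

variable (D)

/-- the simple bound -/
theorem upper_simple {c P : ℕ} (h1 : D.free c P) (h2 : D.swap.free c P) :
    2 * D.m ≤ (2 * c + P) * (D.nr + D.nb) := by
  have a1 := D.B1 h1
  have a2 := D.swap.B1 h2
  rw [swap_m] at a2
  have e1 : D.swap.nb = D.nr := rfl
  have e2 : D.swap.nr = D.nb := rfl
  rw [e1, e2] at a2
  nlinarith

/-- **The upper bound for diagrams.** -/
theorem upper {c P : ℕ} (hcP : c ≤ P) {α : ℝ} (hα : 0 ≤ α)
    (hα2 : (P : ℝ) ^ 2 + 3 * c * P ≤ 2 * α ^ 2 + (P - c) * α) :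
    ∀ (n : ℕ) (R B : Type) [Fintype R] [Fintype B] (D : Diag R B), D.free c P →
      D.swap.free c P → D.m = n → (D.m : ℝ) ≤ α * (D.nr + D.nb) := by
  intro n
  induction n using Nat.strong_induction_on with
  | _ n ih =>
    intro R B _ _ D h1 h2 hn
    rcases Nat.eq_zero_or_pos P with hP | hP
    · subst hP
      rw [free_zero h1 (by omega)]
      simp only [Nat.cast_zero]
      positivity
    rcases Nat.eq_zero_or_pos D.m with hm | hm
    · rw [hm]
      simp only [Nat.cast_zero]
      positivity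
    obtain ⟨R', B', f1, f2, D', φ, ψ, h⟩ := D.pres_rank P
    have g1 := pres_m h
    have g2 := pres_nb h
    have g3 := pres_nb (pres_swap h)
    have e1 : D'.swap.nb = D'.nr := rfl
    rw [e1] at g3
    have a1 := D.B1 h1
    have a2 := D.swap.B1 h2
    rw [swap_m] at a2
    have e2 : D.swap.nb = D.nr := rfl
    have e3 : D.swap.nr = D.nb := rfl
    rw [e2, e3] at a2
    have b1 := D.m_le_Sx P
    have b2 := D.swap.m_le_Sx P
    rw [swap_m, e3] at b2
    have b3 : (D.swap.Sx P).card = (D.Sx P).card := by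
      rw [← pres_m (pres_swap h), ← pres_m h, swap_m]
    rw [b3] at b2
    -- the eroded diagram is smaller
    have hlt : D'.m < n := by
      rw [g1, ← hn, ← D.card_cells]
      apply card_lt_card
      refine ⟨filter_subset _ _, fun hss => ?_⟩
      have hne : ∃ r, 0 < (D.N r).card := by
        by_contra hc
        push Not at hc
        have : D.m = 0 := by
          unfold m
          exact sum_eq_zero (fun r _ => by have := hc r; omega)
        omega
      obtain ⟨r, hr⟩ := hne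
      obtain ⟨u, hu, hu'⟩ := exists_pre (A := D.A r) (i := 0) (by rw [D.card_A]; exact hr)
      obtain ⟨b, hb, rfl⟩ := mem_image.1 hu
      have hb' := D.mem_N.1 hb
      have h3 := hss (show (r, b) ∈ D.cells by rw [mem_cells]; exact hb')
      have h4 := (D.mem_Sx.1 h3).2
      have h5 : D.L r b = 0 := hu'
      unfold rk at h4
      simp only at h4
      omega
    have key := ih D'.m hlt R' B' D' (pres_free h h1) (pres_free (pres_swap h) h2) rfl
    -- numerics
    rw [g1] at key
    set ρ1 : ℝ := ((D.tops P).card : ℝ) with hρ1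
    set ρ2 : ℝ := ((D.swap.tops P).card : ℝ) with hρ2
    set S : ℝ := ((D.Sx P).card : ℝ) with hS
    have k1 : (D'.nb : ℝ) ≤ ρ1 := by rw [hρ1]; exact_mod_cast g2
    have k2 : (D'.nr : ℝ) ≤ ρ2 := by rw [hρ2]; exact_mod_cast g3
    have k3 : S ≤ α * (ρ2 + ρ1) := key.trans (mul_le_mul_of_nonneg_left (by linarith) hα)
    have k4 : (c : ℝ) * ρ1 + D.m ≤ 2 * c * D.nb + P * D.nr := by
      rw [hρ1]; exact_mod_cast a1
    have k5 : (c : ℝ) * ρ2 + D.m ≤ 2 * c * D.nr + P * D.nb := by
      rw [hρ2]; exact_mod_cast a2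
    have k6 : (D.m : ℝ) ≤ S + 2 * P * D.nr + 2 * P * ρ1 := by
      rw [hρ1, hS]; exact_mod_cast b1
    have k7 : (D.m : ℝ) ≤ S + 2 * P * D.nb + 2 * P * ρ2 := by
      rw [hρ2, hS]; exact_mod_cast b2
    set N : ℝ := (D.nr : ℝ) + D.nb with hN
    have hN0 : 0 ≤ N := by positivity
    have l1 : (c : ℝ) * (ρ1 + ρ2) + 2 * D.m ≤ (2 * c + P) * N := by
      rw [hN]; nlinarith
    have l2 : (D.m : ℝ) ≤ P * N + (α + P) * (ρ1 + ρ2) := by
      rw [hN]; nlinarith
    have hPr : (1 : ℝ) ≤ P := by exact_mod_cast hP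
    have hc0 : (0 : ℝ) ≤ c := by positivity
    have l3 : (c : ℝ) * D.m ≤ c * (P * N) + (α + P) * ((2 * c + P) * N - 2 * D.m) := by
      have := mul_le_mul_of_nonneg_left l2 hc0
      have h5 : (α + P) * (c * (ρ1 + ρ2)) ≤ (α + P) * ((2 * c + P) * N - 2 * D.m) :=
        mul_le_mul_of_nonneg_left (by linarith) (by linarith)
      nlinarith
    have l4 : (c + 2 * α + 2 * P) * (D.m : ℝ) ≤ (c + 2 * α + 2 * P) * (α * N) := by
      have h5 : ((P : ℝ) ^ 2 + 3 * c * P) * N ≤ (2 * α ^ 2 + (P - c) * α) * N :=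
        mul_le_mul_of_nonneg_right hα2 hN0
      nlinarith
    exact le_of_mul_le_mul_left l4 (by linarith)

end Diag

end CGr
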