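import Pool.Agent.Work.MP_954b6f_co_helper49.Overlap
import Pool.Agent.Work.MP_954b6f_co_helper49.Upper

/-!
# From graphs to diagrams: the upper bounds
-/

set_option autoImplicit false
set_option linter.unusedSectionVars false

open Finset

namespace CGr

open CircleKst

lemma int_rep {V : Type} [Fintype V] {G : SimpleGraph V} (hG : IsOverlap G) :
    ∃ A B : V → ℤ, (∀ u v, u ≠ v → A u ≠ A v ∧ B u ≠ B v) ∧ (∀ u v, A u ≠ B v) ∧
      (∀ v, A v < B v) ∧
      ∀ u v, G.Adj u v ↔ (A u < A v ∧ A v < B u ∧ B u < B v) ∨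
        (A v < A u ∧ A u < B v ∧ B v < B u) := by
  classical
  obtain ⟨a, b, hinj, hlt, hadj⟩ := hG
  let f : V ⊕ V → ℝ := Sum.elim a b
  let pos : ℝ → ℤ := fun x => ((univ.filter (fun w : V ⊕ V => f w < x)).card : ℤ)
  have mono : ∀ x y, x ≤ y → pos x ≤ pos y := by
    intro x y hxy
    simp only [pos]
    norm_cast
    apply card_le_card
    intro w hw
    rw [mem_filter] at hw ⊢
    exact ⟨hw.1, lt_of_lt_of_le hw.2 hxy⟩
  have strict : ∀ w y, f w < y → pos (f w) < pos y := by
    intro w y hxy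
    simp only [pos]
    norm_cast
    apply card_lt_card
    rw [Finset.ssubset_iff_of_subset]
    · refine ⟨w, mem_filter.2 ⟨mem_univ _, hxy⟩, ?_⟩
      intro h
      exact lt_irrefl _ (mem_filter.1 h).2
    · intro v hv
      rw [mem_filter] at hv ⊢
      exact ⟨hv.1, hv.2.trans hxy⟩
  have iff1 : ∀ w w', pos (f w) < pos (f w') ↔ f w < f w' := by
    intro w w'
    constructor
    · intro h
      by_contra hc
      exact absurd (mono _ _ (not_lt.1 hc)) (not_le.2 h)
    · intro h
      exact strict w _ h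
  have eq1 : ∀ w w', pos (f w) = pos (f w') → w = w' := by
    intro w w' h
    apply hinj
    change f w = f w'
    rcases lt_trichotomy (f w) (f w') with h1 | h1 | h1
    · have := (iff1 w w').2 h1
      omega
    · exact h1
    · have := (iff1 w' w).2 h1
      omega
  refine ⟨fun v => pos (f (Sum.inl v)), fun v => pos (f (Sum.inr v)), ?_, ?_, ?_, ?_⟩
  · intro u v huv
    refine ⟨fun h => huv ?_, fun h => huv ?_⟩
    · exact Sum.inl_injective (eq1 _ _ h)
    · exact Sum.inr_injective (eq1 _ _ h)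
  · intro u v h
    have := eq1 _ _ h
    exact Sum.inl_ne_inr this
  · intro v
    rw [iff1]
    exact hlt v
  · intro u v
    simp only [iff1]
    exact hadj u v

lemma to_diag {V : Type} [Fintype V] {G : SimpleGraph V} {s t : ℕ} (hs : 1 ≤ s) (ht : 1 ≤ t)
    (hG : InClass s t G) : ∃ (R B : Type) (_ : Fintype R) (_ : Fintype B) (D : Diag R B),
      D.m = G.edgeSet.ncard ∧ D.nr + D.nb ≤ Fintype.card V ∧ D.free (s - 1) (t - 1) ∧
      D.swap.free (s - 1) (t - 1) := by
  classical
  obtain ⟨hcirc, hcol, hfree⟩ := hG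
  obtain ⟨A, B, hne, hAB, hlt, hadj⟩ := int_rep (overlap_of_circle hcirc)
  obtain ⟨col⟩ := hcol
  have hcc : ∀ u v, G.Adj u v → col u ≠ col v := fun u v h => col.valid h
  have h2 : ∀ u v, col u ≠ 0 → col v ≠ 0 → ¬ G.Adj u v := by
    intro u v h1 h2 h3
    have h4 := hcc u v h3
    have h5 : ∀ x y : Fin 2, x ≠ 0 → y ≠ 0 → x = y := by decide
    exact h4 (h5 _ _ h1 h2)
  have h1 : ∀ u v, col u = 0 → col v = 0 → ¬ G.Adj u v := by
    intro u v h1 h2 h3
    exact hcc u v h3 (h1.trans h2.symm)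
  let D : Diag {v : V // col v = 0} {v : V // ¬ col v = 0} :=
    { ra := fun v => A v.1
      rb := fun v => B v.1
      ba := fun v => A v.1
      bb := fun v => B v.1
      hr := fun v => hlt v.1
      hb := fun v => hlt v.1
      rr := by
        intro u v huv
        have h3 := h1 u.1 v.1 u.2 v.2
        rw [hadj] at h3
        have h4 := hne u.1 v.1 (fun h => huv (Subtype.ext h))
        have h5 := hAB u.1 v.1
        have h6 := hAB v.1 u.1
        omega
      bbx := by
        intro u v huv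
        have h3 := h2 u.1 v.1 u.2 v.2
        rw [hadj] at h3
        have h4 := hne u.1 v.1 (fun h => huv (Subtype.ext h))
        have h5 := hAB u.1 v.1
        have h6 := hAB v.1 u.1
        omega
      ne := by
        intro u v
        have h4 := hne u.1 v.1 (fun h => v.2 (h ▸ u.2))
        have h5 := hAB u.1 v.1
        have h6 := hAB v.1 u.1
        exact ⟨h4.1, h5, h6.symm, h4.2⟩ }
  have hcr : ∀ r b, D.cr r b ↔ G.Adj r.1 b.1 := by
    intro r b
    rw [hadj]
    rfl
  refine ⟨_, _, inferInstance, inferInstance, D, ?_, ?_, ?_, ?_⟩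
  · rw [← D.card_cells]
    have h3 : G.edgeSet = (fun p : {v : V // col v = 0} × {v : V // ¬ col v = 0} =>
        s(p.1.1, p.2.1)) '' (D.cells : Set _) := by
      ext e
      induction e using Sym2.ind with
      | _ u v =>
      rw [SimpleGraph.mem_edgeSet, Set.mem_image]
      constructor
      · intro h
        by_cases hu : col u = 0
        · have hv : ¬ col v = 0 := fun hv => h1 u v hu hv h
          exact ⟨(⟨u, hu⟩, ⟨v, hv⟩), mem_coe.2 (D.mem_cells.2 ((hcr _ _).2 h)), rfl⟩
        · have hv : col v = 0 := by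
            by_contra hv
            exact h2 u v hu hv h
          exact ⟨(⟨v, hv⟩, ⟨u, hu⟩), mem_coe.2 (D.mem_cells.2 ((hcr _ _).2 h.symm)),
            Sym2.eq_swap⟩
      · rintro ⟨p, hp, hpe⟩
        have h4 := (hcr _ _).1 (D.mem_cells.1 (mem_coe.1 hp))
        rw [← SimpleGraph.mem_edgeSet, ← hpe, SimpleGraph.mem_edgeSet]
        exact h4
    rw [h3, Set.InjOn.ncard_image, Set.ncard_coe_finset]
    intro p _ q _ hpq
    simp only [Sym2.eq_iff] at hpq
    rcases hpq with ⟨h4, h5⟩ | ⟨h4, h5⟩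
    · exact Prod.ext (Subtype.ext h4) (Subtype.ext h5)
    · exfalso
      apply q.2.2
      rw [← h4]
      exact p.1.2
  · have h3 : D.nr ≤ Fintype.card {v : V // col v = 0} := by
      unfold Diag.nr
      exact card_le_univ _
    have h4 : D.nb ≤ Fintype.card {v : V // ¬ col v = 0} := by
      unfold Diag.nb Diag.nr
      exact card_le_univ _
    have h5 := Fintype.card_congr (Equiv.sumCompl (fun v : V => col v = 0))
    rw [Fintype.card_sum] at h5
    omega
  · intro X Y hXY
    by_contra hc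
    rw [not_or, not_le, not_le] at hc
    apply hfree
    obtain ⟨f⟩ : Nonempty (Fin s ↪ X) := Function.Embedding.nonempty_of_card_le (by
      rw [Fintype.card_fin, Fintype.card_coe]
      omega)
    obtain ⟨g⟩ : Nonempty (Fin t ↪ Y) := Function.Embedding.nonempty_of_card_le (by
      rw [Fintype.card_fin, Fintype.card_coe]
      omega)
    refine ⟨⟨⟨Sum.elim (fun i => (f i).1.1) (fun j => (g j).1.1), ?_⟩, ?_⟩⟩
    · rintro (i | i) (j | j) h
      · simp [completeBipartiteGraph] at h
      · exact (hcr _ _).1 (hXY _ (f i).2 _ (g j).2)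
      · exact ((hcr _ _).1 (hXY _ (f j).2 _ (g i).2)).symm
      · simp [completeBipartiteGraph] at h
    · rintro (i | i) (j | j) h
      · simp only [RelHom.coeFn_mk, Sum.elim_inl] at h
        rw [f.injective (Subtype.ext (Subtype.ext h))]
      · exfalso
        simp only [RelHom.coeFn_mk, Sum.elim_inl, Sum.elim_inr] at h
        apply (g j).1.2
        rw [← h]
        exact (f i).1.2
      · exfalso
        simp only [RelHom.coeFn_mk, Sum.elim_inl, Sum.elim_inr] at h
        apply (g i).1.2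
        rw [h]
        exact (f j).1.2
      · simp only [RelHom.coeFn_mk, Sum.elim_inr] at h
        rw [g.injective (Subtype.ext (Subtype.ext h))]
  · intro X Y hXY
    by_contra hc
    rw [not_or, not_le, not_le] at hc
    apply hfree
    obtain ⟨f⟩ : Nonempty (Fin s ↪ X) := Function.Embedding.nonempty_of_card_le (by
      rw [Fintype.card_fin, Fintype.card_coe]
      omega)
    obtain ⟨g⟩ : Nonempty (Fin t ↪ Y) := Function.Embedding.nonempty_of_card_le (by
      rw [Fintype.card_fin, Fintype.card_coe]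
      omega)
    have hXY' : ∀ r ∈ X, ∀ b ∈ Y, G.Adj r.1 b.1 := by
      intro r hr b hb
      have := (hcr _ _).1 ((D.swap_cr b r).1 (hXY r hr b hb))
      exact this.symm
    refine ⟨⟨⟨Sum.elim (fun i => (f i).1.1) (fun j => (g j).1.1), ?_⟩, ?_⟩⟩
    · rintro (i | i) (j | j) h
      · simp [completeBipartiteGraph] at h
      · exact hXY' _ (f i).2 _ (g j).2
      · exact (hXY' _ (f j).2 _ (g i).2).symm
      · simp [completeBipartiteGraph] at h
    · rintro (i | i) (j | j) h
      · simp only [RelHom.coeFn_mk, Sum.elim_inl] at h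
        rw [f.injective (Subtype.ext (Subtype.ext h))]
      · exfalso
        simp only [RelHom.coeFn_mk, Sum.elim_inl, Sum.elim_inr] at h
        apply (f i).1.2
        rw [h]
        exact (g j).1.2
      · exfalso
        simp only [RelHom.coeFn_mk, Sum.elim_inl, Sum.elim_inr] at h
        apply (f j).1.2
        rw [← h]
        exact (g i).1.2
      · simp only [RelHom.coeFn_mk, Sum.elim_inr] at h
        rw [g.injective (Subtype.ext (Subtype.ext h))]

/-- the upper bounds -/
theorem upper_bounds {s t : ℕ} (hs : 1 ≤ s) (hst : s ≤ t) {x : ℝ} (hx : x ∈ avgDegrees s t) :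
    x ≤ 2 * (s - 1) + (t - 1) ∧
    x ≤ (((s : ℝ) - 1) - (t - 1) +
      Real.sqrt (((s : ℝ) - 1) ^ 2 + 22 * ((s : ℝ) - 1) * (t - 1) + 9 * ((t : ℝ) - 1) ^ 2)) / 2 := by
  obtain ⟨n, G, hn, hG, rfl⟩ := hx
  obtain ⟨R, B, _, _, D, hm, hcard, hf1, hf2⟩ := to_diag hs (hs.trans hst) hG
  rw [Fintype.card_fin] at hcard
  have hn' : (0 : ℝ) < n := by exact_mod_cast hn
  have hσ : ((s - 1 : ℕ) : ℝ) = (s : ℝ) - 1 := by
    rw [Nat.cast_sub hs]
    simp
  have hτ : ((t - 1 : ℕ) : ℝ) = (t : ℝ) - 1 := by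
    rw [Nat.cast_sub (hs.trans hst)]
    simp
  have hσ0 : (0 : ℝ) ≤ (s : ℝ) - 1 := by
    rw [← hσ]
    positivity
  have hστ : (s : ℝ) - 1 ≤ (t : ℝ) - 1 := by
    have : (s : ℝ) ≤ t := by exact_mod_cast hst
    linarith
  have hcard' : ((D.nr : ℝ) + D.nb) ≤ n := by exact_mod_cast hcard
  constructor
  · have h1 := D.upper_simple hf1 hf2
    have h2 : (2 : ℝ) * D.m ≤ (2 * ((s : ℝ) - 1) + ((t : ℝ) - 1)) * ((D.nr : ℝ) + D.nb) := by
      rw [← hσ, ← hτ]
      exact_mod_cast h1
    rw [div_le_iff₀ hn', ← hm]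
    refine h2.trans ?_
    apply mul_le_mul_of_nonneg_left hcard'
    linarith
  · set σ : ℝ := (s : ℝ) - 1 with hσd
    set τ : ℝ := (t : ℝ) - 1 with hτd
    set q : ℝ := Real.sqrt (σ ^ 2 + 22 * σ * τ + 9 * τ ^ 2) with hq
    have hq0 : 0 ≤ q := Real.sqrt_nonneg _
    have hτ0 : 0 ≤ τ := hσ0.trans hστ
    have hq2 : q ^ 2 = σ ^ 2 + 22 * σ * τ + 9 * τ ^ 2 := Real.sq_sqrt (by positivity)
    have hqτ : τ - σ ≤ q := by
      apply Real.le_sqrt_of_sq_le
      nlinarith
    have hα : 0 ≤ (σ - τ + q) / 4 := by linarith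
    have h1 := Diag.upper (c := s - 1) (P := t - 1) (by omega) hα (by
      rw [hσ, hτ]
      nlinarith) _ R B D hf1 hf2 rfl
    rw [div_le_iff₀ hn', ← hm]
    have h2 : (σ - τ + q) / 4 * ((D.nr : ℝ) + D.nb) ≤ (σ - τ + q) / 4 * n :=
      mul_le_mul_of_nonneg_left hcard' hα
    linarith

end CGr
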