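import Mathlib

/-!
# The growing construction (lower bound)

A diagram is a finite set `C` of chords `(a, b)`, `a < b`, of the integer line, together with a
colouring `κ` of the integers such that both ends of a chord have the same colour.  `nxt C κ` is the
next diagram: all positions are multiplied by 7, every end `x` gets a short chord over it, and all
pairs of consecutive ends get one or two connecting chords.
-/

set_option autoImplicit false
set_option linter.unusedSectionVars false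

open Finset

namespace CGr

namespace Gr

/-- the ends -/
def E (C : Finset (ℤ × ℤ)) : Finset ℤ := C.image Prod.fst ∪ C.image Prod.snd

/-- consecutive ends -/
def G (C : Finset (ℤ × ℤ)) : Finset (ℤ × ℤ) :=
  (E C ×ˢ E C).filter (fun g => g.1 < g.2 ∧ ∀ z ∈ E C, z ≤ g.1 ∨ g.2 ≤ z)

/-- consecutive ends of different colours -/
def GD (C : Finset (ℤ × ℤ)) (κ : ℤ → Bool) : Finset (ℤ × ℤ) :=
  (G C).filter (fun g => κ g.1 ≠ κ g.2)

/-- `c` and `d` cross, `c` starts first -/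
def crs (c d : ℤ × ℤ) : Prop := c.1 < d.1 ∧ d.1 < c.2 ∧ c.2 < d.2

instance (c d : ℤ × ℤ) : Decidable (crs c d) := by unfold crs; infer_instance

/-- the crossings -/
def xx (C : Finset (ℤ × ℤ)) : Finset ((ℤ × ℤ) × (ℤ × ℤ)) :=
  (C ×ˢ C).filter (fun p => crs p.1 p.2)

lemma mem_E {C : Finset (ℤ × ℤ)} {z : ℤ} : z ∈ E C ↔ ∃ c ∈ C, z = c.1 ∨ z = c.2 := by
  simp only [E, mem_union, mem_image]
  constructor
  · rintro (⟨c, hc, h⟩ | ⟨c, hc, h⟩)
    · exact ⟨c, hc, Or.inl h.symm⟩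
    · exact ⟨c, hc, Or.inr h.symm⟩
  · rintro ⟨c, hc, h | h⟩
    · exact Or.inl ⟨c, hc, h.symm⟩
    · exact Or.inr ⟨c, hc, h.symm⟩

lemma fst_mem {C : Finset (ℤ × ℤ)} {c : ℤ × ℤ} (h : c ∈ C) : c.1 ∈ E C :=
  mem_E.2 ⟨c, h, Or.inl rfl⟩

lemma snd_mem {C : Finset (ℤ × ℤ)} {c : ℤ × ℤ} (h : c ∈ C) : c.2 ∈ E C :=
  mem_E.2 ⟨c, h, Or.inr rfl⟩

lemma mem_G {C : Finset (ℤ × ℤ)} {g : ℤ × ℤ} : g ∈ G C ↔
    g.1 ∈ E C ∧ g.2 ∈ E C ∧ g.1 < g.2 ∧ ∀ z ∈ E C, z ≤ g.1 ∨ g.2 ≤ z := by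
  simp only [G, mem_filter, mem_product]
  tauto

lemma mem_GD {C : Finset (ℤ × ℤ)} {κ : ℤ → Bool} {g : ℤ × ℤ} : g ∈ GD C κ ↔
    g ∈ G C ∧ κ g.1 ≠ κ g.2 := by
  simp only [GD, mem_filter]

lemma mem_xx {C : Finset (ℤ × ℤ)} {p : (ℤ × ℤ) × (ℤ × ℤ)} : p ∈ xx C ↔
    p.1 ∈ C ∧ p.2 ∈ C ∧ crs p.1 p.2 := by
  simp only [xx, mem_filter, mem_product]
  tauto

structure Good (C : Finset (ℤ × ℤ)) (κ : ℤ → Bool) : Prop where
  lt : ∀ c ∈ C, c.1 < c.2
  dist : ∀ c ∈ C, ∀ d ∈ C, c ≠ d → c.1 ≠ d.1 ∧ c.1 ≠ d.2 ∧ c.2 ≠ d.1 ∧ c.2 ≠ d.2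
  col : ∀ c ∈ C, κ c.1 = κ c.2
  nc : ∀ c ∈ C, ∀ d ∈ C, crs c d → κ c.1 ≠ κ d.1
  c4 : ∀ c ∈ C, ∀ c' ∈ C, ∀ d ∈ C, ∀ d' ∈ C, c ≠ c' → d ≠ d' → (crs c d ∨ crs d c) →
    (crs c d' ∨ crs d' c) → (crs c' d ∨ crs d c') → (crs c' d' ∨ crs d' c') → False
  inner : ∀ c ∈ C, ∃ z ∈ E C, c.1 < z ∧ z < c.2

/-- every end has a next end unless it is the maximum -/
lemma next_or_max {C : Finset (ℤ × ℤ)} {x : ℤ} (hx : x ∈ E C) :
    (∃ y, (x, y) ∈ G C) ∨ ∀ z ∈ E C, z ≤ x := by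
  by_cases h : ((E C).filter (fun z => x < z)).Nonempty
  · left
    refine ⟨((E C).filter (fun z => x < z)).min' h, ?_⟩
    have h1 := Finset.min'_mem _ h
    rw [mem_filter] at h1
    rw [mem_G]
    refine ⟨hx, h1.1, h1.2, fun z hz => ?_⟩
    by_cases hz' : x < z
    · right
      exact Finset.min'_le _ _ (mem_filter.2 ⟨hz, hz'⟩)
    · left
      exact not_lt.1 hz'
  · right
    intro z hz
    by_contra hc
    exact h ⟨z, mem_filter.2 ⟨hz, not_le.1 hc⟩⟩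

lemma card_G {C : Finset (ℤ × ℤ)} (h : C.Nonempty) : (G C).card + 1 = (E C).card := by
  obtain ⟨c0, hc0⟩ := h
  have hE : (E C).Nonempty := ⟨c0.1, fst_mem hc0⟩
  have h1 : (G C).image Prod.fst = (E C).erase ((E C).max' hE) := by
    ext x
    simp only [mem_image, mem_erase]
    constructor
    · rintro ⟨g, hg, rfl⟩
      rw [mem_G] at hg
      refine ⟨?_, hg.1⟩
      have := Finset.le_max' _ _ hg.2.1
      omega
    · rintro ⟨hx, hxE⟩
      rcases next_or_max hxE with ⟨y, hy⟩ | h2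
      · exact ⟨(x, y), hy, rfl⟩
      · exfalso
        apply hx
        exact le_antisymm (Finset.le_max' _ _ hxE) (h2 _ (Finset.max'_mem _ hE))
  have h2 : ((G C).image Prod.fst).card = (G C).card := by
    apply card_image_of_injOn
    intro g hg g' hg' h
    rw [mem_coe, mem_G] at hg hg'
    have h3 := hg.2.2.2 _ hg'.2.1
    have h4 := hg'.2.2.2 _ hg.2.1
    apply Prod.ext h
    omega
  rw [← h2, h1]
  exact Finset.card_erase_add_one (Finset.max'_mem _ hE)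

lemma card_E {C : Finset (ℤ × ℤ)} {κ : ℤ → Bool} (h : Good C κ) : (E C).card = 2 * C.card := by
  unfold E
  rw [card_union_of_disjoint, card_image_of_injOn, card_image_of_injOn]
  · ring
  · intro c hc d hd hcd
    by_contra hne
    exact (h.dist c hc d hd hne).2.2.2 hcd
  · intro c hc d hd hcd
    by_contra hne
    exact (h.dist c hc d hd hne).1 hcd
  · rw [disjoint_left]
    intro x hx hx'
    rw [mem_image] at hx hx'
    obtain ⟨c, hc, rfl⟩ := hx
    obtain ⟨d, hd, hcd⟩ := hx'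
    by_cases hne : c = d
    · subst hne
      have := h.lt c hc
      omega
    · exact (h.dist c hc d hd hne).2.1 hcd.symm

/-! ### The next diagram -/

/-- index set of the next diagram -/
def Idx (C : Finset (ℤ × ℤ)) (κ : ℤ → Bool) :
    Finset ((ℤ × ℤ) ⊕ (ℤ ⊕ ((ℤ × ℤ) ⊕ (ℤ × ℤ)))) :=
  C.disjSum ((E C).disjSum ((G C).disjSum (GD C κ)))

/-- the chords of the next diagram -/
def F (κ : ℤ → Bool) : (ℤ × ℤ) ⊕ (ℤ ⊕ ((ℤ × ℤ) ⊕ (ℤ × ℤ))) → ℤ × ℤ
  | Sum.inl c => (7 * c.1, 7 * c.2)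
  | Sum.inr (Sum.inl x) => (7 * x - 2, 7 * x + 2)
  | Sum.inr (Sum.inr (Sum.inl g)) =>
      if κ g.1 = κ g.2 then (7 * g.1 + 1, 7 * g.2 - 1) else (7 * g.1 + 1, 7 * g.1 + 4)
  | Sum.inr (Sum.inr (Sum.inr g)) => (7 * g.1 + 3, 7 * g.2 - 1)

def nxt (C : Finset (ℤ × ℤ)) (κ : ℤ → Bool) : Finset (ℤ × ℤ) := (Idx C κ).image (F κ)

def ncol (κ : ℤ → Bool) (z : ℤ) : Bool :=
  xor (κ ((z + 2) / 7)) (decide ((z + 2) % 7 = 0 ∨ (z + 2) % 7 = 4 ∨ (z + 2) % 7 = 5))

lemma gap_unique {C : Finset (ℤ × ℤ)} {g g' : ℤ × ℤ} (hg : g ∈ G C) (hg' : g' ∈ G C)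
    (h : g.1 = g'.1) : g = g' := by
  rw [mem_G] at hg hg'
  have h3 := hg.2.2.2 _ hg'.2.1
  have h4 := hg'.2.2.2 _ hg.2.1
  apply Prod.ext h
  omega

lemma gap_unique' {C : Finset (ℤ × ℤ)} {g g' : ℤ × ℤ} (hg : g ∈ G C) (hg' : g' ∈ G C)
    (h : g.2 = g'.2) : g = g' := by
  rw [mem_G] at hg hg'
  have h3 := hg.2.2.2 _ hg'.1
  have h4 := hg'.2.2.2 _ hg.1
  refine Prod.ext ?_ h
  omega

lemma card_nxt {C : Finset (ℤ × ℤ)} {κ : ℤ → Bool} (h : Good C κ) (hC : C.Nonempty) :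
    (nxt C κ).card + 1 = 5 * C.card + (GD C κ).card := by
  have h1 : (nxt C κ).card = (Idx C κ).card := by
    apply card_image_of_injOn
    rintro (a | a | a | a) ha (b | b | b | b) hb hab
    all_goals
      simp only [Idx, mem_coe, inl_mem_disjSum, inr_mem_disjSum] at ha hb
      simp only [F] at hab
    · rw [Prod.mk.injEq] at hab
      congr 1
      apply Prod.ext <;> omega
    · rw [Prod.mk.injEq] at hab
      omega
    · split_ifs at hab <;> rw [Prod.mk.injEq] at hab <;> omega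
    · rw [Prod.mk.injEq] at hab
      omega
    · rw [Prod.mk.injEq] at hab
      omega
    · rw [Prod.mk.injEq] at hab
      congr 2
      omega
    · split_ifs at hab <;> rw [Prod.mk.injEq] at hab <;> omega
    · rw [Prod.mk.injEq] at hab
      omega
    · split_ifs at hab <;> rw [Prod.mk.injEq] at hab <;> omega
    · split_ifs at hab <;> rw [Prod.mk.injEq] at hab <;> omega
    · have : a = b := by
        apply gap_unique ha hb
        split_ifs at hab <;> rw [Prod.mk.injEq] at hab <;> omega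
      rw [this]
    · split_ifs at hab <;> rw [Prod.mk.injEq] at hab <;> omega
    · rw [Prod.mk.injEq] at hab
      omega
    · rw [Prod.mk.injEq] at hab
      omega
    · split_ifs at hab <;> rw [Prod.mk.injEq] at hab <;> omega
    · have : a = b := by
        apply gap_unique (mem_GD.1 ha).1 (mem_GD.1 hb).1
        rw [Prod.mk.injEq] at hab
        omega
      rw [this]
  rw [h1]
  have h2 := card_G hC
  have h3 := card_E h
  simp only [Idx, card_disjSum]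
  omega

end Gr

end CGr
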