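import Pool.Agent.Work.MP_954b6f_co_helper49.Grow

/-!
# The growing construction: counting crossings and colour changes
-/

set_option autoImplicit false
set_option linter.unusedSectionVars false

open Finset

namespace CGr

namespace Gr

def qq (κ : ℤ → Bool) (g : ℤ × ℤ) : ℤ × ℤ :=
  if κ g.1 = κ g.2 then (7 * g.1 + 1, 7 * g.2 - 1) else (7 * g.1 + 1, 7 * g.1 + 4)

def qr (κ : ℤ → Bool) (g : ℤ × ℤ) : ℤ × ℤ :=
  if κ g.1 = κ g.2 then (7 * g.1 + 1, 7 * g.2 - 1) else (7 * g.1 + 3, 7 * g.2 - 1)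

lemma mem_nxt {C : Finset (ℤ × ℤ)} {κ : ℤ → Bool} {c : ℤ × ℤ} : c ∈ nxt C κ ↔
    (∃ a ∈ C, c = (7 * a.1, 7 * a.2)) ∨ (∃ x ∈ E C, c = (7 * x - 2, 7 * x + 2)) ∨
    (∃ g ∈ G C, κ g.1 = κ g.2 ∧ c = (7 * g.1 + 1, 7 * g.2 - 1)) ∨
    (∃ g ∈ G C, κ g.1 ≠ κ g.2 ∧ c = (7 * g.1 + 1, 7 * g.1 + 4)) ∨
    (∃ g ∈ G C, κ g.1 ≠ κ g.2 ∧ c = (7 * g.1 + 3, 7 * g.2 - 1)) := by
  simp only [nxt, mem_image, Idx]
  constructor
  · rintro ⟨a | a | a | a, ha, hc⟩
    all_goals
      simp only [inl_mem_disjSum, inr_mem_disjSum] at ha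
      simp only [F] at hc
    · exact Or.inl ⟨a, ha, hc.symm⟩
    · exact Or.inr (Or.inl ⟨a, ha, hc.symm⟩)
    · split_ifs at hc with h
      · exact Or.inr (Or.inr (Or.inl ⟨a, ha, h, hc.symm⟩))
      · exact Or.inr (Or.inr (Or.inr (Or.inl ⟨a, ha, h, hc.symm⟩)))
    · exact Or.inr (Or.inr (Or.inr (Or.inr ⟨a, (mem_GD.1 ha).1, (mem_GD.1 ha).2, hc.symm⟩)))
  · rintro (⟨a, ha, hc⟩ | ⟨a, ha, hc⟩ | ⟨a, ha, h, hc⟩ | ⟨a, ha, h, hc⟩ | ⟨a, ha, h, hc⟩)
    · exact ⟨Sum.inl a, by simp [ha], hc.symm⟩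
    · exact ⟨Sum.inr (Sum.inl a), by simp [ha], hc.symm⟩
    · exact ⟨Sum.inr (Sum.inr (Sum.inl a)), by simp [ha], by simp only [F]; rw [if_pos h, hc]⟩
    · exact ⟨Sum.inr (Sum.inr (Sum.inl a)), by simp [ha], by simp only [F]; rw [if_neg h, hc]⟩
    · exact ⟨Sum.inr (Sum.inr (Sum.inr a)), by simp [mem_GD, ha, h], by simp only [F]; rw [hc]⟩

variable {C : Finset (ℤ × ℤ)} {κ : ℤ → Bool}

lemma n1 {a : ℤ × ℤ} (ha : a ∈ C) : (7 * a.1, 7 * a.2) ∈ nxt C κ := mem_nxt.2 (Or.inl ⟨a, ha, rfl⟩)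

lemma n2 {x : ℤ} (hx : x ∈ E C) : (7 * x - 2, 7 * x + 2) ∈ nxt C κ :=
  mem_nxt.2 (Or.inr (Or.inl ⟨x, hx, rfl⟩))

lemma n3 {g : ℤ × ℤ} (hg : g ∈ G C) (h : κ g.1 = κ g.2) : (7 * g.1 + 1, 7 * g.2 - 1) ∈ nxt C κ :=
  mem_nxt.2 (Or.inr (Or.inr (Or.inl ⟨g, hg, h, rfl⟩)))

lemma n4 {g : ℤ × ℤ} (hg : g ∈ G C) (h : κ g.1 ≠ κ g.2) : (7 * g.1 + 1, 7 * g.1 + 4) ∈ nxt C κ :=
  mem_nxt.2 (Or.inr (Or.inr (Or.inr (Or.inl ⟨g, hg, h, rfl⟩))))

lemma n5 {g : ℤ × ℤ} (hg : g ∈ G C) (h : κ g.1 ≠ κ g.2) : (7 * g.1 + 3, 7 * g.2 - 1) ∈ nxt C κ :=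
  mem_nxt.2 (Or.inr (Or.inr (Or.inr (Or.inr ⟨g, hg, h, rfl⟩))))

lemma nq {g : ℤ × ℤ} (hg : g ∈ G C) : qq κ g ∈ nxt C κ := by
  unfold qq
  split_ifs with h
  · exact n3 hg h
  · exact n4 hg h

lemma nr' {g : ℤ × ℤ} (hg : g ∈ G C) : qr κ g ∈ nxt C κ := by
  unfold qr
  split_ifs with h
  · exact n3 hg h
  · exact n5 hg h

abbrev P2 := (ℤ × ℤ) × (ℤ × ℤ)

def Hx (κ : ℤ → Bool) : P2 ⊕ ((ℤ × ℤ) ⊕ ((ℤ × ℤ) ⊕ ((ℤ × ℤ) ⊕ ((ℤ × ℤ) ⊕ (ℤ × ℤ))))) → P2
  | Sum.inl p => ((7 * p.1.1, 7 * p.1.2), (7 * p.2.1, 7 * p.2.2))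
  | Sum.inr (Sum.inl c) => ((7 * c.1 - 2, 7 * c.1 + 2), (7 * c.1, 7 * c.2))
  | Sum.inr (Sum.inr (Sum.inl c)) => ((7 * c.1, 7 * c.2), (7 * c.2 - 2, 7 * c.2 + 2))
  | Sum.inr (Sum.inr (Sum.inr (Sum.inl g))) => ((7 * g.1 - 2, 7 * g.1 + 2), qq κ g)
  | Sum.inr (Sum.inr (Sum.inr (Sum.inr (Sum.inl g)))) => (qr κ g, (7 * g.2 - 2, 7 * g.2 + 2))
  | Sum.inr (Sum.inr (Sum.inr (Sum.inr (Sum.inr g)))) =>
      ((7 * g.1 + 1, 7 * g.1 + 4), (7 * g.1 + 3, 7 * g.2 - 1))

lemma pe {a b : ℤ × ℤ} (h1 : a.1 = b.1) (h2 : a.2 = b.2) : a = b := Prod.ext h1 h2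

lemma card_xx (h : Good C κ) (hC : C.Nonempty) :
    (xx C).card + 6 * C.card + (GD C κ).card ≤ (xx (nxt C κ)).card + 2 := by
  have h2 := card_G hC
  have h3 := card_E h
  have key : ((xx C).disjSum (C.disjSum (C.disjSum ((G C).disjSum
      ((G C).disjSum (GD C κ)))))).card ≤ (xx (nxt C κ)).card := by
    apply card_le_card_of_injOn (Hx κ)
    · rintro (a | a | a | a | a | a) ha
      all_goals
        simp only [mem_coe, inl_mem_disjSum, inr_mem_disjSum] at ha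
        simp only [Hx]
        rw [mem_coe, mem_xx]
      · rw [mem_xx] at ha
        refine ⟨n1 ha.1, n1 ha.2.1, ?_⟩
        have := ha.2.2
        unfold crs at this ⊢
        simp only
        omega
      · refine ⟨n2 (fst_mem ha), n1 ha, ?_⟩
        have := h.lt a ha
        unfold crs
        simp only
        omega
      · refine ⟨n1 ha, n2 (snd_mem ha), ?_⟩
        have := h.lt a ha
        unfold crs
        simp only
        omega
      · refine ⟨n2 (mem_G.1 ha).1, nq ha, ?_⟩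
        have := (mem_G.1 ha).2.2.1
        unfold crs qq
        split_ifs <;> simp only <;> omega
      · refine ⟨nr' ha, n2 (mem_G.1 ha).2.1, ?_⟩
        have := (mem_G.1 ha).2.2.1
        unfold crs qr
        split_ifs <;> simp only <;> omega
      · rw [mem_GD] at ha
        refine ⟨n4 ha.1 ha.2, n5 ha.1 ha.2, ?_⟩
        have := (mem_G.1 ha.1).2.2.1
        unfold crs
        simp only
        omega
    · rintro (a | a | a | a | a | a) ha (b | b | b | b | b | b) hb hab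
      all_goals
        simp only [mem_coe, inl_mem_disjSum, inr_mem_disjSum] at ha hb
        simp only [Hx, qq, qr] at hab
        (try split_ifs at hab) <;> simp only [Prod.mk.injEq] at hab <;> (try omega)
      · congr 1
        refine Prod.ext (pe ?_ ?_) (pe ?_ ?_) <;> omega
      · congr 2
        refine pe ?_ ?_ <;> omega
      · congr 3
        refine pe ?_ ?_ <;> omega
      · rw [gap_unique ha hb (by omega)]
      · rw [gap_unique ha hb (by omega)]
      · rw [gap_unique' ha hb (by omega)]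
      · rw [gap_unique' ha hb (by omega)]
      · rw [gap_unique (mem_GD.1 ha).1 (mem_GD.1 hb).1 (by omega)]
  simp only [card_disjSum] at key
  omega

/-! ### colours of the next diagram -/

lemma nc0 (x : ℤ) : ncol κ (7 * x) = κ x := by
  unfold ncol
  rw [show (7 * x + 2) / 7 = x by omega, show (7 * x + 2) % 7 = 2 by omega]
  simp

lemma ncm2 (x : ℤ) : ncol κ (7 * x - 2) = !κ x := by
  unfold ncol
  rw [show (7 * x - 2 + 2) / 7 = x by omega, show (7 * x - 2 + 2) % 7 = 0 by omega]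
  simp

lemma ncm1 (x : ℤ) : ncol κ (7 * x - 1) = κ x := by
  unfold ncol
  rw [show (7 * x - 1 + 2) / 7 = x by omega, show (7 * x - 1 + 2) % 7 = 1 by omega]
  simp

lemma nc1 (x : ℤ) : ncol κ (7 * x + 1) = κ x := by
  unfold ncol
  rw [show (7 * x + 1 + 2) / 7 = x by omega, show (7 * x + 1 + 2) % 7 = 3 by omega]
  simp

lemma nc2 (x : ℤ) : ncol κ (7 * x + 2) = !κ x := by
  unfold ncol
  rw [show (7 * x + 2 + 2) / 7 = x by omega, show (7 * x + 2 + 2) % 7 = 4 by omega]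
  simp

lemma nc3 (x : ℤ) : ncol κ (7 * x + 3) = !κ x := by
  unfold ncol
  rw [show (7 * x + 3 + 2) / 7 = x by omega, show (7 * x + 3 + 2) % 7 = 5 by omega]
  simp

lemma nc4 (x : ℤ) : ncol κ (7 * x + 4) = κ x := by
  unfold ncol
  rw [show (7 * x + 4 + 2) / 7 = x by omega, show (7 * x + 4 + 2) % 7 = 6 by omega]
  simp

lemma bne {a b : Bool} (h : a ≠ b) : (!a) = b := by
  revert h
  cases a <;> cases b <;> simp

/-! ### ends of the next diagram -/

lemma mem_E_nxt {z : ℤ} : z ∈ E (nxt C κ) ↔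
    (∃ x ∈ E C, z = 7 * x - 2 ∨ z = 7 * x ∨ z = 7 * x + 2) ∨
    (∃ g ∈ G C, z = 7 * g.1 + 1 ∨ z = 7 * g.2 - 1) ∨
    (∃ g ∈ G C, κ g.1 ≠ κ g.2 ∧ (z = 7 * g.1 + 3 ∨ z = 7 * g.1 + 4)) := by
  rw [mem_E]
  constructor
  · rintro ⟨c, hc, hz⟩
    rw [mem_nxt] at hc
    rcases hc with ⟨a, ha, hc⟩ | ⟨a, ha, hc⟩ | ⟨a, ha, h, hc⟩ | ⟨a, ha, h, hc⟩ | ⟨a, ha, h, hc⟩ <;>
      subst hc <;> simp only at hz
    · rcases hz with hz | hz
      · exact Or.inl ⟨a.1, fst_mem ha, by omega⟩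
      · exact Or.inl ⟨a.2, snd_mem ha, by omega⟩
    · exact Or.inl ⟨a, ha, by omega⟩
    · exact Or.inr (Or.inl ⟨a, ha, by omega⟩)
    · rcases hz with hz | hz
      · exact Or.inr (Or.inl ⟨a, ha, by omega⟩)
      · exact Or.inr (Or.inr ⟨a, ha, h, by omega⟩)
    · rcases hz with hz | hz
      · exact Or.inr (Or.inr ⟨a, ha, h, by omega⟩)
      · exact Or.inr (Or.inl ⟨a, ha, by omega⟩)
  · rintro (⟨x, hx, h⟩ | ⟨g, hg, h⟩ | ⟨g, hg, hk, h⟩)
    · rcases h with h | h | h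
      · exact ⟨_, n2 hx, Or.inl (by simp only; omega)⟩
      · obtain ⟨c, hc, hx'⟩ := mem_E.1 hx
        exact ⟨_, n1 hc, by simp only; omega⟩
      · exact ⟨_, n2 hx, Or.inr (by simp only; omega)⟩
    · rcases h with h | h
      · by_cases hk : κ g.1 = κ g.2
        · exact ⟨_, n3 hg hk, Or.inl h⟩
        · exact ⟨_, n4 hg hk, Or.inl h⟩
      · by_cases hk : κ g.1 = κ g.2
        · exact ⟨_, n3 hg hk, Or.inr h⟩
        · exact ⟨_, n5 hg hk, Or.inr h⟩
    · rcases h with h | h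
      · exact ⟨_, n5 hg hk, Or.inl h⟩
      · exact ⟨_, n4 hg hk, Or.inr h⟩

open Classical in
lemma card_GD_nxt (h : Good C κ) :
    (GD (nxt C κ) (ncol κ)).card ≤ 4 * C.card + (GD C κ).card := by
  have h3 := card_E h
  have h1 : (GD (nxt C κ) (ncol κ)).card = ((GD (nxt C κ) (ncol κ)).image Prod.fst).card := by
    rw [card_image_of_injOn]
    intro g hg g' hg' h
    rw [mem_coe, mem_GD] at hg hg'
    exact gap_unique hg.1 hg'.1 h
  have h2 : (GD (nxt C κ) (ncol κ)).image Prod.fst ⊆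
      ((E C).image (fun x => 7 * x - 2) ∪
        (E C).image (fun x => if ∃ y, (x, y) ∈ G C then 7 * x + 1 else 7 * x)) ∪
      (GD C κ).image (fun g => 7 * g.1 + 3) := by
    intro u hu
    rw [mem_image] at hu
    obtain ⟨⟨u', v⟩, huv, hu'⟩ := hu
    simp only at hu'
    subst hu'
    rw [mem_GD] at huv
    obtain ⟨huv, hcol⟩ := huv
    rw [mem_G] at huv
    obtain ⟨hu, hv, hlt, hgap⟩ := huv
    simp only at hu hv hlt hgap hcol
    simp only [mem_union, mem_image]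
    rcases mem_E_nxt.1 hu with ⟨x, hx, h4⟩ | ⟨g, hg, h4⟩ | ⟨g, hg, hk, h4⟩
    · rcases h4 with h4 | h4 | h4
      · exact Or.inl (Or.inl ⟨x, hx, h4.symm⟩)
      · -- `u = 7 x`
        by_cases hy : ∃ y, (x, y) ∈ G C
        · exfalso
          obtain ⟨y, hy⟩ := hy
          have h5 := hgap (7 * x + 1) (mem_E_nxt.2 (Or.inr (Or.inl ⟨(x, y), hy, by simp⟩)))
          have h6 : v = 7 * x + 1 := by omega
          subst h6 h4
          apply hcol
          rw [nc0, nc1]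
        · refine Or.inl (Or.inr ⟨x, hx, ?_⟩)
          rw [if_neg hy, h4]
      · -- `u = 7 x + 2`
        exfalso
        rcases next_or_max hx with ⟨y, hy⟩ | hmax
        · have hG := mem_G.1 hy
          simp only at hG
          by_cases hk : κ x = κ y
          · have h5 := hgap (7 * y - 2) (mem_E_nxt.2 (Or.inl ⟨y, hG.2.1, by simp⟩))
            have h6 : v = 7 * y - 2 := by
              rcases mem_E_nxt.1 hv with ⟨z, hz, h7⟩ | ⟨g, hg, h7⟩ | ⟨g, hg, hk', h7⟩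
              · have := hG.2.2.2 z hz
                omega
              · have h8 := mem_G.1 hg
                have := hG.2.2.2 g.1 h8.1
                have := hG.2.2.2 g.2 h8.2.1
                omega
              · have h8 := mem_G.1 hg
                have h9 := hG.2.2.2 g.1 h8.1
                have h10 : g.1 = x := by omega
                have h11 := gap_unique hg hy h10
                subst h11
                exact absurd hk hk'
            subst h6 h4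
            apply hcol
            rw [nc2, ncm2, hk]
          · have h5 := hgap (7 * x + 3) (mem_E_nxt.2 (Or.inr (Or.inr ⟨(x, y), hy, hk, by simp⟩)))
            have h6 : v = 7 * x + 3 := by omega
            subst h6 h4
            apply hcol
            rw [nc2, nc3]
        · rcases mem_E_nxt.1 hv with ⟨z, hz, h7⟩ | ⟨g, hg, h7⟩ | ⟨g, hg, hk', h7⟩
          · have := hmax z hz
            omega
          · have h8 := mem_G.1 hg
            have := hmax g.1 h8.1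
            have := hmax g.2 h8.2.1
            omega
          · have h8 := mem_G.1 hg
            have := hmax g.1 h8.1
            have := hmax g.2 h8.2.1
            omega
    · rcases h4 with h4 | h4
      · refine Or.inl (Or.inr ⟨g.1, (mem_G.1 hg).1, ?_⟩)
        rw [if_pos ⟨g.2, hg⟩, h4]
      · -- `u = 7 y - 1`
        exfalso
        have h5 := hgap (7 * g.2) (mem_E_nxt.2 (Or.inl ⟨g.2, (mem_G.1 hg).2.1, by simp⟩))
        have h6 : v = 7 * g.2 := by omega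
        subst h6 h4
        apply hcol
        rw [nc0, ncm1]
    · rcases h4 with h4 | h4
      · exact Or.inr ⟨g, mem_GD.2 ⟨hg, hk⟩, h4.symm⟩
      · exfalso
        have hG := mem_G.1 hg
        have h5 := hgap (7 * g.2 - 2) (mem_E_nxt.2 (Or.inl ⟨g.2, hG.2.1, by simp⟩))
        have h6 : v = 7 * g.2 - 2 := by
          rcases mem_E_nxt.1 hv with ⟨z, hz, h7⟩ | ⟨g', hg', h7⟩ | ⟨g', hg', hk', h7⟩
          · have := hG.2.2.2 z hz
            omega
          · have h8 := mem_G.1 hg'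
            have := hG.2.2.2 g'.1 h8.1
            have := hG.2.2.2 g'.2 h8.2.1
            omega
          · have h8 := mem_G.1 hg'
            have := hG.2.2.2 g'.1 h8.1
            omega
        subst h6 h4
        apply hcol
        rw [nc4, ncm2, ← bne hk]
        simp
  calc (GD (nxt C κ) (ncol κ)).card = _ := h1
    _ ≤ _ := card_le_card h2
    _ ≤ _ := card_union_le _ _
    _ ≤ _ := Nat.add_le_add (card_union_le _ _) le_rfl
    _ ≤ _ := Nat.add_le_add (Nat.add_le_add card_image_le card_image_le) card_image_le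
    _ = 4 * C.card + (GD C κ).card := by omega

end Gr

end CGr
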