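import Pool.Agent.Work.MP_954b6f_co_helper49.Grow2

/-!
# The growing construction: the crossings of the next diagram
-/

set_option autoImplicit false
set_option linter.unusedSectionVars false
set_option linter.unusedVariables false

open Finset

namespace CGr

namespace Gr

variable {C : Finset (ℤ × ℤ)} {κ : ℤ → Bool}

lemma lt_nxt (h : Good C κ) : ∀ c ∈ nxt C κ, c.1 < c.2 := by
  intro c hc
  rw [mem_nxt] at hc
  rcases hc with ⟨a, ha, hc⟩ | ⟨a, ha, hc⟩ | ⟨a, ha, _, hc⟩ | ⟨a, ha, _, hc⟩ | ⟨a, ha, _, hc⟩ <;>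
    subst hc <;> simp only
  · have := h.lt a ha
    omega
  · omega
  · have := (mem_G.1 ha).2.2.1
    omega
  · omega
  · have := (mem_G.1 ha).2.2.1
    omega

lemma dist_nxt (h : Good C κ) : ∀ c ∈ nxt C κ, ∀ d ∈ nxt C κ, c ≠ d →
    c.1 ≠ d.1 ∧ c.1 ≠ d.2 ∧ c.2 ≠ d.1 ∧ c.2 ≠ d.2 := by
  intro c hc d hd hne
  rw [mem_nxt] at hc hd
  rcases hc with ⟨a, ha, hc⟩ | ⟨a, ha, hc⟩ | ⟨a, ha, k, hc⟩ | ⟨a, ha, k, hc⟩ | ⟨a, ha, k, hc⟩ <;>
  rcases hd with ⟨b, hb, hd⟩ | ⟨b, hb, hd⟩ | ⟨b, hb, l, hd⟩ | ⟨b, hb, l, hd⟩ | ⟨b, hb, l, hd⟩ <;>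
    rw [hc, hd] <;> simp only <;> (try omega)
  · have : a ≠ b := by
      intro h
      apply hne
      rw [hc, hd, h]
    have := h.dist a ha b hb this
    omega
  · have : a ≠ b := by
      intro h
      apply hne
      rw [hc, hd, h]
    omega
  · have h1 : a.1 ≠ b.1 := by
      intro h
      apply hne
      rw [hc, hd, gap_unique ha hb h]
    have h2 : a.2 ≠ b.2 := by
      intro h
      apply hne
      rw [hc, hd, gap_unique' ha hb h]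
    omega
  · have h1 : a.1 ≠ b.1 := by
      intro h
      have := gap_unique ha hb h
      subst this
      exact l k
    omega
  · have h1 : a.2 ≠ b.2 := by
      intro h
      have := gap_unique' ha hb h
      subst this
      exact l k
    omega
  · have h1 : a.1 ≠ b.1 := by
      intro h
      have := gap_unique ha hb h
      subst this
      exact k l
    omega
  · have h1 : a.1 ≠ b.1 := by
      intro h
      apply hne
      rw [hc, hd, gap_unique ha hb h]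
    omega
  · have h1 : a.2 ≠ b.2 := by
      intro h
      have := gap_unique' ha hb h
      subst this
      exact k l
    omega
  · have h1 : a.1 ≠ b.1 := by
      intro h
      apply hne
      rw [hc, hd, gap_unique ha hb h]
    have h2 : a.2 ≠ b.2 := by
      intro h
      apply hne
      rw [hc, hd, gap_unique' ha hb h]
    omega

lemma col_nxt (h : Good C κ) : ∀ c ∈ nxt C κ, ncol κ c.1 = ncol κ c.2 := by
  intro c hc
  rw [mem_nxt] at hc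
  rcases hc with ⟨a, ha, hc⟩ | ⟨a, ha, hc⟩ | ⟨a, ha, k, hc⟩ | ⟨a, ha, k, hc⟩ | ⟨a, ha, k, hc⟩ <;>
    subst hc <;> simp only
  · rw [nc0, nc0, h.col a ha]
  · rw [ncm2, nc2]
  · rw [nc1, ncm1, k]
  · rw [nc1, nc4]
  · rw [nc3, ncm1, bne k]

lemma inner_nxt (h : Good C κ) : ∀ c ∈ nxt C κ, ∃ z ∈ E (nxt C κ), c.1 < z ∧ z < c.2 := by
  intro c hc
  rw [mem_nxt] at hc
  rcases hc with ⟨a, ha, hc⟩ | ⟨a, ha, hc⟩ | ⟨a, ha, k, hc⟩ | ⟨a, ha, k, hc⟩ | ⟨a, ha, k, hc⟩ <;>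
    subst hc <;> simp only
  · have := h.lt a ha
    refine ⟨7 * a.1 + 2, mem_E_nxt.2 (Or.inl ⟨a.1, fst_mem ha, by simp⟩), by omega, by omega⟩
  · refine ⟨7 * a, mem_E_nxt.2 (Or.inl ⟨a, ha, by simp⟩), by omega, by omega⟩
  · have := (mem_G.1 ha).2.2.1
    refine ⟨7 * a.1 + 2, mem_E_nxt.2 (Or.inl ⟨a.1, (mem_G.1 ha).1, by simp⟩), by omega, by omega⟩
  · refine ⟨7 * a.1 + 2, mem_E_nxt.2 (Or.inl ⟨a.1, (mem_G.1 ha).1, by simp⟩), by omega, by omega⟩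
  · have := (mem_G.1 ha).2.2.1
    refine ⟨7 * a.2 - 2, mem_E_nxt.2 (Or.inl ⟨a.2, (mem_G.1 ha).2.1, by simp⟩), by omega, by omega⟩

/-- the crossings -/
lemma crs_cases (h : Good C κ) {c d : ℤ × ℤ} (hc : c ∈ nxt C κ) (hd : d ∈ nxt C κ)
    (hcd : crs c d) :
    (∃ a ∈ C, ∃ b ∈ C, crs a b ∧ c = (7 * a.1, 7 * a.2) ∧ d = (7 * b.1, 7 * b.2)) ∨
    (∃ a ∈ C, c = (7 * a.1 - 2, 7 * a.1 + 2) ∧ d = (7 * a.1, 7 * a.2)) ∨
    (∃ a ∈ C, c = (7 * a.1, 7 * a.2) ∧ d = (7 * a.2 - 2, 7 * a.2 + 2)) ∨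
    (∃ g ∈ G C, κ g.1 = κ g.2 ∧ c = (7 * g.1 - 2, 7 * g.1 + 2) ∧
      d = (7 * g.1 + 1, 7 * g.2 - 1)) ∨
    (∃ g ∈ G C, κ g.1 = κ g.2 ∧ c = (7 * g.1 + 1, 7 * g.2 - 1) ∧
      d = (7 * g.2 - 2, 7 * g.2 + 2)) ∨
    (∃ g ∈ G C, κ g.1 ≠ κ g.2 ∧ c = (7 * g.1 - 2, 7 * g.1 + 2) ∧
      d = (7 * g.1 + 1, 7 * g.1 + 4)) ∨
    (∃ g ∈ G C, κ g.1 ≠ κ g.2 ∧ c = (7 * g.1 + 1, 7 * g.1 + 4) ∧
      d = (7 * g.1 + 3, 7 * g.2 - 1)) ∨
    (∃ g ∈ G C, κ g.1 ≠ κ g.2 ∧ c = (7 * g.1 + 3, 7 * g.2 - 1) ∧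
      d = (7 * g.2 - 2, 7 * g.2 + 2)) := by
  rw [mem_nxt] at hc hd
  unfold crs at hcd
  rcases hc with ⟨a, ha, hc⟩ | ⟨a, ha, hc⟩ | ⟨a, ha, k, hc⟩ | ⟨a, ha, k, hc⟩ | ⟨a, ha, k, hc⟩ <;>
  rcases hd with ⟨b, hb, hd⟩ | ⟨b, hb, hd⟩ | ⟨b, hb, l, hd⟩ | ⟨b, hb, l, hd⟩ | ⟨b, hb, l, hd⟩ <;>
    subst hc <;> subst hd <;> simp only at hcd
  · -- 11
    exact Or.inl ⟨a, ha, b, hb, by unfold crs; omega, rfl, rfl⟩
  · -- 12
    have : a.2 = b := by omega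
    subst this
    exact Or.inr (Or.inr (Or.inl ⟨a, ha, rfl, rfl⟩))
  · -- 13
    have := (mem_G.1 hb).2.2.2 a.2 (snd_mem ha)
    omega
  · omega
  · have := (mem_G.1 hb).2.2.2 a.2 (snd_mem ha)
    omega
  · -- 21
    have : b.1 = a := by omega
    subst this
    exact Or.inr (Or.inl ⟨b, hb, rfl, rfl⟩)
  · omega
  · -- 23
    have : b.1 = a := by omega
    subst this
    exact Or.inr (Or.inr (Or.inr (Or.inl ⟨b, hb, l, rfl, rfl⟩)))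
  · have : b.1 = a := by omega
    subst this
    exact Or.inr (Or.inr (Or.inr (Or.inr (Or.inr (Or.inl ⟨b, hb, l, rfl, rfl⟩)))))
  · omega
  · -- 31
    have := (mem_G.1 ha).2.2.2 b.1 (fst_mem hb)
    omega
  · have := (mem_G.1 ha).2.2.2 b hb
    have : a.2 = b := by omega
    subst this
    exact Or.inr (Or.inr (Or.inr (Or.inr (Or.inl ⟨a, ha, k, rfl, rfl⟩))))
  · have := (mem_G.1 ha).2.2.2 b.1 (mem_G.1 hb).1
    omega
  · have := (mem_G.1 ha).2.2.2 b.1 (mem_G.1 hb).1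
    omega
  · have := (mem_G.1 ha).2.2.2 b.1 (mem_G.1 hb).1
    have : a.1 = b.1 := by omega
    have := gap_unique ha hb this
    subst this
    exact absurd k l
  · omega
  · omega
  · omega
  · omega
  · have : a.1 = b.1 := by omega
    have := gap_unique ha hb this
    subst this
    exact Or.inr (Or.inr (Or.inr (Or.inr (Or.inr (Or.inr (Or.inl ⟨a, ha, k, rfl, rfl⟩))))))
  · have := (mem_G.1 ha).2.2.2 b.1 (fst_mem hb)
    omega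
  · have := (mem_G.1 ha).2.2.2 b hb
    have : a.2 = b := by omega
    subst this
    exact Or.inr (Or.inr (Or.inr (Or.inr (Or.inr (Or.inr (Or.inr ⟨a, ha, k, rfl, rfl⟩))))))
  · have := (mem_G.1 ha).2.2.2 b.1 (mem_G.1 hb).1
    omega
  · have := (mem_G.1 ha).2.2.2 b.1 (mem_G.1 hb).1
    omega
  · have := (mem_G.1 ha).2.2.2 b.1 (mem_G.1 hb).1
    omega

lemma ncr_nxt (h : Good C κ) : ∀ c ∈ nxt C κ, ∀ d ∈ nxt C κ, crs c d →
    ncol κ c.1 ≠ ncol κ d.1 := by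
  intro c hc d hd hcd
  rcases crs_cases h hc hd hcd with ⟨a, ha, b, hb, h1, h2, h3⟩ | ⟨a, ha, h2, h3⟩ |
    ⟨a, ha, h2, h3⟩ | ⟨g, hg, k, h2, h3⟩ | ⟨g, hg, k, h2, h3⟩ | ⟨g, hg, k, h2, h3⟩ |
    ⟨g, hg, k, h2, h3⟩ | ⟨g, hg, k, h2, h3⟩ <;> rw [h2, h3] <;> simp only
  · rw [nc0, nc0]
    exact h.nc a ha b hb h1
  · rw [ncm2, nc0]
    simp
  · rw [nc0, ncm2, h.col a ha]
    simp
  · rw [ncm2, nc1]
    simp
  · rw [nc1, ncm2, k]
    simp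
  · rw [ncm2, nc1]
    simp
  · rw [nc1, nc3]
    simp
  · rw [nc3, ncm2, bne k]
    simp

end Gr

end CGr
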