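import Pool.Agent.Work.MP_954b6f_co_helper49.GraphU
import Pool.Agent.Work.MP_954b6f_co_helper49.GraphL

/-!
# The result
-/

set_option autoImplicit false

namespace CGr

open CircleKst

theorem main_eq (s : ℕ) (hs : 1 ≤ s) :
    IsLUB (avgDegrees s s) (2 * Real.sqrt 2 * (s - 1)) := by
  constructor
  · intro x hx
    have h := (upper_bounds hs le_rfl hx).2
    have h0 : (0 : ℝ) ≤ (s : ℝ) - 1 := by
      have : (1 : ℝ) ≤ s := by exact_mod_cast hs
      linarith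
    have h1 : Real.sqrt (((s : ℝ) - 1) ^ 2 + 22 * ((s : ℝ) - 1) * (s - 1) +
        9 * ((s : ℝ) - 1) ^ 2) = 4 * Real.sqrt 2 * (s - 1) := by
      rw [Real.sqrt_eq_iff_mul_self_eq (by positivity) (by positivity)]
      have : Real.sqrt 2 * Real.sqrt 2 = 2 := Real.mul_self_sqrt (by norm_num)
      linear_combination (-16) * ((s : ℝ) - 1) ^ 2 * this
    rw [h1] at h
    linarith
  · intro u hu
    exact lower_bound hs le_rfl hu

theorem main :
    (∀ s : ℕ, 1 ≤ s → IsLUB (avgDegrees s s) (2 * Real.sqrt 2 * (s - 1))) ∧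
    (∀ s t : ℕ, 1 ≤ s → s ≤ t → ∀ x ∈ avgDegrees s t,
      x ≤ 2 * (s - 1) + (t - 1) ∧
      x ≤ (((s : ℝ) - 1) - (t - 1) +
        Real.sqrt (((s : ℝ) - 1) ^ 2 + 22 * ((s : ℝ) - 1) * (t - 1) + 9 * ((t : ℝ) - 1) ^ 2)) / 2) ∧
    (∀ s t : ℕ, 1 ≤ s → s ≤ t → ∀ u ∈ upperBounds (avgDegrees s t),
      2 * Real.sqrt 2 * (s - 1) ≤ u) :=
  ⟨main_eq, fun _ _ hs hst _ hx => upper_bounds hs hst hx,
    fun _ _ hs hst _ hu => lower_bound hs hst hu⟩

end CGr
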