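import Pool.Agent.Work.MP_954b6f_co_helper49.Defs
import Pool.Agent.Work.MP_954b6f_co_helper49.Geo

/-!
# Circle graphs are overlap graphs of intervals
-/

set_option autoImplicit false

namespace CGr

open CircleKst

/-- overlap representation on the real line -/
def IsOverlap {V : Type*} (G : SimpleGraph V) : Prop :=
  ∃ a b : V → ℝ, Function.Injective (Sum.elim a b) ∧ (∀ v, a v < b v) ∧
    ∀ u v, G.Adj u v ↔ (a u < a v ∧ a v < b u ∧ b u < b v) ∨ (a v < a u ∧ a u < b v ∧ b v < b u)

lemma inj_facts {V : Type*} {X : Type*} {a b : V → X} (h : Function.Injective (Sum.elim a b)) :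
    (∀ u v, u ≠ v → a u ≠ a v) ∧ (∀ u v, u ≠ v → b u ≠ b v) ∧ ∀ u v, a u ≠ b v := by
  refine ⟨fun u v huv h1 => huv ?_, fun u v huv h1 => huv ?_, fun u v h1 => ?_⟩
  · exact Sum.inl_injective (h (a₁ := Sum.inl u) (a₂ := Sum.inl v) h1)
  · exact Sum.inr_injective (h (a₁ := Sum.inr u) (a₂ := Sum.inr v) h1)
  · exact Sum.inl_ne_inr (h (a₁ := Sum.inl u) (a₂ := Sum.inr v) h1)

lemma facts_inj {V : Type*} {X : Type*} {a b : V → X} (h1 : ∀ u v, u ≠ v → a u ≠ a v)
    (h2 : ∀ u v, u ≠ v → b u ≠ b v) (h3 : ∀ u v, a u ≠ b v) :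
    Function.Injective (Sum.elim a b) := by
  rintro (u | u) (v | v) h
  · by_contra hc
    exact h1 u v (fun e => hc (by rw [e])) h
  · exact absurd h (h3 u v)
  · exact absurd h.symm (h3 v u)
  · by_contra hc
    exact h2 u v (fun e => hc (by rw [e])) h

lemma mul_inter {A B C D : ℂ} (ω : ℂ) (h : (segment ℝ A B ∩ segment ℝ C D).Nonempty) :
    (segment ℝ (ω * A) (ω * B) ∩ segment ℝ (ω * C) (ω * D)).Nonempty := by
  obtain ⟨X, ⟨u, v, hu, hv, huv, h1⟩, ⟨u', v', hu', hv', huv', h2⟩⟩ := h
  refine ⟨ω * X, ⟨u, v, hu, hv, huv, ?_⟩, ⟨u', v', hu', hv', huv', ?_⟩⟩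
  · rw [← h1]
    simp only [Complex.real_smul]
    ring
  · rw [← h2]
    simp only [Complex.real_smul]
    ring

lemma mul_inter_iff {A B C D ω : ℂ} (hω : ω ≠ 0) :
    (segment ℝ (ω * A) (ω * B) ∩ segment ℝ (ω * C) (ω * D)).Nonempty ↔
      (segment ℝ A B ∩ segment ℝ C D).Nonempty := by
  constructor
  · intro h
    have := mul_inter ω⁻¹ h
    simpa only [inv_mul_cancel_left₀ hω] using this
  · exact mul_inter ω

lemma circle_of_overlap {V : Type*} {G : SimpleGraph V} (h : IsOverlap G) : IsCircleGraph G := by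
  obtain ⟨a, b, hinj, hlt, hadj⟩ := h
  obtain ⟨h1, h2, h3⟩ := inj_facts hinj
  refine ⟨fun v => cay (a v), fun v => cay (b v), fun v => ⟨cay_norm _, cay_norm _⟩, ?_, ?_⟩
  · exact facts_inj (fun u v huv e => h1 u v huv (cay_inj e))
      (fun u v huv e => h2 u v huv (cay_inj e)) (fun u v e => h3 u v (cay_inj e))
  · intro u v
    by_cases huv : u = v
    · subst huv
      simp
    · rw [chords_iff (hlt u) (hlt v) (h1 u v huv) (h3 u v) (h3 v u).symm (h2 u v huv), hadj]
      exact ⟨fun h => ⟨huv, h⟩, fun h => h.2⟩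

lemma overlap_of_circle {V : Type*} [Finite V] {G : SimpleGraph V} (h : IsCircleGraph G) :
    IsOverlap G := by
  obtain ⟨p, q, hn, hinj, hadj⟩ := h
  obtain ⟨h1, h2, h3⟩ := inj_facts hinj
  obtain ⟨ω, hω1, hω⟩ : ∃ ω : ℂ, ‖ω‖ = 1 ∧ ∀ v, ω * p v ≠ -1 ∧ ω * q v ≠ -1 := by
    have hfin : (Set.range (fun v => -(p v)⁻¹) ∪ Set.range (fun v => -(q v)⁻¹)).Finite :=
      (Set.finite_range _).union (Set.finite_range _)
    obtain ⟨ω, ⟨t, rfl⟩, ht⟩ := (Set.infinite_range_of_injective cay_inj).exists_notMem_finite hfin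
    refine ⟨cay t, cay_norm t, fun v => ⟨fun e => ht ?_, fun e => ht ?_⟩⟩
    · left
      have hp : p v ≠ 0 := by
        intro h0
        have := (hn v).1
        rw [h0, norm_zero] at this
        exact zero_ne_one this
      refine ⟨v, ?_⟩
      field_simp
      rw [← e]
      ring
    · right
      have hp : q v ≠ 0 := by
        intro h0
        have := (hn v).2
        rw [h0, norm_zero] at this
        exact zero_ne_one this
      refine ⟨v, ?_⟩
      field_simp
      rw [← e]
      ring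
  have hω0 : ω ≠ 0 := by
    intro h0
    rw [h0, norm_zero] at hω1
    exact zero_ne_one hω1
  have ep : ∀ v, ∃ t, cay t = ω * p v := fun v =>
    cay_surj (by rw [norm_mul, hω1, (hn v).1, one_mul]) (hω v).1
  have eq : ∀ v, ∃ t, cay t = ω * q v := fun v =>
    cay_surj (by rw [norm_mul, hω1, (hn v).2, one_mul]) (hω v).2
  choose a' ha' using ep
  choose b' hb' using eq
  have k1 : ∀ u v, u ≠ v → a' u ≠ a' v := by
    intro u v huv e
    apply h1 u v huv
    have := congrArg cay e
    rw [ha', ha'] at this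
    exact mul_left_cancel₀ hω0 this
  have k2 : ∀ u v, u ≠ v → b' u ≠ b' v := by
    intro u v huv e
    apply h2 u v huv
    have := congrArg cay e
    rw [hb', hb'] at this
    exact mul_left_cancel₀ hω0 this
  have k3 : ∀ u v, a' u ≠ b' v := by
    intro u v e
    apply h3 u v
    have := congrArg cay e
    rw [ha', hb'] at this
    exact mul_left_cancel₀ hω0 this
  have seg : ∀ v, segment ℝ (ω * p v) (ω * q v) =
      segment ℝ (cay (min (a' v) (b' v))) (cay (max (a' v) (b' v))) := by
    intro v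
    rw [← ha', ← hb']
    rcases le_total (a' v) (b' v) with h | h
    · rw [min_eq_left h, max_eq_right h]
    · rw [min_eq_right h, max_eq_left h, segment_symm]
  have hlt : ∀ v, min (a' v) (b' v) < max (a' v) (b' v) := by
    intro v
    exact min_lt_max.2 (k3 v v)
  have c1 : ∀ u v, u ≠ v → min (a' u) (b' u) ≠ min (a' v) (b' v) ∧
      min (a' u) (b' u) ≠ max (a' v) (b' v) ∧ max (a' u) (b' u) ≠ min (a' v) (b' v) ∧
      max (a' u) (b' u) ≠ max (a' v) (b' v) := by
    intro u v huv
    have e1 := k1 u v huv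
    have e2 := k2 u v huv
    have e3 := k3 u v
    have e4 := (k3 v u).symm
    rcases min_choice (a' u) (b' u) with h | h <;> rcases max_choice (a' u) (b' u) with h' | h' <;>
    rcases min_choice (a' v) (b' v) with h'' | h'' <;>
    rcases max_choice (a' v) (b' v) with h''' | h''' <;>
      rw [h, h', h'', h'''] <;> tauto
  refine ⟨fun v => min (a' v) (b' v), fun v => max (a' v) (b' v), ?_, hlt, ?_⟩
  · apply facts_inj
    · exact fun u v huv => (c1 u v huv).1
    · exact fun u v huv => (c1 u v huv).2.2.2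
    · intro u v
      by_cases huv : u = v
      · subst huv
        exact (hlt u).ne
      · exact (c1 u v huv).2.1
  · intro u v
    by_cases huv : u = v
    · subst huv
      simp
    · have e := c1 u v huv
      rw [hadj, ← mul_inter_iff hω0, seg, seg,
        chords_iff (hlt u) (hlt v) e.1 e.2.1 e.2.2.1 e.2.2.2]
      exact ⟨fun h => h.2, fun h => ⟨huv, h⟩⟩

end CGr
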