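import Pool.Agent.Work.MP_954b6f_co_helper49.Pre

/-!
# The polygon inequality

An abstract polygon: lines `x` (a finite set `S` of children and one more line `t`, which comes
last), each with a finite set `A x` of points (integers), the lines being ordered by `κ`; and a
noncrossing partial matching `Lk` of the points which joins points of different lines.
For every `i`: the number of pairs of lines joined by at least `i+1` links, plus the number of
links at depth exactly `i`, is at most the sum over the children of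
`[i + 1 ≤ #A x] + min 2 (#A x - 2 i)`.
-/

set_option autoImplicit false

open Finset

namespace CGr

structure Poly (ι β : Type) [DecidableEq ι] where
  κ : ι → ℤ
  A : ι → Finset ℤ
  S : Finset ι
  t : ι
  Lk : Finset β
  src : β → ι
  dst : β → ι
  ps : β → ℤ
  pd : β → ℤ
  κinj : ∀ x ∈ insert t S, ∀ y ∈ insert t S, κ x = κ y → x = y
  κt : ∀ x ∈ S, κ x < κ t
  hA : ∀ x ∈ insert t S, ∀ y ∈ insert t S, κ x < κ y → ∀ u ∈ A x, ∀ v ∈ A y, u < v
  hsrc : ∀ l ∈ Lk, src l ∈ S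
  hdst : ∀ l ∈ Lk, dst l ∈ insert t S
  hlt : ∀ l ∈ Lk, κ (src l) < κ (dst l)
  hps : ∀ l ∈ Lk, ps l ∈ A (src l)
  hpd : ∀ l ∈ Lk, pd l ∈ A (dst l)
  psinj : ∀ l ∈ Lk, ∀ l' ∈ Lk, ps l = ps l' → l = l'
  pdinj : ∀ l ∈ Lk, ∀ l' ∈ Lk, pd l = pd l' → l = l'
  pspd : ∀ l ∈ Lk, ∀ l' ∈ Lk, ps l ≠ pd l'
  nc : ∀ l ∈ Lk, ∀ l' ∈ Lk, ¬ (ps l < ps l' ∧ ps l' < pd l ∧ pd l < pd l')

/-- the weight of a line at level `i` -/
def lam (i n : ℕ) : ℕ := (if i + 1 ≤ n then 1 else 0) + min 2 (n - 2 * i)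

namespace Poly

variable {ι β : Type} [DecidableEq ι] (P : Poly ι β)

/-- all the lines -/
def T : Finset ι := insert P.t P.S

/-- the links from `x` to `y` -/
def lk (x y : ι) : Finset β := P.Lk.filter (fun l => P.src l = x ∧ P.dst l = y)

/-- their number -/
def w (x y : ι) : ℕ := (P.lk x y).card

/-- the pairs of lines joined by at least `i + 1` links -/
def E (i : ℕ) : Finset (ι × ι) := (P.S ×ˢ P.T).filter (fun p => i + 1 ≤ P.w p.1 p.2)

/-- the links at depth exactly `i` -/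
def D (i : ℕ) : Finset β := P.Lk.filter (fun l =>
  (i ≤ pre (P.A (P.src l)) (P.ps l) ∧ i ≤ post (P.A (P.src l)) (P.ps l) ∧
   i ≤ pre (P.A (P.dst l)) (P.pd l) ∧ i ≤ post (P.A (P.dst l)) (P.pd l)) ∧
  (pre (P.A (P.src l)) (P.ps l) = i ∨ post (P.A (P.src l)) (P.ps l) = i ∨
   pre (P.A (P.dst l)) (P.pd l) = i ∨ post (P.A (P.dst l)) (P.pd l) = i))

/-- the long lines -/
def Q (i : ℕ) : Finset ι := P.T.filter (fun x => 2 * i + 1 ≤ (P.A x).card)

lemma mem_lk {x y : ι} {l : β} : l ∈ P.lk x y ↔ l ∈ P.Lk ∧ P.src l = x ∧ P.dst l = y := by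
  simp [lk]

lemma S_sub_T : P.S ⊆ P.T := subset_insert _ _

lemma t_mem_T : P.t ∈ P.T := mem_insert_self _ _

lemma t_notMem_S : P.t ∉ P.S := fun h => lt_irrefl _ (P.κt _ h)

lemma src_T {l : β} (h : l ∈ P.Lk) : P.src l ∈ P.T := P.S_sub_T (P.hsrc l h)

lemma dst_T {l : β} (h : l ∈ P.Lk) : P.dst l ∈ P.T := P.hdst l h

lemma line_unique {x y : ι} (hx : x ∈ P.T) (hy : y ∈ P.T) {u : ℤ} (hu : u ∈ P.A x)
    (hv : u ∈ P.A y) : x = y := by
  rcases lt_trichotomy (P.κ x) (P.κ y) with h | h | h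
  · exact absurd (P.hA x hx y hy h u hu u hv) (lt_irrefl _)
  · exact P.κinj x hx y hy h
  · exact absurd (P.hA y hy x hx h u hv u hu) (lt_irrefl _)

/-- points on later lines are larger -/
lemma κle {x y : ι} (hx : x ∈ P.T) (hy : y ∈ P.T) {u v : ℤ} (hu : u ∈ P.A x)
    (hv : v ∈ P.A y) (h : u ≤ v) : P.κ x ≤ P.κ y := by
  by_contra hc
  have := P.hA y hy x hx (by omega) v hv u hu
  omega

lemma psinjOn (x y : ι) : Set.InjOn P.ps (P.lk x y) := by
  intro l hl l' hl' h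
  exact P.psinj l ((P.mem_lk).1 hl).1 l' ((P.mem_lk).1 hl').1 h

lemma pdinjOn (x y : ι) : Set.InjOn P.pd (P.lk x y) := by
  intro l hl l' hl' h
  exact P.pdinj l ((P.mem_lk).1 hl).1 l' ((P.mem_lk).1 hl').1 h

lemma ps_sub (x y : ι) : (P.lk x y).image P.ps ⊆ P.A x := by
  intro u hu
  obtain ⟨l, hl, rfl⟩ := mem_image.1 hu
  obtain ⟨h1, rfl, rfl⟩ := (P.mem_lk).1 hl
  exact P.hps l h1

lemma pd_sub (x y : ι) : (P.lk x y).image P.pd ⊆ P.A y := by
  intro u hu
  obtain ⟨l, hl, rfl⟩ := mem_image.1 hu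
  obtain ⟨h1, rfl, rfl⟩ := (P.mem_lk).1 hl
  exact P.hpd l h1

lemma card_ps (x y : ι) : ((P.lk x y).image P.ps).card = P.w x y :=
  card_image_of_injOn (P.psinjOn x y)

lemma card_pd (x y : ι) : ((P.lk x y).image P.pd).card = P.w x y :=
  card_image_of_injOn (P.pdinjOn x y)

lemma w_le_left (x y : ι) : P.w x y ≤ (P.A x).card := by
  rw [← P.card_ps x y]; exact card_le_card (P.ps_sub x y)

lemma w_le_right (x y : ι) : P.w x y ≤ (P.A y).card := by
  rw [← P.card_pd x y]; exact card_le_card (P.pd_sub x y)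

lemma strips_a {x y y' : ι} (h : y ≠ y') : P.w x y + P.w x y' ≤ (P.A x).card := by
  rw [← P.card_ps x y, ← P.card_ps x y', ← card_union_of_disjoint]
  · exact card_le_card (union_subset (P.ps_sub x y) (P.ps_sub x y'))
  · rw [Finset.disjoint_left]
    intro u hu hu'
    obtain ⟨l, hl, rfl⟩ := mem_image.1 hu
    obtain ⟨l', hl', he⟩ := mem_image.1 hu'
    rw [P.mem_lk] at hl hl'
    have := P.psinj l' hl'.1 l hl.1 he
    subst this
    exact h (hl.2.2.symm.trans hl'.2.2)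

lemma strips_b {x x' y : ι} (h : x ≠ x') : P.w x y + P.w x' y ≤ (P.A y).card := by
  rw [← P.card_pd x y, ← P.card_pd x' y, ← card_union_of_disjoint]
  · exact card_le_card (union_subset (P.pd_sub x y) (P.pd_sub x' y))
  · rw [Finset.disjoint_left]
    intro u hu hu'
    obtain ⟨l, hl, rfl⟩ := mem_image.1 hu
    obtain ⟨l', hl', he⟩ := mem_image.1 hu'
    rw [P.mem_lk] at hl hl'
    have := P.pdinj l' hl'.1 l hl.1 he
    subst this
    exact h (hl.2.1.symm.trans hl'.2.1)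

lemma strips_c {x y z : ι} : P.w x y + P.w y z ≤ (P.A y).card := by
  rw [← P.card_pd x y, ← P.card_ps y z, ← card_union_of_disjoint]
  · exact card_le_card (union_subset (P.pd_sub x y) (P.ps_sub y z))
  · rw [Finset.disjoint_left]
    intro u hu hu'
    obtain ⟨l, hl, rfl⟩ := mem_image.1 hu
    obtain ⟨l', hl', he⟩ := mem_image.1 hu'
    rw [P.mem_lk] at hl hl'
    exact P.pspd l' hl'.1 l hl.1 he

/-- two different strips at a line -/
lemma strips {p q : ι × ι} {z : ι} (hpq : p ≠ q) (hp : p.1 = z ∨ p.2 = z)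
    (hq : q.1 = z ∨ q.2 = z) : P.w p.1 p.2 + P.w q.1 q.2 ≤ (P.A z).card := by
  obtain ⟨a, b⟩ := p
  obtain ⟨c, d⟩ := q
  simp only at hp hq ⊢
  rcases hp with rfl | rfl <;> rcases hq with rfl | rfl
  · exact P.strips_a (fun h => hpq (by rw [h]))
  · rw [add_comm]; exact P.strips_c
  · exact P.strips_c
  · exact P.strips_b (fun h => hpq (by rw [h]))

lemma κlt_of_w {x y : ι} (h : 0 < P.w x y) : P.κ x < P.κ y := by
  obtain ⟨l, hl⟩ := card_pos.1 h
  rw [P.mem_lk] at hl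
  have := P.hlt l hl.1
  rwa [hl.2.1, hl.2.2] at this

lemma mem_Q {i : ℕ} {x : ι} : x ∈ P.Q i ↔ x ∈ P.T ∧ 2 * i + 1 ≤ (P.A x).card := by
  simp [Q]

lemma mem_D {i : ℕ} {l : β} : l ∈ P.D i ↔ l ∈ P.Lk ∧
  (i ≤ pre (P.A (P.src l)) (P.ps l) ∧ i ≤ post (P.A (P.src l)) (P.ps l) ∧
   i ≤ pre (P.A (P.dst l)) (P.pd l) ∧ i ≤ post (P.A (P.dst l)) (P.pd l)) ∧
  (pre (P.A (P.src l)) (P.ps l) = i ∨ post (P.A (P.src l)) (P.ps l) = i ∨
   pre (P.A (P.dst l)) (P.pd l) = i ∨ post (P.A (P.dst l)) (P.pd l) = i) := by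
  simp only [D, mem_filter]

lemma D_src {i : ℕ} {l : β} (h : l ∈ P.D i) : P.src l ∈ P.Q i := by
  rw [P.mem_D] at h
  rw [P.mem_Q]
  have := pre_add_post (P.hps l h.1)
  exact ⟨P.src_T h.1, by omega⟩

lemma D_dst {i : ℕ} {l : β} (h : l ∈ P.D i) : P.dst l ∈ P.Q i := by
  rw [P.mem_D] at h
  rw [P.mem_Q]
  have := pre_add_post (P.hpd l h.1)
  exact ⟨P.dst_T h.1, by omega⟩

/-- among at least `i+1` links from `x` to `y` one has its first point before `u` -/
lemma exists_ps_le {i : ℕ} {x y : ι} (h : i + 1 ≤ P.w x y) {u : ℤ} (hu : post (P.A x) u ≤ i) :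
    ∃ g ∈ P.lk x y, P.ps g ≤ u := by
  by_contra hc
  push Not at hc
  have : (P.lk x y).image P.ps ⊆ (P.A x).filter (fun v => u < v) := by
    intro v hv
    obtain ⟨l, hl, rfl⟩ := mem_image.1 hv
    exact mem_filter.2 ⟨P.ps_sub x y hv, hc l hl⟩
  have := card_le_card this
  rw [P.card_ps] at this
  unfold post at hu
  omega

lemma exists_pd_le {i : ℕ} {x y : ι} (h : i + 1 ≤ P.w x y) {u : ℤ} (hu : post (P.A y) u ≤ i) :
    ∃ g ∈ P.lk x y, P.pd g ≤ u := by
  by_contra hc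
  push Not at hc
  have : (P.lk x y).image P.pd ⊆ (P.A y).filter (fun v => u < v) := by
    intro v hv
    obtain ⟨l, hl, rfl⟩ := mem_image.1 hv
    exact mem_filter.2 ⟨P.pd_sub x y hv, hc l hl⟩
  have := card_le_card this
  rw [P.card_pd] at this
  unfold post at hu
  omega

lemma exists_ps_ge {i : ℕ} {x y : ι} (h : i + 1 ≤ P.w x y) {u : ℤ} (hu : pre (P.A x) u ≤ i) :
    ∃ g ∈ P.lk x y, u ≤ P.ps g := by
  by_contra hc
  push Not at hc
  have : (P.lk x y).image P.ps ⊆ (P.A x).filter (fun v => v < u) := by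
    intro v hv
    obtain ⟨l, hl, rfl⟩ := mem_image.1 hv
    exact mem_filter.2 ⟨P.ps_sub x y hv, hc l hl⟩
  have := card_le_card this
  rw [P.card_ps] at this
  unfold pre at hu
  omega

lemma exists_pd_ge {i : ℕ} {x y : ι} (h : i + 1 ≤ P.w x y) {u : ℤ} (hu : pre (P.A y) u ≤ i) :
    ∃ g ∈ P.lk x y, u ≤ P.pd g := by
  by_contra hc
  push Not at hc
  have : (P.lk x y).image P.pd ⊆ (P.A y).filter (fun v => v < u) := by
    intro v hv
    obtain ⟨l, hl, rfl⟩ := mem_image.1 hv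
    exact mem_filter.2 ⟨P.pd_sub x y hv, hc l hl⟩
  have := card_le_card this
  rw [P.card_pd] at this
  unfold pre at hu
  omega

/-- two links at depth `i` between the same lines, one of them at distance `i` from the inner
end of its first line, the other at distance `i` from the inner end of its second line -/
lemma same_inner {i : ℕ} {x y : ι} (hxy : P.κ x < P.κ y) (hx : x ∈ P.T) (hy : y ∈ P.T)
    {l l' : β} (hl : l ∈ P.D i) (hl' : l' ∈ P.D i)
    (h1 : P.src l = x) (h2 : P.dst l = y) (h1' : P.src l' = x) (h2' : P.dst l' = y)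
    (hu : post (P.A x) (P.ps l) = i) (hv : pre (P.A y) (P.pd l') = i) : l = l' := by
  rw [P.mem_D] at hl hl'
  rw [h1, h2] at hl
  rw [h1', h2'] at hl'
  have a1 := P.hps l hl.1
  have a2 := P.hpd l hl.1
  have a3 := P.hps l' hl'.1
  have a4 := P.hpd l' hl'.1
  rw [h1] at a1; rw [h2] at a2; rw [h1'] at a3; rw [h2'] at a4
  have b1 : P.pd l' ≤ P.pd l := le_of_pre_le a2 (by omega)
  have b2 : P.ps l' ≤ P.ps l := le_of_post_le a3 (by omega)
  by_contra hne
  have c1 : P.ps l' ≠ P.ps l := fun h => hne (P.psinj l' hl'.1 l hl.1 h).symm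
  have c2 : P.pd l' ≠ P.pd l := fun h => hne (P.pdinj l' hl'.1 l hl.1 h).symm
  have c3 := P.hA x hx y hy hxy _ a1 _ a4
  exact P.nc l' hl'.1 l hl.1 ⟨by omega, by omega, by omega⟩

/-- the same at the outer end -/
lemma same_outer {i : ℕ} {x y : ι} (hxy : P.κ x < P.κ y) (hx : x ∈ P.T) (hy : y ∈ P.T)
    {l l' : β} (hl : l ∈ P.D i) (hl' : l' ∈ P.D i)
    (h1 : P.src l = x) (h2 : P.dst l = y) (h1' : P.src l' = x) (h2' : P.dst l' = y)
    (hu : pre (P.A x) (P.ps l) = i) (hv : post (P.A y) (P.pd l') = i) : l = l' := by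
  rw [P.mem_D] at hl hl'
  rw [h1, h2] at hl
  rw [h1', h2'] at hl'
  have a1 := P.hps l hl.1
  have a2 := P.hpd l hl.1
  have a3 := P.hps l' hl'.1
  have a4 := P.hpd l' hl'.1
  rw [h1] at a1; rw [h2] at a2; rw [h1'] at a3; rw [h2'] at a4
  have b1 : P.ps l ≤ P.ps l' := le_of_pre_le a3 (by omega)
  have b2 : P.pd l ≤ P.pd l' := le_of_post_le a2 (by omega)
  by_contra hne
  have c1 : P.ps l' ≠ P.ps l := fun h => hne (P.psinj l' hl'.1 l hl.1 h).symm
  have c2 : P.pd l' ≠ P.pd l := fun h => hne (P.pdinj l' hl'.1 l hl.1 h).symm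
  have c3 := P.hA x hx y hy hxy _ a3 _ a2
  exact P.nc l hl.1 l' hl'.1 ⟨by omega, by omega, by omega⟩

/-- consecutive long lines, joined by at least `i + 1` links -/
def inner (i : ℕ) (x y : ι) : Prop := P.κ x < P.κ y ∧
  (∀ z ∈ P.Q i, ¬ (P.κ x < P.κ z ∧ P.κ z < P.κ y)) ∧ i + 1 ≤ P.w x y

/-- the last and the first long line, joined by at least `i + 1` links -/
def outer (i : ℕ) (x y : ι) : Prop := P.κ y < P.κ x ∧
  (∀ z ∈ P.Q i, P.κ y ≤ P.κ z ∧ P.κ z ≤ P.κ x) ∧ i + 1 ≤ P.w y x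

lemma gap_inner {i : ℕ} {x y : ι} (hx : x ∈ P.Q i) (hy : y ∈ P.Q i) (h : P.inner i x y)
    {l l' : β} (hl : l ∈ P.D i) (hl' : l' ∈ P.D i) {u v : ℤ} (hu : u ∈ P.A x)
    (hv : v ∈ P.A y) (hu' : post (P.A x) u = i) (hv' : pre (P.A y) v = i)
    (h1 : P.ps l = u ∨ P.pd l = u) (h2 : P.ps l' = v ∨ P.pd l' = v) : l = l' := by
  obtain ⟨hxy, hcons, hw⟩ := h
  have hxT := (P.mem_Q.1 hx).1
  have hyT := (P.mem_Q.1 hy).1
  have hlL := (P.mem_D.1 hl).1
  have hlL' := (P.mem_D.1 hl').1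
  -- the link at `u`
  obtain ⟨g, hg, hgu⟩ := P.exists_ps_le hw (u := u) hu'.le
  rw [P.mem_lk] at hg
  have g1 := P.hps g hg.1
  have g2 := P.hpd g hg.1
  rw [hg.2.1] at g1; rw [hg.2.2] at g2
  have hA1 := P.hA x hxT y hyT hxy u hu _ g2
  have A1 : P.src l = x ∧ P.dst l = y ∧ P.ps l = u := by
    rcases h1 with h1 | h1
    · have e1 : P.src l = x := P.line_unique (P.src_T hlL) hxT (P.hps l hlL) (by rw [h1]; exact hu)
      refine ⟨e1, ?_, h1⟩
      rcases eq_or_ne l g with rfl | hne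
      · exact hg.2.2
      · have c1 : P.ps g ≠ P.ps l := fun h => hne (P.psinj g hg.1 l hlL h).symm
        have c2 : P.pd g ≠ P.pd l := fun h => hne (P.pdinj g hg.1 l hlL h).symm
        have c3 : P.pd l < P.pd g := by
          by_contra hc
          exact P.nc g hg.1 l hlL ⟨by omega, by omega, by omega⟩
        have c4 := P.κle (P.dst_T hlL) hyT (P.hpd l hlL) g2 c3.le
        have c5 := P.hlt l hlL
        rw [e1] at c5
        have c6 := hcons _ (P.D_dst hl)
        exact P.κinj _ (P.dst_T hlL) y hyT (by omega)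
    · exfalso
      have e1 : P.dst l = x := P.line_unique (P.dst_T hlL) hxT (P.hpd l hlL) (by rw [h1]; exact hu)
      have c1 : P.ps g ≠ P.pd l := P.pspd g hg.1 l hlL
      have c2 := P.hlt l hlL
      rw [e1] at c2
      have c3 := P.hA _ (P.src_T hlL) x hxT c2 _ (P.hps l hlL) _ g1
      exact P.nc l hlL g hg.1 ⟨by omega, by omega, by omega⟩
  -- the link at `v`
  obtain ⟨g', hg', hgv⟩ := P.exists_pd_ge hw (u := v) hv'.le
  rw [P.mem_lk] at hg'
  have g1' := P.hps g' hg'.1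
  have g2' := P.hpd g' hg'.1
  rw [hg'.2.1] at g1'; rw [hg'.2.2] at g2'
  have hA2 := P.hA x hxT y hyT hxy _ g1' v hv
  have A2 : P.src l' = x ∧ P.dst l' = y ∧ P.pd l' = v := by
    rcases h2 with h2 | h2
    · exfalso
      have e1 : P.src l' = y :=
        P.line_unique (P.src_T hlL') hyT (P.hps l' hlL') (by rw [h2]; exact hv)
      have c1 : P.ps l' ≠ P.pd g' := P.pspd l' hlL' g' hg'.1
      have c2 := P.hlt l' hlL'
      rw [e1] at c2
      have c3 := P.hA y hyT _ (P.dst_T hlL') c2 _ g2' _ (P.hpd l' hlL')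
      exact P.nc g' hg'.1 l' hlL' ⟨by omega, by omega, by omega⟩
    · have e1 : P.dst l' = y :=
        P.line_unique (P.dst_T hlL') hyT (P.hpd l' hlL') (by rw [h2]; exact hv)
      refine ⟨?_, e1, h2⟩
      rcases eq_or_ne l' g' with rfl | hne
      · exact hg'.2.1
      · have c1 : P.ps g' ≠ P.ps l' := fun h => hne (P.psinj g' hg'.1 l' hlL' h).symm
        have c2 : P.pd g' ≠ P.pd l' := fun h => hne (P.pdinj g' hg'.1 l' hlL' h).symm
        have c3 : P.ps g' < P.ps l' := by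
          by_contra hc
          exact P.nc l' hlL' g' hg'.1 ⟨by omega, by omega, by omega⟩
        have c4 := P.κle hxT (P.src_T hlL') g1' (P.hps l' hlL') c3.le
        have c5 := P.hlt l' hlL'
        rw [e1] at c5
        have c6 := hcons _ (P.D_src hl')
        exact P.κinj _ (P.src_T hlL') x hxT (by omega)
  obtain ⟨a1, a2, a3⟩ := A1
  obtain ⟨b1, b2, b3⟩ := A2
  exact P.same_inner hxy hxT hyT hl hl' a1 a2 b1 b2 (by rw [a3]; exact hu')
    (by rw [b3]; exact hv')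

lemma gap_outer {i : ℕ} {x y : ι} (hx : x ∈ P.Q i) (hy : y ∈ P.Q i) (h : P.outer i x y)
    {l l' : β} (hl : l ∈ P.D i) (hl' : l' ∈ P.D i) {u v : ℤ} (hu : u ∈ P.A x)
    (hv : v ∈ P.A y) (hu' : post (P.A x) u = i) (hv' : pre (P.A y) v = i)
    (h1 : P.ps l = u ∨ P.pd l = u) (h2 : P.ps l' = v ∨ P.pd l' = v) : l = l' := by
  obtain ⟨hxy, hcons, hw⟩ := h
  have hxT := (P.mem_Q.1 hx).1
  have hyT := (P.mem_Q.1 hy).1
  have hlL := (P.mem_D.1 hl).1
  have hlL' := (P.mem_D.1 hl').1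
  -- the link at `u`
  obtain ⟨g, hg, hgu⟩ := P.exists_pd_le hw (u := u) hu'.le
  rw [P.mem_lk] at hg
  have g1 := P.hps g hg.1
  have g2 := P.hpd g hg.1
  rw [hg.2.1] at g1; rw [hg.2.2] at g2
  have A1 : P.src l = y ∧ P.dst l = x ∧ P.pd l = u := by
    rcases h1 with h1 | h1
    · exfalso
      have e1 : P.src l = x := P.line_unique (P.src_T hlL) hxT (P.hps l hlL) (by rw [h1]; exact hu)
      have c2 := P.hlt l hlL
      rw [e1] at c2
      have := (hcons _ (P.D_dst hl)).2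
      omega
    · have e1 : P.dst l = x := P.line_unique (P.dst_T hlL) hxT (P.hpd l hlL) (by rw [h1]; exact hu)
      refine ⟨?_, e1, h1⟩
      rcases eq_or_ne l g with rfl | hne
      · exact hg.2.1
      · have c1 : P.ps g ≠ P.ps l := fun h => hne (P.psinj g hg.1 l hlL h).symm
        have c2 : P.pd g ≠ P.pd l := fun h => hne (P.pdinj g hg.1 l hlL h).symm
        have c5 := P.hlt l hlL
        rw [e1] at c5
        have c6 := P.hA _ (P.src_T hlL) x hxT c5 _ (P.hps l hlL) _ g2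
        have c3 : P.ps l < P.ps g := by
          by_contra hc
          exact P.nc g hg.1 l hlL ⟨by omega, by omega, by omega⟩
        have c4 := P.κle (P.src_T hlL) hyT (P.hps l hlL) g1 c3.le
        have c7 := (hcons _ (P.D_src hl)).1
        exact P.κinj _ (P.src_T hlL) y hyT (by omega)
  -- the link at `v`
  obtain ⟨g', hg', hgv⟩ := P.exists_ps_ge hw (u := v) hv'.le
  rw [P.mem_lk] at hg'
  have g1' := P.hps g' hg'.1
  have g2' := P.hpd g' hg'.1
  rw [hg'.2.1] at g1'; rw [hg'.2.2] at g2'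
  have A2 : P.src l' = y ∧ P.dst l' = x ∧ P.ps l' = v := by
    rcases h2 with h2 | h2
    · have e1 : P.src l' = y :=
        P.line_unique (P.src_T hlL') hyT (P.hps l' hlL') (by rw [h2]; exact hv)
      refine ⟨e1, ?_, h2⟩
      rcases eq_or_ne l' g' with rfl | hne
      · exact hg'.2.2
      · have c1 : P.ps g' ≠ P.ps l' := fun h => hne (P.psinj g' hg'.1 l' hlL' h).symm
        have c2 : P.pd g' ≠ P.pd l' := fun h => hne (P.pdinj g' hg'.1 l' hlL' h).symm
        have c5 := P.hlt l' hlL'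
        rw [e1] at c5
        have c6 := P.hA y hyT _ (P.dst_T hlL') c5 _ g1' _ (P.hpd l' hlL')
        have c3 : P.pd g' < P.pd l' := by
          by_contra hc
          exact P.nc l' hlL' g' hg'.1 ⟨by omega, by omega, by omega⟩
        have c4 := P.κle hxT (P.dst_T hlL') g2' (P.hpd l' hlL') c3.le
        have c7 := (hcons _ (P.D_dst hl')).2
        exact P.κinj _ (P.dst_T hlL') x hxT (by omega)
    · exfalso
      have e1 : P.dst l' = y :=
        P.line_unique (P.dst_T hlL') hyT (P.hpd l' hlL') (by rw [h2]; exact hv)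
      have c2 := P.hlt l' hlL'
      rw [e1] at c2
      have := (hcons _ (P.D_src hl')).1
      omega
  obtain ⟨a1, a2, a3⟩ := A1
  obtain ⟨b1, b2, b3⟩ := A2
  exact (P.same_outer hxy hyT hxT hl' hl b1 b2 a1 a2 (by rw [b3]; exact hv')
    (by rw [a3]; exact hu')).symm

end Poly

end CGr
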