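import Pool.Agent.Work.MP_954b6f_co_helper49.Poly

/-!
# The polygon inequality: counting
-/

set_option autoImplicit false

open Finset

namespace CGr

namespace Poly

variable {ι β : Type} [DecidableEq ι] (P : Poly ι β)

/-- the tokens of level `i` -/
def Tok (i : ℕ) : Finset ℤ := (P.Q i).biUnion (fun x => tok i (P.A x))

lemma card_Tok (i : ℕ) : (P.Tok i).card ≤ ∑ x ∈ P.Q i, min 2 ((P.A x).card - 2 * i) := by
  refine card_biUnion_le.trans (sum_le_sum fun x _ => ?_)
  rw [card_tok]

/-- a token of a link of level `i` -/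
def choice (i : ℕ) (l : β) : ℤ :=
  if pre (P.A (P.src l)) (P.ps l) = i ∨ post (P.A (P.src l)) (P.ps l) = i then P.ps l else P.pd l

lemma choice_or (i : ℕ) (l : β) : P.ps l = P.choice i l ∨ P.pd l = P.choice i l := by
  unfold choice; split_ifs
  · exact Or.inl rfl
  · exact Or.inr rfl

lemma choice_mem {i : ℕ} {l : β} (h : l ∈ P.D i) : P.choice i l ∈ P.Tok i := by
  have h1 := P.mem_D.1 h
  unfold choice Tok
  rw [mem_biUnion]
  split_ifs with hc
  · exact ⟨P.src l, P.D_src h, mem_filter.2 ⟨P.hps l h1.1, h1.2.1.1, h1.2.1.2.1, hc⟩⟩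
  · refine ⟨P.dst l, P.D_dst h, mem_filter.2 ⟨P.hpd l h1.1, h1.2.1.2.2.1, h1.2.1.2.2.2, ?_⟩⟩
    rcases h1.2.2 with h2 | h2 | h2 | h2
    · exact absurd (Or.inl h2) hc
    · exact absurd (Or.inr h2) hc
    · exact Or.inl h2
    · exact Or.inr h2

lemma choice_inj {i : ℕ} {l l' : β} (h : l ∈ P.D i) (h' : l' ∈ P.D i)
    (he : P.choice i l = P.choice i l') : l = l' := by
  have h1 := (P.mem_D.1 h).1
  have h1' := (P.mem_D.1 h').1
  rcases P.choice_or i l with h2 | h2 <;> rcases P.choice_or i l' with h3 | h3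
  · exact P.psinj l h1 l' h1' (by omega)
  · exact absurd (show P.ps l = P.pd l' by omega) (P.pspd l h1 l' h1')
  · exact absurd (show P.ps l' = P.pd l by omega) (P.pspd l' h1' l h1)
  · exact P.pdinj l h1 l' h1' (by omega)

/-- the point with exactly `i` points after it -/
noncomputable def pp (i : ℕ) (x : ι) : ℤ :=
  if h : i < (P.A x).card then (exists_post h).choose else 0

/-- the point with exactly `i` points before it -/
noncomputable def pq (i : ℕ) (x : ι) : ℤ :=
  if h : i < (P.A x).card then (exists_pre h).choose else 0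

lemma pp_spec {i : ℕ} {x : ι} (h : x ∈ P.Q i) : P.pp i x ∈ P.A x ∧ post (P.A x) (P.pp i x) = i := by
  have h1 : i < (P.A x).card := by have := (P.mem_Q.1 h).2; omega
  simp only [pp, h1, dif_pos]
  exact (exists_post h1).choose_spec

lemma pq_spec {i : ℕ} {x : ι} (h : x ∈ P.Q i) : P.pq i x ∈ P.A x ∧ pre (P.A x) (P.pq i x) = i := by
  have h1 : i < (P.A x).card := by have := (P.mem_Q.1 h).2; omega
  simp only [pq, h1, dif_pos]
  exact (exists_pre h1).choose_spec

/-- the sides of the polygon of long lines which carry at least `i+1` links -/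
def side (i : ℕ) (x y : ι) : Prop := P.inner i x y ∨ P.outer i x y

open Classical in
noncomputable def Gam (i : ℕ) : Finset (ι × ι) :=
  (P.Q i ×ˢ P.Q i).filter (fun p => P.side i p.1 p.2)

lemma mem_Gam {i : ℕ} {p : ι × ι} : p ∈ P.Gam i ↔ (p.1 ∈ P.Q i ∧ p.2 ∈ P.Q i) ∧
    P.side i p.1 p.2 := by
  simp [Gam, mem_filter, mem_product]

lemma Q_T {i : ℕ} {x : ι} (h : x ∈ P.Q i) : x ∈ P.T := (P.mem_Q.1 h).1

lemma side_right {i : ℕ} {x y y' : ι} (_hx : x ∈ P.Q i) (hy : y ∈ P.Q i) (hy' : y' ∈ P.Q i)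
    (h : P.side i x y) (h' : P.side i x y') : y = y' := by
  apply P.κinj y (P.Q_T hy) y' (P.Q_T hy')
  rcases h with ⟨a, b, _⟩ | ⟨a, b, _⟩ <;> rcases h' with ⟨a', b', _⟩ | ⟨a', b', _⟩
  · have := b y' hy'; have := b' y hy; omega
  · have := b' y hy; omega
  · have := b y' hy'; omega
  · have := b y' hy'; have := b' y hy; omega

lemma side_left {i : ℕ} {x x' y : ι} (hx : x ∈ P.Q i) (hx' : x' ∈ P.Q i) (_hy : y ∈ P.Q i)
    (h : P.side i x y) (h' : P.side i x' y) : x = x' := by
  apply P.κinj x (P.Q_T hx) x' (P.Q_T hx')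
  rcases h with ⟨a, b, _⟩ | ⟨a, b, _⟩ <;> rcases h' with ⟨a', b', _⟩ | ⟨a', b', _⟩
  · have := b x' hx'; have := b' x hx; omega
  · have := b' x hx; omega
  · have := b x' hx'; omega
  · have := b x' hx'; have := b' x hx; omega

lemma side_ne {i : ℕ} {x y : ι} (h : P.side i x y) : P.κ x ≠ P.κ y := by
  rcases h with ⟨a, _⟩ | ⟨a, _⟩ <;> omega

/-- the strip of a side -/
def strip (p : ι × ι) : ι × ι := if P.κ p.1 < P.κ p.2 then p else (p.2, p.1)

lemma strip_w {i : ℕ} {p : ι × ι} (h : P.side i p.1 p.2) :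
    i + 1 ≤ P.w (P.strip p).1 (P.strip p).2 := by
  unfold strip
  rcases h with ⟨a, _, c⟩ | ⟨a, _, c⟩
  · rw [if_pos a]; exact c
  · rw [if_neg (by omega)]; exact c

lemma strip_mem {p : ι × ι} {z : ι} (h : p.1 = z ∨ p.2 = z) :
    (P.strip p).1 = z ∨ (P.strip p).2 = z := by
  unfold strip
  split_ifs
  · exact h
  · exact h.symm

/-- with at least three long lines the sides before and after a line are different strips -/
lemma strip_ne {i : ℕ} (hK : 3 ≤ (P.Q i).card) {x y z : ι} (hx : x ∈ P.Q i) (hy : y ∈ P.Q i)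
    (hz : z ∈ P.Q i) (h : P.side i x y) (h' : P.side i y z) : P.strip (x, y) ≠ P.strip (y, z) := by
  intro he
  have hxy := P.side_ne h
  have hyz := P.side_ne h'
  have hxz : x = z := by
    unfold strip at he
    simp only at he
    split_ifs at he with h1 h2 h2
    · have e1 := congrArg Prod.fst he; simp only at e1; subst e1; exact absurd rfl hxy
    · have e1 := congrArg Prod.fst he; simpa using e1
    · have e1 := congrArg Prod.snd he; simpa using e1
    · have e1 := congrArg Prod.fst he; simp only at e1; subst e1; exact absurd rfl hyz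
  subst hxz
  -- a third line
  obtain ⟨v, hv, hv1⟩ : ∃ v ∈ P.Q i, v ≠ x ∧ v ≠ y := by
    have h1 : 0 < (((P.Q i).erase x).erase y).card := by
      have h2 := pred_card_le_card_erase (s := P.Q i) (a := x)
      have h3 := pred_card_le_card_erase (s := (P.Q i).erase x) (a := y)
      omega
    obtain ⟨v, hv⟩ := card_pos.1 h1
    simp only [mem_erase] at hv
    exact ⟨v, hv.2.2, hv.2.1, hv.1⟩
  have k1 : P.κ v ≠ P.κ x := fun h => hv1.1 (P.κinj v (P.Q_T hv) x (P.Q_T hx) h)
  have k2 : P.κ v ≠ P.κ y := fun h => hv1.2 (P.κinj v (P.Q_T hv) y (P.Q_T hy) h)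
  rcases h with ⟨a, b, _⟩ | ⟨a, b, _⟩ <;> rcases h' with ⟨a', b', _⟩ | ⟨a', b', _⟩
  · omega
  · have := b v hv; have := b' v hv; omega
  · have := b v hv; have := b' v hv; omega
  · omega

open Classical in
/-- the token of a side -/
noncomputable def gtok (i : ℕ) (p : ι × ι) : ℤ :=
  if P.pp i p.1 ∈ (P.D i).image (P.choice i) then P.pq i p.2 else P.pp i p.1

lemma gap {i : ℕ} {x y : ι} (hx : x ∈ P.Q i) (hy : y ∈ P.Q i) (h : P.side i x y)
    {l l' : β} (hl : l ∈ P.D i) (hl' : l' ∈ P.D i)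
    (h1 : P.ps l = P.pp i x ∨ P.pd l = P.pp i x) (h2 : P.ps l' = P.pq i y ∨ P.pd l' = P.pq i y) :
    l = l' := by
  obtain ⟨a1, a2⟩ := P.pp_spec hx
  obtain ⟨b1, b2⟩ := P.pq_spec hy
  rcases h with h | h
  · exact P.gap_inner hx hy h hl hl' a1 b1 a2 b2 h1 h2
  · exact P.gap_outer hx hy h hl hl' a1 b1 a2 b2 h1 h2

lemma gtok_notMem {i : ℕ} {p : ι × ι} (hp : p ∈ P.Gam i) :
    P.gtok i p ∉ (P.D i).image (P.choice i) := by
  classical
  have h := P.mem_Gam.1 hp
  unfold gtok
  split_ifs with hc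
  · intro hc'
    obtain ⟨l, hl, hl1⟩ := mem_image.1 hc
    obtain ⟨l', hl', hl1'⟩ := mem_image.1 hc'
    have e : l = l' := by
      apply P.gap h.1.1 h.1.2 h.2 hl hl'
      · rw [← hl1]; exact P.choice_or i l
      · rw [← hl1']; exact P.choice_or i l'
    subst e
    have e1 : P.pp i p.1 = P.pq i p.2 := by rw [← hl1, ← hl1']
    have := P.line_unique (P.Q_T h.1.1) (P.Q_T h.1.2) (P.pp_spec h.1.1).1
      (by rw [e1]; exact (P.pq_spec h.1.2).1)
    exact P.side_ne h.2 (by rw [this])
  · exact hc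

lemma gtok_mem {i : ℕ} {p : ι × ι} (hp : p ∈ P.Gam i) : P.gtok i p ∈ P.Tok i := by
  classical
  have h := P.mem_Gam.1 hp
  unfold gtok Tok
  rw [mem_biUnion]
  split_ifs with hc
  · obtain ⟨a, b⟩ := P.pq_spec h.1.2
    have c := (P.mem_Q.1 h.1.2).2
    have d := pre_add_post a
    exact ⟨p.2, h.1.2, mem_filter.2 ⟨a, by omega, by omega, Or.inl b⟩⟩
  · obtain ⟨a, b⟩ := P.pp_spec h.1.1
    have c := (P.mem_Q.1 h.1.1).2
    have d := pre_add_post a
    exact ⟨p.1, h.1.1, mem_filter.2 ⟨a, by omega, by omega, Or.inr b⟩⟩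

lemma gtok_inj {i : ℕ} (hK : 3 ≤ (P.Q i).card) : Set.InjOn (P.gtok i) (P.Gam i) := by
  classical
  -- the mixed case
  have key : ∀ p ∈ P.Gam i, ∀ q ∈ P.Gam i, P.pp i p.1 = P.pq i q.2 → False := by
    intro p hp q hq he
    have h := P.mem_Gam.1 hp
    have h' := P.mem_Gam.1 hq
    obtain ⟨a1, a2⟩ := P.pp_spec h.1.1
    obtain ⟨b1, b2⟩ := P.pq_spec h'.1.2
    rw [← he] at b1 b2
    have e : q.2 = p.1 := P.line_unique (P.Q_T h'.1.2) (P.Q_T h.1.1) b1 a1
    rw [e] at b2
    have c := pre_add_post a1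
    have s1 := P.strip_w h.2
    have s2 := P.strip_w h'.2
    have hne : P.strip q ≠ P.strip p := by
      have := P.strip_ne hK (x := q.1) (y := p.1) (z := p.2) h'.1.1 h.1.1 h.1.2
        (by rw [← e]; exact h'.2) h.2
      have e2 : (q.1, p.1) = q := by rw [← e]
      rwa [e2] at this
    have := P.strips hne (z := p.1) (P.strip_mem (Or.inr e)) (P.strip_mem (Or.inl rfl))
    omega
  intro p hp q hq he
  simp only [mem_coe] at hp hq
  have h := P.mem_Gam.1 hp
  have h' := P.mem_Gam.1 hq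
  unfold gtok at he
  split_ifs at he with h1 h2 h2
  · have e : p.2 = q.2 := P.line_unique (P.Q_T h.1.2) (P.Q_T h'.1.2) (P.pq_spec h.1.2).1
      (by rw [he]; exact (P.pq_spec h'.1.2).1)
    have e2 : p.1 = q.1 := P.side_left h.1.1 h'.1.1 h'.1.2 (by rw [← e]; exact h.2) h'.2
    exact Prod.ext e2 e
  · exact (key q hq p hp he.symm).elim
  · exact (key p hp q hq he).elim
  · have e : p.1 = q.1 := P.line_unique (P.Q_T h.1.1) (P.Q_T h'.1.1) (P.pp_spec h.1.1).1
      (by rw [he]; exact (P.pp_spec h'.1.1).1)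
    have e2 : p.2 = q.2 := P.side_right h'.1.1 h.1.2 h'.1.2 (by rw [← e]; exact h.2) h'.2
    exact Prod.ext e e2

/-- tokens -/
lemma tok_ineq {i : ℕ} (hK : 3 ≤ (P.Q i).card) :
    (P.D i).card + (P.Gam i).card ≤ ∑ x ∈ P.Q i, min 2 ((P.A x).card - 2 * i) := by
  classical
  have h1 : ((P.D i).image (P.choice i)).card = (P.D i).card :=
    card_image_of_injOn (fun l hl l' hl' h => P.choice_inj hl hl' h)
  have h2 : ((P.Gam i).image (P.gtok i)).card = (P.Gam i).card :=
    card_image_of_injOn (P.gtok_inj hK)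
  have h3 : Disjoint ((P.D i).image (P.choice i)) ((P.Gam i).image (P.gtok i)) := by
    rw [Finset.disjoint_right]
    intro u hu
    obtain ⟨p, hp, rfl⟩ := mem_image.1 hu
    exact P.gtok_notMem hp
  rw [← h1, ← h2, ← card_union_of_disjoint h3]
  refine (card_le_card ?_).trans (P.card_Tok i)
  apply union_subset
  · intro u hu
    obtain ⟨l, hl, rfl⟩ := mem_image.1 hu
    exact P.choice_mem hl
  · intro u hu
    obtain ⟨p, hp, rfl⟩ := mem_image.1 hu
    exact P.gtok_mem hp

/-- the pairs of long lines joined by at least `i+1` links -/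
def EQ (i : ℕ) : Finset (ι × ι) := (P.E i).filter (fun p => p.1 ∈ P.Q i ∧ p.2 ∈ P.Q i)

lemma mem_E {i : ℕ} {p : ι × ι} : p ∈ P.E i ↔ (p.1 ∈ P.S ∧ p.2 ∈ P.T) ∧
    i + 1 ≤ P.w p.1 p.2 := by
  simp [E, mem_filter, mem_product]

lemma mem_EQ {i : ℕ} {p : ι × ι} : p ∈ P.EQ i ↔ p ∈ P.E i ∧ p.1 ∈ P.Q i ∧ p.2 ∈ P.Q i := by
  simp [EQ]

lemma EQ_lt {i : ℕ} {p : ι × ι} (h : p ∈ P.EQ i) : P.κ p.1 < P.κ p.2 := by
  rw [P.mem_EQ, P.mem_E] at h
  exact P.κlt_of_w (by omega)

/-- diagonals and sides -/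
lemma diag_ineq {i : ℕ} (hK : 3 ≤ (P.Q i).card) :
    (P.EQ i).card ≤ (P.Gam i).card + ((P.Q i).card - 3) := by
  classical
  let sd : ι × ι → Prop := fun p => P.inner i p.1 p.2 ∨ P.outer i p.2 p.1
  have hsplit : (P.EQ i).card = ((P.EQ i).filter sd).card + ((P.EQ i).filter (fun p => ¬ sd p)).card :=
    (card_filter_add_card_filter_not _).symm
  -- sides
  have h1 : ((P.EQ i).filter sd).card ≤ (P.Gam i).card := by
    apply card_le_card_of_injOn (fun p => if P.inner i p.1 p.2 then p else (p.2, p.1))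
    · intro p hp
      simp only [coe_filter, Set.mem_ofPred_eq] at hp
      obtain ⟨hp1, hp2⟩ := hp
      have h3 := (P.mem_EQ.1 hp1).2
      simp only [mem_coe]
      split_ifs with hc
      · exact P.mem_Gam.2 ⟨h3, Or.inl hc⟩
      · rcases hp2 with h4 | h4
        · exact absurd h4 hc
        · exact P.mem_Gam.2 ⟨⟨h3.2, h3.1⟩, Or.inr h4⟩
    · intro p hp q hq he
      simp only [coe_filter, Set.mem_ofPred_eq] at hp hq
      have a := P.EQ_lt hp.1
      have b := P.EQ_lt hq.1
      simp only at he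
      split_ifs at he with c d d
      · exact he
      · subst he; simp only at a; omega
      · subst he; simp only at b; omega
      · have e1 := congrArg Prod.fst he
        have e2 := congrArg Prod.snd he
        simp only at e1 e2
        exact Prod.ext e2 e1
  -- diagonals
  have h2 : ((P.EQ i).filter (fun p => ¬ sd p)).card + 1 ≤ (P.Q i).card - 2 := by
    set N := (P.EQ i).filter (fun p => ¬ sd p)
    have hQi : ((P.Q i).image P.κ).card = (P.Q i).card :=
      card_image_of_injOn (fun x hx y hy h => P.κinj x (P.Q_T hx) y (P.Q_T hy) h)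
    have hQn : (P.Q i).Nonempty := card_pos.1 (by omega)
    obtain ⟨a, ha, ha'⟩ := exists_min_image (P.Q i) P.κ hQn
    obtain ⟨b, hb, hb'⟩ := exists_max_image (P.Q i) P.κ hQn
    obtain ⟨v, hv, hv1⟩ : ∃ v ∈ P.Q i, v ≠ a ∧ v ≠ b := by
      have h1 : 0 < (((P.Q i).erase a).erase b).card := by
        have h2 := pred_card_le_card_erase (s := P.Q i) (a := a)
        have h3 := pred_card_le_card_erase (s := (P.Q i).erase a) (a := b)
        omega
      obtain ⟨v, hv⟩ := card_pos.1 h1
      simp only [mem_erase] at hv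
      exact ⟨v, hv.2.2, hv.2.1, hv.1⟩
    have k1 : P.κ v ≠ P.κ a := fun h => hv1.1 (P.κinj v (P.Q_T hv) a (P.Q_T ha) h)
    have k2 : P.κ v ≠ P.κ b := fun h => hv1.2 (P.κinj v (P.Q_T hv) b (P.Q_T hb) h)
    have k3 := ha' v hv
    have k4 := hb' v hv
    let κκ : ι × ι → ℤ × ℤ := fun p => (P.κ p.1, P.κ p.2)
    have hN : ∀ p ∈ N, p ∈ P.EQ i ∧ ¬ sd p := fun p hp => mem_filter.1 hp
    have hinj : Set.InjOn κκ N := by
      intro p hp q hq he
      have a1 := (P.mem_EQ.1 (hN p hp).1).2
      have b1 := (P.mem_EQ.1 (hN q hq).1).2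
      have e1 := congrArg Prod.fst he
      have e2 := congrArg Prod.snd he
      simp only [κκ] at e1 e2
      exact Prod.ext (P.κinj _ (P.Q_T a1.1) _ (P.Q_T b1.1) e1)
        (P.κinj _ (P.Q_T a1.2) _ (P.Q_T b1.2) e2)
    have hnot : (P.κ a, P.κ b) ∉ N.image κκ := by
      intro hc
      obtain ⟨p, hp, he⟩ := mem_image.1 hc
      have e1 := congrArg Prod.fst he
      have e2 := congrArg Prod.snd he
      simp only [κκ] at e1 e2
      obtain ⟨hp1, hp2⟩ := hN p hp
      apply hp2
      right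
      refine ⟨P.EQ_lt hp1, ?_, ?_⟩
      · intro z hz
        have := ha' z hz; have := hb' z hz
        omega
      · exact (P.mem_E.1 (P.mem_EQ.1 hp1).1).2
    have hcard : (insert (P.κ a, P.κ b) (N.image κκ)).card = N.card + 1 := by
      rw [card_insert_of_notMem hnot, card_image_of_injOn hinj]
    rw [← hcard, ← hQi]
    apply nc_card
    · intro p hp
      rcases mem_insert.1 hp with rfl | hp
      · exact ⟨mem_image_of_mem _ ha, mem_image_of_mem _ hb, P.κ v, mem_image_of_mem _ hv,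
          by simp only; omega, by simp only; omega⟩
      · obtain ⟨q, hq, rfl⟩ := mem_image.1 hp
        obtain ⟨hq1, hq2⟩ := hN q hq
        have a1 := (P.mem_EQ.1 hq1).2
        refine ⟨mem_image_of_mem _ a1.1, mem_image_of_mem _ a1.2, ?_⟩
        by_contra hc
        apply hq2
        left
        refine ⟨P.EQ_lt hq1, ?_, (P.mem_E.1 (P.mem_EQ.1 hq1).1).2⟩
        rintro z hz hz1
        exact hc ⟨P.κ z, mem_image_of_mem _ hz, hz1⟩
    · intro p hp q hq
      rcases mem_insert.1 hp with rfl | hp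
      · rcases mem_insert.1 hq with rfl | hq
        · simp
        · obtain ⟨q', hq', rfl⟩ := mem_image.1 hq
          have a1 := (P.mem_EQ.1 (hN q' hq').1).2
          have := hb' _ a1.2
          simp only [κκ]
          omega
      · obtain ⟨p', hp', rfl⟩ := mem_image.1 hp
        have a1 := (P.mem_EQ.1 (hN p' hp').1)
        rcases mem_insert.1 hq with rfl | hq
        · have := ha' _ a1.2.1
          simp only [κκ]
          omega
        · obtain ⟨q', hq', rfl⟩ := mem_image.1 hq
          have b1 := (P.mem_EQ.1 (hN q' hq').1)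
          simp only [κκ]
          rintro ⟨c1, c2, c3⟩
          have w1 := (P.mem_E.1 a1.1).2
          have w2 := (P.mem_E.1 b1.1).2
          obtain ⟨l, hl⟩ := card_pos.1 (show 0 < (P.lk p'.1 p'.2).card by unfold w at w1; omega)
          obtain ⟨l', hl'⟩ := card_pos.1 (show 0 < (P.lk q'.1 q'.2).card by unfold w at w2; omega)
          rw [P.mem_lk] at hl hl'
          have d1 := P.hps l hl.1
          have d2 := P.hpd l hl.1
          have d3 := P.hps l' hl'.1
          have d4 := P.hpd l' hl'.1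
          rw [hl.2.1] at d1; rw [hl.2.2] at d2; rw [hl'.2.1] at d3; rw [hl'.2.2] at d4
          exact P.nc l hl.1 l' hl'.1
            ⟨P.hA _ (P.Q_T a1.2.1) _ (P.Q_T b1.2.1) c1 _ d1 _ d3,
             P.hA _ (P.Q_T b1.2.1) _ (P.Q_T a1.2.2) c2 _ d3 _ d2,
             P.hA _ (P.Q_T a1.2.2) _ (P.Q_T b1.2.2) c3 _ d2 _ d4⟩
  omega

/-- at least three long lines -/
lemma three {i : ℕ} (hK : 3 ≤ (P.Q i).card) :
    (P.EQ i).card + (P.D i).card + 3 ≤
      (P.Q i).card + ∑ x ∈ P.Q i, min 2 ((P.A x).card - 2 * i) := by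
  have h1 := P.diag_ineq hK
  have h2 := P.tok_ineq hK
  omega

/-- exactly two long lines -/
lemma two {i : ℕ} {x y : ι} (hxy : P.κ x < P.κ y) (hQ : P.Q i = {x, y}) :
    (P.EQ i).card ≤ 1 ∧ (P.D i).card ≤ min 2 ((P.A x).card - 2 * i) ∧
      (P.D i).card ≤ min 2 ((P.A y).card - 2 * i) := by
  classical
  have hx : x ∈ P.Q i := by rw [hQ]; simp
  have hy : y ∈ P.Q i := by rw [hQ]; simp
  have hD : ∀ l ∈ P.D i, P.src l = x ∧ P.dst l = y := by
    intro l hl
    have h1 := P.D_src hl
    have h2 := P.D_dst hl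
    have h3 := P.hlt l (P.mem_D.1 hl).1
    rw [hQ] at h1 h2
    simp only [mem_insert, mem_singleton] at h1 h2
    rcases h1 with h1 | h1 <;> rcases h2 with h2 | h2 <;> rw [h1, h2] at h3
    · omega
    · exact ⟨h1, h2⟩
    · omega
    · omega
  have hE : (P.EQ i).card ≤ 1 := by
    rw [card_le_one]
    have : ∀ p ∈ P.EQ i, p = (x, y) := by
      intro p hp
      have h1 := (P.mem_EQ.1 hp).2
      have h3 := P.EQ_lt hp
      rw [hQ] at h1
      simp only [mem_insert, mem_singleton] at h1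
      obtain ⟨h1, h2⟩ := h1
      rcases h1 with h1 | h1 <;> rcases h2 with h2 | h2 <;> rw [h1, h2] at h3
      · omega
      · exact Prod.ext h1 h2
      · omega
      · omega
    intro p hp q hq
    rw [this p hp, this q hq]
  have hxT := P.Q_T hx
  have hyT := P.Q_T hy
  -- at most one inner and one outer
  let inn : β → Prop := fun l => post (P.A x) (P.ps l) = i ∨ pre (P.A y) (P.pd l) = i
  have hsplit : (P.D i).card = ((P.D i).filter inn).card + ((P.D i).filter (fun l => ¬ inn l)).card :=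
    (card_filter_add_card_filter_not _).symm
  have h1 : ((P.D i).filter inn).card ≤ 1 := by
    rw [card_le_one]
    intro l hl l' hl'
    rw [mem_filter] at hl hl'
    obtain ⟨hl, hi⟩ := hl
    obtain ⟨hl', hi'⟩ := hl'
    obtain ⟨a1, a2⟩ := hD l hl
    obtain ⟨b1, b2⟩ := hD l' hl'
    have c1 := P.mem_D.1 hl
    have c2 := P.mem_D.1 hl'
    have d1 := P.hps l c1.1; have d2 := P.hpd l c1.1
    have d3 := P.hps l' c2.1; have d4 := P.hpd l' c2.1
    rw [a1] at d1; rw [a2] at d2; rw [b1] at d3; rw [b2] at d4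
    rcases hi with hi | hi <;> rcases hi' with hi' | hi'
    · exact P.psinj l c1.1 l' c2.1 (post_inj d1 d3 (by omega))
    · exact P.same_inner hxy hxT hyT hl hl' a1 a2 b1 b2 hi hi'
    · exact (P.same_inner hxy hxT hyT hl' hl b1 b2 a1 a2 hi' hi).symm
    · exact P.pdinj l c1.1 l' c2.1 (pre_inj d2 d4 (by omega))
  have h2 : ((P.D i).filter (fun l => ¬ inn l)).card ≤ 1 := by
    rw [card_le_one]
    intro l hl l' hl'
    rw [mem_filter] at hl hl'
    obtain ⟨hl, hi⟩ := hl
    obtain ⟨hl', hi'⟩ := hl'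
    obtain ⟨a1, a2⟩ := hD l hl
    obtain ⟨b1, b2⟩ := hD l' hl'
    have c1 := P.mem_D.1 hl
    have c2 := P.mem_D.1 hl'
    have d1 := P.hps l c1.1; have d2 := P.hpd l c1.1
    have d3 := P.hps l' c2.1; have d4 := P.hpd l' c2.1
    have e1 := c1.2.2
    have e2 := c2.2.2
    rw [a1] at d1; rw [a2] at d2; rw [b1] at d3; rw [b2] at d4
    rw [a1, a2] at e1; rw [b1, b2] at e2
    simp only [inn, not_or] at hi hi'
    have f1 : pre (P.A x) (P.ps l) = i ∨ post (P.A y) (P.pd l) = i := by
      rcases e1 with e | e | e | e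
      · exact Or.inl e
      · exact absurd e hi.1
      · exact absurd e hi.2
      · exact Or.inr e
    have f2 : pre (P.A x) (P.ps l') = i ∨ post (P.A y) (P.pd l') = i := by
      rcases e2 with e | e | e | e
      · exact Or.inl e
      · exact absurd e hi'.1
      · exact absurd e hi'.2
      · exact Or.inr e
    rcases f1 with hi | hi <;> rcases f2 with hi' | hi'
    · exact P.psinj l c1.1 l' c2.1 (pre_inj d1 d3 (by omega))
    · exact P.same_outer hxy hxT hyT hl hl' a1 a2 b1 b2 hi hi'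
    · exact (P.same_outer hxy hxT hyT hl' hl b1 b2 a1 a2 hi' hi).symm
    · exact P.pdinj l c1.1 l' c2.1 (post_inj d2 d4 (by omega))
  have hx2 := (P.mem_Q.1 hx).2
  have hy2 := (P.mem_Q.1 hy).2
  have h3 : (P.A x).card = 2 * i + 1 → (P.D i).card ≤ 1 := by
    intro hc
    rw [card_le_one]
    intro l hl l' hl'
    obtain ⟨a1, a2⟩ := hD l hl
    obtain ⟨b1, b2⟩ := hD l' hl'
    have c1 := P.mem_D.1 hl
    have c2 := P.mem_D.1 hl'
    have d1 := P.hps l c1.1
    have d3 := P.hps l' c2.1
    have e1 := c1.2.1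
    have e2 := c2.2.1
    rw [a1] at d1 e1; rw [b1] at d3 e2
    have g1 := pre_add_post d1
    have g2 := pre_add_post d3
    exact P.psinj l c1.1 l' c2.1 (pre_inj d1 d3 (by omega))
  have h4 : (P.A y).card = 2 * i + 1 → (P.D i).card ≤ 1 := by
    intro hc
    rw [card_le_one]
    intro l hl l' hl'
    obtain ⟨a1, a2⟩ := hD l hl
    obtain ⟨b1, b2⟩ := hD l' hl'
    have c1 := P.mem_D.1 hl
    have c2 := P.mem_D.1 hl'
    have d1 := P.hpd l c1.1
    have d3 := P.hpd l' c2.1
    have e1 := c1.2.1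
    have e2 := c2.2.1
    rw [a2] at d1 e1; rw [b2] at d3 e2
    have g1 := pre_add_post d1
    have g2 := pre_add_post d3
    exact P.pdinj l c1.1 l' c2.1 (pre_inj d1 d3 (by omega))
  refine ⟨hE, ?_, ?_⟩
  · rcases Nat.lt_or_ge (2 * i + 1) (P.A x).card with h | h
    · omega
    · have := h3 (by omega); omega
  · rcases Nat.lt_or_ge (2 * i + 1) (P.A y).card with h | h
    · omega
    · have := h4 (by omega); omega

/-- at most one long line -/
lemma one {i : ℕ} (hQ : (P.Q i).card ≤ 1) : (P.EQ i).card = 0 ∧ (P.D i).card = 0 := by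
  rw [card_le_one] at hQ
  constructor
  · rw [card_eq_zero, eq_empty_iff_forall_notMem]
    intro p hp
    have h1 := (P.mem_EQ.1 hp).2
    have h3 := P.EQ_lt hp
    rw [hQ _ h1.1 _ h1.2] at h3
    omega
  · rw [card_eq_zero, eq_empty_iff_forall_notMem]
    intro l hl
    have h3 := P.hlt l (P.mem_D.1 hl).1
    rw [hQ _ (P.D_src hl) _ (P.D_dst hl)] at h3
    omega

/-- **Polygon inequality.** -/
theorem main (i : ℕ) :
    (P.E i).card + (P.D i).card ≤ ∑ x ∈ P.S, lam i (P.A x).card := by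
  classical
  set AS := P.S.filter (fun x => i + 1 ≤ (P.A x).card ∧ (P.A x).card ≤ 2 * i) with hAS
  set Bc := P.S.filter (fun x => 2 * i + 1 ≤ (P.A x).card) with hBc
  -- the sum
  have hsum : AS.card + (Bc.card + ∑ x ∈ Bc, min 2 ((P.A x).card - 2 * i)) ≤
      ∑ x ∈ P.S, lam i (P.A x).card := by
    have h1 : Disjoint AS Bc := by
      rw [Finset.disjoint_left]
      intro x hx hx'
      simp only [hAS, hBc, mem_filter] at hx hx'
      omega
    have h2 : AS ∪ Bc ⊆ P.S := union_subset (filter_subset _ _) (filter_subset _ _)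
    refine le_trans ?_ (sum_le_sum_of_subset h2)
    rw [sum_union h1]
    apply add_le_add
    · rw [card_eq_sum_ones]
      apply sum_le_sum
      intro x hx
      simp only [hAS, mem_filter] at hx
      unfold lam
      rw [if_pos hx.2.1]
      omega
    · rw [card_eq_sum_ones, ← sum_add_distrib]
      apply sum_le_sum
      intro x hx
      simp only [hBc, mem_filter] at hx
      unfold lam
      rw [if_pos (by omega)]
  -- splitting the pairs
  set EA := (P.E i).filter (fun p => p.1 ∈ AS ∨ p.2 ∈ AS) with hEA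
  set Et := (P.E i).filter (fun p => p.1 ∈ Bc ∧ p.2 = P.t ∧ P.t ∉ P.Q i) with hEt
  have hcov : P.E i ⊆ (P.EQ i ∪ EA) ∪ Et := by
    intro p hp
    have h1 := P.mem_E.1 hp
    have h2 := P.w_le_left p.1 p.2
    have h3 := P.w_le_right p.1 p.2
    simp only [mem_union, hEA, hEt, mem_filter, P.mem_EQ, P.mem_Q, hAS, hBc]
    have h4 := P.S_sub_T h1.1.1
    by_cases c1 : (P.A p.1).card ≤ 2 * i
    · left; right; exact ⟨hp, Or.inl ⟨h1.1.1, by omega, c1⟩⟩
    by_cases c2 : 2 * i + 1 ≤ (P.A p.2).card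
    · left; left; exact ⟨hp, ⟨h4, by omega⟩, h1.1.2, c2⟩
    rcases mem_insert.1 h1.1.2 with c3 | c3
    · right
      refine ⟨hp, ⟨h1.1.1, by omega⟩, c3, ?_⟩
      rw [← c3]
      exact fun h => c2 h.2
    · left; right; exact ⟨hp, Or.inr ⟨c3, by omega, by omega⟩⟩
  have hEAc : EA.card ≤ AS.card := by
    apply card_le_card_of_injOn (fun p => if p.1 ∈ AS then p.1 else p.2)
    · intro p hp
      simp only [hEA, coe_filter, Set.mem_ofPred_eq] at hp
      simp only [mem_coe]
      split_ifs with hc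
      · exact hc
      · exact hp.2.resolve_left hc
    · intro p hp q hq he
      simp only [hEA, coe_filter, Set.mem_ofPred_eq] at hp hq
      by_contra hne
      have h1 := (P.mem_E.1 hp.1).2
      have h2 := (P.mem_E.1 hq.1).2
      set z := (if p.1 ∈ AS then p.1 else p.2) with hz
      have z1 : p.1 = z ∨ p.2 = z := by
        rw [hz]; split_ifs
        · exact Or.inl rfl
        · exact Or.inr rfl
      have z2 : q.1 = z ∨ q.2 = z := by
        have he' : z = if q.1 ∈ AS then q.1 else q.2 := he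
        rw [he']; split_ifs
        · exact Or.inl rfl
        · exact Or.inr rfl
      have z3 : z ∈ AS := by
        rw [hz]; split_ifs with hc
        · exact hc
        · exact hp.2.resolve_left hc
      have := P.strips hne z1 z2
      simp only [hAS, mem_filter] at z3
      omega
  have hEtc : Et.card ≤ 1 := by
    rw [card_le_one]
    intro p hp q hq
    simp only [hEt, mem_filter] at hp hq
    by_contra hne
    have h1 := (P.mem_E.1 hp.1).2
    have h2 := (P.mem_E.1 hq.1).2
    have := P.strips hne (z := P.t) (Or.inr hp.2.2.1) (Or.inr hq.2.2.1)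
    have h3 := hp.2.2.2
    rw [P.mem_Q] at h3
    have := P.t_mem_T
    have : ¬ (2 * i + 1 ≤ (P.A P.t).card) := fun h => h3 ⟨this, h⟩
    omega
  have hEtB : Bc.card = 0 → Et.card = 0 := by
    intro h
    rw [card_eq_zero] at h ⊢
    rw [hEt, h]
    simp
  have hEtt : P.t ∈ P.Q i → Et.card = 0 := by
    intro h
    rw [card_eq_zero, hEt]
    simp [h]
  have hEc : (P.E i).card ≤ (P.EQ i).card + AS.card + Et.card := by
    refine (card_le_card hcov).trans ((card_union_le _ _).trans ?_)
    have := card_union_le (P.EQ i) EA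
    omega
  -- the long lines
  have hQin : P.t ∈ P.Q i → P.Q i = insert P.t Bc := by
    intro h
    ext x
    rw [mem_insert, P.mem_Q, hBc, mem_filter]
    constructor
    · rintro ⟨a, b⟩
      rcases mem_insert.1 a with a | a
      · exact Or.inl a
      · exact Or.inr ⟨a, b⟩
    · rintro (a | ⟨a, b⟩)
      · rw [a]; exact P.mem_Q.1 h
      · exact ⟨P.S_sub_T a, b⟩
  have hQout : P.t ∉ P.Q i → P.Q i = Bc := by
    intro h
    ext x
    rw [P.mem_Q, hBc, mem_filter]
    constructor
    · rintro ⟨a, b⟩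
      rcases mem_insert.1 a with c | c
      · subst c; exact absurd (P.mem_Q.2 ⟨a, b⟩) h
      · exact ⟨c, b⟩
    · rintro ⟨a, b⟩
      exact ⟨P.S_sub_T a, b⟩
  have htB : P.t ∉ Bc := fun h => P.t_notMem_S (mem_filter.1 h).1
  by_cases ht : P.t ∈ P.Q i
  · have hQ := hQin ht
    have h0 := hEtt ht
    have hc : (P.Q i).card = Bc.card + 1 := by rw [hQ, card_insert_of_notMem htB]
    have hs : ∑ x ∈ P.Q i, min 2 ((P.A x).card - 2 * i) =
        min 2 ((P.A P.t).card - 2 * i) + ∑ x ∈ Bc, min 2 ((P.A x).card - 2 * i) := by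
      rw [hQ, sum_insert htB]
    rcases Nat.lt_or_ge (P.Q i).card 3 with h3 | h3
    · rcases Nat.lt_or_ge (P.Q i).card 2 with h2 | h2
      · have := P.one (show (P.Q i).card ≤ 1 by omega)
        omega
      · obtain ⟨x, hx⟩ := card_eq_one.1 (show Bc.card = 1 by omega)
        have hxS : x ∈ P.S := by
          have : x ∈ Bc := by rw [hx]; simp
          exact (mem_filter.1 this).1
        have := P.two (P.κt x hxS) (show P.Q i = {x, P.t} by rw [hQ, hx, pair_comm])
        rw [hx] at hsum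
        simp only [card_singleton, sum_singleton] at hsum
        omega
    · have := P.three h3
      omega
  · have hQ := hQout ht
    rcases Nat.lt_or_ge (P.Q i).card 3 with h3 | h3
    · rcases Nat.lt_or_ge (P.Q i).card 2 with h2 | h2
      · have h1 := P.one (show (P.Q i).card ≤ 1 by omega)
        rcases Nat.eq_zero_or_pos Bc.card with h | h
        · have := hEtB h
          omega
        · omega
      · obtain ⟨x, y, hne, hxy⟩ := card_eq_two.1 (show (P.Q i).card = 2 by omega)
        have hx : x ∈ P.Q i := by rw [hxy]; simp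
        have hy : y ∈ P.Q i := by rw [hxy]; simp
        have hk : P.κ x ≠ P.κ y := fun h => hne (P.κinj x (P.Q_T hx) y (P.Q_T hy) h)
        have hcB : Bc.card = 2 := by rw [← hQ]; omega
        have hsB : ∑ x ∈ Bc, min 2 ((P.A x).card - 2 * i) =
            min 2 ((P.A x).card - 2 * i) + min 2 ((P.A y).card - 2 * i) := by
          rw [← hQ, hxy, sum_pair hne]
        rcases lt_or_gt_of_ne hk with hk | hk
        · have := P.two hk hxy
          omega
        · have := P.two hk (by rw [hxy, pair_comm])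
          omega
    · have := P.three h3
      rw [hQ] at this h3
      omega

end Poly

end CGr
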