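import Mathlib

/-!
# Positions in a finite set of integers, and noncrossing pairs

* `pre A u`, `post A u`: number of elements of `A` before / after `u`.
* `tok i A`: the elements with `pre = i` or `post = i` among those with `pre, post ≥ i`.
* `nc_card`: pairwise noncrossing non-consecutive pairs of elements of a finite set `Q` of
  integers: there are at most `#Q - 2` of them.
-/

set_option autoImplicit false

open Finset

namespace CGr

/-- number of elements of `A` smaller than `u` -/
def pre (A : Finset ℤ) (u : ℤ) : ℕ := (A.filter (fun v => v < u)).card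

/-- number of elements of `A` larger than `u` -/
def post (A : Finset ℤ) (u : ℤ) : ℕ := (A.filter (fun v => u < v)).card

lemma pre_add_post {A : Finset ℤ} {u : ℤ} (h : u ∈ A) : pre A u + post A u + 1 = A.card := by
  have h1 : A = (A.filter (fun v => v < u) ∪ A.filter (fun v => u < v)) ∪ {u} := by
    ext v
    simp only [mem_union, mem_filter, mem_singleton]
    constructor
    · intro hv
      rcases lt_trichotomy v u with h' | h' | h'
      · exact Or.inl (Or.inl ⟨hv, h'⟩)
      · exact Or.inr h'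
      · exact Or.inl (Or.inr ⟨hv, h'⟩)
    · rintro ((⟨a, _⟩ | ⟨a, _⟩) | rfl)
      · exact a
      · exact a
      · exact h
  have h2 : Disjoint (A.filter (fun v => v < u)) (A.filter (fun v => u < v)) := by
    rw [Finset.disjoint_left]
    intro v hv hv'
    simp only [mem_filter] at hv hv'
    omega
  have h3 : Disjoint (A.filter (fun v => v < u) ∪ A.filter (fun v => u < v)) {u} := by
    rw [Finset.disjoint_left]
    intro v hv hv'
    simp only [mem_union, mem_filter, mem_singleton] at hv hv'
    omega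
  conv_rhs => rw [h1]
  rw [card_union_of_disjoint h3, card_union_of_disjoint h2, card_singleton]
  rfl

lemma pre_lt_pre {A : Finset ℤ} {u v : ℤ} (hu : u ∈ A) (h : u < v) : pre A u < pre A v := by
  apply card_lt_card
  refine ⟨fun x hx => ?_, fun hh => ?_⟩
  · simp only [mem_filter] at hx ⊢
    exact ⟨hx.1, by omega⟩
  · have := hh (mem_filter.2 ⟨hu, h⟩)
    simp only [mem_filter] at this
    omega

lemma post_lt_post {A : Finset ℤ} {u v : ℤ} (hv : v ∈ A) (h : u < v) : post A v < post A u := by
  apply card_lt_card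
  refine ⟨fun x hx => ?_, fun hh => ?_⟩
  · simp only [mem_filter] at hx ⊢
    exact ⟨hx.1, by omega⟩
  · have := hh (mem_filter.2 ⟨hv, h⟩)
    simp only [mem_filter] at this
    omega

lemma pre_le_pre {A : Finset ℤ} {u v : ℤ} (h : u ≤ v) : pre A u ≤ pre A v := by
  apply card_le_card
  intro x hx
  simp only [mem_filter] at hx ⊢
  exact ⟨hx.1, by omega⟩

lemma post_le_post {A : Finset ℤ} {u v : ℤ} (h : u ≤ v) : post A v ≤ post A u := by
  apply card_le_card
  intro x hx
  simp only [mem_filter] at hx ⊢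
  exact ⟨hx.1, by omega⟩

lemma le_of_pre_le {A : Finset ℤ} {u v : ℤ} (hv : v ∈ A) (h : pre A u ≤ pre A v) :
    u ≤ v := by
  by_contra hc
  have := pre_lt_pre (A := A) (u := v) (v := u) hv (by omega)
  omega

lemma le_of_post_le {A : Finset ℤ} {u v : ℤ} (hu : u ∈ A) (h : post A v ≤ post A u) :
    u ≤ v := by
  by_contra hc
  have := post_lt_post (A := A) (u := v) (v := u) hu (by omega)
  omega

lemma pre_inj {A : Finset ℤ} {u v : ℤ} (hu : u ∈ A) (hv : v ∈ A) (h : pre A u = pre A v) :
    u = v :=
  le_antisymm (le_of_pre_le hv h.le) (le_of_pre_le hu h.ge)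

lemma post_inj {A : Finset ℤ} {u v : ℤ} (hu : u ∈ A) (hv : v ∈ A) (h : post A u = post A v) :
    u = v :=
  le_antisymm (le_of_post_le hu h.ge) (le_of_post_le hv h.le)

/-- `pre` maps `A` onto `range #A` -/
lemma image_pre (A : Finset ℤ) : A.image (pre A) = range A.card := by
  apply eq_of_subset_of_card_le
  · intro k hk
    simp only [mem_image] at hk
    obtain ⟨u, hu, rfl⟩ := hk
    have := pre_add_post hu
    simp only [mem_range]
    omega
  · rw [card_range, card_image_of_injOn]
    intro u hu v hv h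
    exact pre_inj hu hv h

lemma exists_pre {A : Finset ℤ} {i : ℕ} (h : i < A.card) : ∃ u ∈ A, pre A u = i := by
  have : i ∈ A.image (pre A) := by rw [image_pre]; exact mem_range.2 h
  simpa using this

lemma exists_post {A : Finset ℤ} {i : ℕ} (h : i < A.card) : ∃ u ∈ A, post A u = i := by
  obtain ⟨u, hu, hh⟩ := exists_pre (A := A) (i := A.card - 1 - i) (by omega)
  exact ⟨u, hu, by have := pre_add_post hu; omega⟩

/-- transfer of a counting problem from `A` to `range #A` -/
lemma card_filter_pre (A : Finset ℤ) (p : ℕ → Prop) [DecidablePred p] :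
    (A.filter (fun u => p (pre A u))).card = ((range A.card).filter p).card := by
  rw [← image_pre, filter_image, card_image_of_injOn]
  intro u hu v hv h
  simp only [coe_filter, Set.mem_ofPred_eq] at hu hv
  exact pre_inj hu.1 hv.1 h

/-- the tokens of level `i` -/
def tok (i : ℕ) (A : Finset ℤ) : Finset ℤ :=
  A.filter (fun u => i ≤ pre A u ∧ i ≤ post A u ∧ (pre A u = i ∨ post A u = i))

lemma card_tok (i : ℕ) (A : Finset ℤ) : (tok i A).card = min 2 (A.card - 2 * i) := by
  have h2 := card_filter_pre A (fun k => i ≤ k ∧ i ≤ A.card - 1 - k ∧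
      (k = i ∨ A.card - 1 - k = i) ∧ k < A.card)
  have h1 : tok i A = A.filter (fun u => i ≤ pre A u ∧ i ≤ A.card - 1 - pre A u ∧
      (pre A u = i ∨ A.card - 1 - pre A u = i) ∧ pre A u < A.card) := by
    apply filter_congr
    intro u hu
    have := pre_add_post hu
    constructor
    · rintro ⟨a, b, c⟩
      refine ⟨a, by omega, by omega, by omega⟩
    · rintro ⟨a, b, c, d⟩
      refine ⟨a, by omega, by omega⟩
  rw [h1, h2]
  generalize A.card = n
  rcases Nat.lt_or_ge (2 * i + 1) n with h | h
  · have : (range n).filter (fun k => i ≤ k ∧ i ≤ n - 1 - k ∧ (k = i ∨ n - 1 - k = i) ∧ k < n)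
        = {i, n - 1 - i} := by
      ext k
      simp only [mem_filter, mem_range, mem_insert, mem_singleton]
      omega
    rw [this, card_pair (by omega)]
    omega
  · rcases Nat.lt_or_ge (2 * i) n with h' | h'
    · have : (range n).filter (fun k => i ≤ k ∧ i ≤ n - 1 - k ∧ (k = i ∨ n - 1 - k = i) ∧ k < n)
          = {i} := by
        ext k
        simp only [mem_filter, mem_range, mem_singleton]
        omega
      rw [this, card_singleton]
      omega
    · have : (range n).filter (fun k => i ≤ k ∧ i ≤ n - 1 - k ∧ (k = i ∨ n - 1 - k = i) ∧ k < n)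
          = ∅ := by
        ext k
        simp only [mem_filter, mem_range, notMem_empty, iff_false]
        omega
      rw [this, card_empty]
      omega

/-- noncrossing nonconsecutive pairs -/
lemma nc_card (Q : Finset ℤ) (F : Finset (ℤ × ℤ))
    (h1 : ∀ p ∈ F, p.1 ∈ Q ∧ p.2 ∈ Q ∧ ∃ c ∈ Q, p.1 < c ∧ c < p.2)
    (h2 : ∀ p ∈ F, ∀ q ∈ F, ¬ (p.1 < q.1 ∧ q.1 < p.2 ∧ p.2 < q.2)) :
    F.card ≤ Q.card - 2 := by
  classical
  rcases F.eq_empty_or_nonempty with rfl | hF
  · simp
  -- candidate set
  let Cd : ℤ × ℤ → Finset ℤ := fun p => Q.filter (fun c => p.1 < c ∧ c < p.2 ∧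
    ((∀ d ∈ Q, ¬ (p.1 < d ∧ d < c)) ∨ (p.1, c) ∈ F))
  have hne : ∀ p ∈ F, (Cd p).Nonempty := by
    intro p hp
    obtain ⟨_, _, c, hc, hc1, hc2⟩ := h1 p hp
    have hn : (Q.filter (fun c => p.1 < c)).Nonempty := ⟨c, mem_filter.2 ⟨hc, hc1⟩⟩
    refine ⟨(Q.filter (fun c => p.1 < c)).min' hn, ?_⟩
    have hm := min'_mem _ hn
    have hle := min'_le (Q.filter (fun c => p.1 < c)) c (mem_filter.2 ⟨hc, hc1⟩)
    simp only [mem_filter] at hm
    refine mem_filter.2 ⟨hm.1, hm.2, by omega, Or.inl ?_⟩
    rintro d hd ⟨hd1, hd2⟩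
    have := min'_le (Q.filter (fun c => p.1 < c)) d (mem_filter.2 ⟨hd, hd1⟩)
    omega
  let f : ℤ × ℤ → ℤ := fun p => if h : (Cd p).Nonempty then (Cd p).max' h else 0
  have hf : ∀ p ∈ F, f p ∈ Cd p ∧ ∀ c ∈ Cd p, c ≤ f p := by
    intro p hp
    have h := hne p hp
    simp only [f, h, dif_pos]
    exact ⟨max'_mem _ h, fun c hc => le_max' _ c hc⟩
  obtain ⟨p0, hp0⟩ := hF
  obtain ⟨ha, hb, c, hc, hc1, hc2⟩ := h1 p0 hp0
  have hQ : Q.Nonempty := ⟨_, ha⟩
  set mn := Q.min' hQ
  set mx := Q.max' hQ
  have hmn : mn ∈ Q := min'_mem _ _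
  have hmx : mx ∈ Q := max'_mem _ _
  have hmn' : ∀ x ∈ Q, mn ≤ x := fun x hx => min'_le _ _ hx
  have hmx' : ∀ x ∈ Q, x ≤ mx := fun x hx => le_max' _ _ hx
  have hlt : mn < mx := by
    have := hmn' _ ha; have := hmx' _ hb; omega
  have hcard : ((Q.erase mn).erase mx).card = Q.card - 2 := by
    rw [card_erase_of_mem (mem_erase.2 ⟨by omega, hmx⟩), card_erase_of_mem hmn]
    omega
  rw [← hcard]
  apply card_le_card_of_injOn f
  · intro p hp
    obtain ⟨h3, _⟩ := hf p hp
    simp only [Cd, mem_filter] at h3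
    have h4 := h1 p hp
    have := hmn' _ h4.1
    have := hmx' _ h4.2.1
    simp only [coe_erase, Set.mem_sdiff, Set.mem_singleton_iff, mem_coe]
    refine ⟨⟨h3.1, by omega⟩, by omega⟩
  · -- injectivity
    have key : ∀ p ∈ F, ∀ q ∈ F, f p = f q → p.1 < q.1 → False := by
      intro p hp q hq hpq hlt
      obtain ⟨h3, _⟩ := hf p hp
      obtain ⟨h5, _⟩ := hf q hq
      simp only [Cd, mem_filter] at h3 h5
      rcases h3.2.2.2 with h6 | h6
      · exact h6 q.1 (h1 q hq).1 ⟨hlt, by omega⟩
      · exact h2 _ h6 q hq ⟨hlt, by simp only; omega, by simp only; omega⟩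
    have key2 : ∀ p ∈ F, ∀ q ∈ F, f p = f q → p.1 = q.1 → p.2 < q.2 → False := by
      intro p hp q hq hpq heq hlt
      obtain ⟨h3, _⟩ := hf p hp
      obtain ⟨h5, h6⟩ := hf q hq
      simp only [Cd, mem_filter] at h3
      have h4 := h1 p hp
      have : p.2 ∈ Cd q := by
        simp only [Cd, mem_filter]
        refine ⟨h4.2.1, by omega, hlt, Or.inr ?_⟩
        rw [← heq]
        exact hp
      have := h6 _ this
      omega
    intro p hp q hq hpq
    simp only [mem_coe] at hp hq
    rcases lt_trichotomy p.1 q.1 with h | h | h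
    · exact (key p hp q hq hpq h).elim
    · rcases lt_trichotomy p.2 q.2 with h' | h' | h'
      · exact (key2 p hp q hq hpq h h').elim
      · exact Prod.ext h h'
      · exact (key2 q hq p hp hpq.symm h.symm h').elim
    · exact (key q hq p hp hpq.symm h).elim

end CGr
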