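import Pool.Agent.Work.MP_954b6f_co_helper49.Diag
import Pool.Agent.Work.MP_954b6f_co_helper49.PolyMain

/-!
# Regions of a diagram

`par r`: the innermost red chord around `r`.  `NP r s`: `s` is the parent of `r`, or a sibling to
the right of `r`.  The regions between the red chords are polygons; the polygon inequality for all
of them gives `star`.
-/

set_option autoImplicit false
set_option linter.unusedSectionVars false

open Finset

namespace CGr

namespace Diag

variable {R B : Type} (D : Diag R B)

/-- `r` lies inside `s` -/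
def sub (r s : R) : Prop := D.ra s < D.ra r ∧ D.rb r < D.rb s

/-- `p` is the innermost chord around `r` -/
def isPar (r p : R) : Prop := D.sub r p ∧ ∀ q, D.sub r q → q = p ∨ D.sub p q

lemma isPar_unique {r p q : R} (h : D.isPar r p) (h' : D.isPar r q) : p = q := by
  rcases h.2 q h'.1 with h1 | h1
  · exact h1.symm
  · rcases h'.2 p h.1 with h2 | h2
    · exact h2
    · unfold sub at h1 h2; omega

lemma exists_par [Fintype R] {r : R} (h : ∃ q, D.sub r q) : ∃ p, D.isPar r p := by
  classical
  obtain ⟨p, hp, hp'⟩ := exists_min_image (univ.filter (fun q => D.sub r q)) D.rb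
    (by obtain ⟨q, hq⟩ := h; exact ⟨q, by simpa using hq⟩)
  simp only [mem_filter, mem_univ, true_and] at hp hp'
  refine ⟨p, hp, fun q hq => ?_⟩
  by_cases hqp : q = p
  · exact Or.inl hqp
  · right
    have h1 := hp' q hq
    have h2 := D.rr q p hqp
    have h3 := D.hr r
    unfold sub at *
    omega

open Classical in
/-- the parent -/
noncomputable def par (r : R) : Option R := if h : ∃ p, D.isPar r p then some h.choose else none

lemma par_some {r p : R} : D.par r = some p ↔ D.isPar r p := by
  unfold par
  constructor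
  · intro h
    split_ifs at h with h1
    simp only [Option.some.injEq] at h
    rw [← h]
    exact h1.choose_spec
  · intro h
    have h1 : ∃ p, D.isPar r p := ⟨p, h⟩
    rw [dif_pos h1]
    exact congrArg some (D.isPar_unique h1.choose_spec h)

lemma par_none [Fintype R] {r : R} : D.par r = none ↔ ∀ q, ¬ D.sub r q := by
  unfold par
  constructor
  · intro h q hq
    split_ifs at h with h1
    exact h1 (D.exists_par ⟨q, hq⟩)
  · intro h
    rw [dif_neg]
    rintro ⟨p, hp⟩
    exact h p hp.1

/-- `s` is the parent of `r` or a sibling to its right -/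
def NP (r s : R) : Prop := D.par r = some s ∨ (D.par r = D.par s ∧ D.ra r < D.ra s)

variable [Fintype R]

/-- siblings are disjoint -/
lemma sib {r s : R} (h : D.par r = D.par s) (hne : r ≠ s) : D.rb r < D.ra s ∨ D.rb s < D.ra r := by
  rcases D.rr r s hne with h1 | h1 | h1 | h1
  · exact Or.inl h1
  · exact Or.inr h1
  · exfalso
    have h2 : D.sub s r := h1
    obtain ⟨p, hp⟩ := D.exists_par ⟨r, h2⟩
    rcases hp.2 r h2 with h3 | h3
    · subst h3
      have h4 := D.par_some.2 hp
      rw [← h, D.par_some] at h4
      have := h4.1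
      unfold sub at this; omega
    · have h4 := D.par_some.2 hp
      rw [← h, D.par_some] at h4
      have := h4.1
      unfold sub at this h3; omega
  · exfalso
    have h2 : D.sub r s := h1
    obtain ⟨p, hp⟩ := D.exists_par ⟨s, h2⟩
    rcases hp.2 s h2 with h3 | h3
    · subst h3
      have h4 := D.par_some.2 hp
      rw [h, D.par_some] at h4
      have := h4.1
      unfold sub at this; omega
    · have h4 := D.par_some.2 hp
      rw [h, D.par_some] at h4
      have := h4.1
      unfold sub at this h3; omega

lemma NP_cases {r s : R} (h : D.NP r s) :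
    (D.par r = some s ∧ D.ra s < D.ra r ∧ D.rb r < D.rb s) ∨
    (D.par r ≠ some s ∧ D.par r = D.par s ∧ D.rb r < D.ra s) := by
  by_cases h0 : D.par r = some s
  · left
    exact ⟨h0, (D.par_some.1 h0).1⟩
  · right
    rcases h with h | h
    · exact absurd h h0
    · refine ⟨h0, h.1, ?_⟩
      have hne : r ≠ s := by rintro rfl; exact lt_irrefl _ h.2
      have h1 := D.sib h.1 hne
      have := D.hr s
      omega

lemma NP_rb {r s : R} (h : D.NP r s) : D.rb r < D.rb s := by
  rcases D.NP_cases h with h | h
  · exact h.2.2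
  · have := D.hr s; omega

/-- the next chord along `b` is unique -/
lemma NP_unique {r s s' : R} {b : B} (hb : D.cr r b) (h : D.NP r s) (h' : D.NP r s')
    (hs : D.cr s b) (hs' : D.cr s' b) : s = s' := by
  have h1 := D.cr_cases hb
  have h2 := D.cr_cases hs
  have h3 := D.cr_cases hs'
  have h4 := D.hb b
  rcases D.NP_cases h with a | a <;> rcases D.NP_cases h' with c | c
  · have := a.1.symm.trans c.1
    simpa using this
  · exfalso
    have h5 : D.par s' = some s := by rw [← c.2.1, a.1]
    have h6 := (D.par_some.1 h5).1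
    unfold sub at h6
    omega
  · exfalso
    have h5 : D.par s = some s' := by rw [← a.2.1, c.1]
    have h6 := (D.par_some.1 h5).1
    unfold sub at h6
    omega
  · by_contra hne
    have h5 : D.par s = D.par s' := by rw [← a.2.1, c.2.1]
    have h6 := D.sib h5 hne
    omega

/-- a blue chord has at most one cell without a next chord -/
lemma top_unique {r s : R} {b : B} (hr : D.cr r b) (hs : D.cr s b)
    (h : ∀ t, D.NP r t → ¬ D.cr t b) (h' : ∀ t, D.NP s t → ¬ D.cr t b) : r = s := by
  by_contra hne
  -- the nested case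
  have nest : ∀ r s : R, D.cr r b → D.cr s b → (∀ t, D.NP r t → ¬ D.cr t b) →
      D.sub r s → False := by
    intro r s hr hs h hsub
    obtain ⟨p, hp⟩ := D.exists_par ⟨s, hsub⟩
    apply h p (Or.inl (D.par_some.2 hp))
    rcases hp.2 s hsub with h1 | h1
    · rw [← h1]; exact hs
    · have h2 := hp.1
      unfold sub at h1 h2 hsub
      unfold cr at *
      have h5 := D.ne p b
      omega
  -- the disjoint case
  have disj : ∀ r s : R, r ≠ s → D.cr r b → D.cr s b → (∀ t, D.NP r t → ¬ D.cr t b) →
      (∀ t, D.NP s t → ¬ D.cr t b) → D.rb r < D.ra s → False := by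
    intro r s hne hr hs h h' hlt
    have hr0 := D.hr r
    have hs0 := D.hr s
    by_cases hpar : D.par r = D.par s
    · exact h s (Or.inr ⟨hpar, by omega⟩) hs
    · have claim : ∀ r s p : R, D.cr r b → D.cr s b → (∀ t, D.NP r t → ¬ D.cr t b) →
          (D.rb r < D.ra s ∨ D.rb s < D.ra r) → D.isPar r p → D.sub s p := by
        intro r s p hr hs h hlt hp
        have h1 : ¬ D.cr p b := h p (Or.inl (D.par_some.2 hp))
        have h2 := hp.1
        have hsp : s ≠ p := by
          rintro rfl
          exact h1 hs
        have h3 := D.rr s p hsp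
        have h4 := D.ne p b
        have h5 := D.hr r
        have h6 := D.hr s
        unfold sub at *
        unfold cr at *
        omega
      rcases hpr : D.par r with _ | p
      · rcases hps : D.par s with _ | q
        · rw [hpr, hps] at hpar; exact hpar rfl
        · have h1 := claim s r q hs hr h' (Or.inr hlt) (D.par_some.1 hps)
          exact (D.par_none.1 hpr q h1).elim
      · have hp := D.par_some.1 hpr
        have h1 := claim r s p hr hs h (Or.inl hlt) hp
        obtain ⟨q, hq⟩ := D.exists_par ⟨p, h1⟩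
        have h2 := claim s r q hs hr h' (Or.inr hlt) hq
        rcases hp.2 q h2 with h3 | h3
        · subst h3
          rw [hpr, D.par_some.2 hq] at hpar
          exact hpar rfl
        · rcases hq.2 p h1 with h4 | h4
          · subst h4
            rw [hpr, D.par_some.2 hq] at hpar
            exact hpar rfl
          · unfold sub at h3 h4; omega
  rcases D.rr r s hne with h1 | h1 | h1 | h1
  · exact disj r s hne hr hs h h' h1
  · exact disj s r (Ne.symm hne) hs hr h' h h1
  · exact nest s r hs hr h' h1
  · exact nest r s hr hs h h1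

/-- a bound for the endpoints of the red chords -/
def bd : ℤ := 1 + ∑ r, (|D.ra r| + |D.rb r|)

lemma bd_spec (r : R) : D.rb r < D.bd ∧ D.ra r < D.bd := by
  have h : |D.ra r| + |D.rb r| ≤ ∑ r, (|D.ra r| + |D.rb r|) :=
    single_le_sum (f := fun r => |D.ra r| + |D.rb r|) (fun i _ => by positivity) (mem_univ r)
  have h1 := le_abs_self (D.ra r)
  have h2 := le_abs_self (D.rb r)
  have h3 := abs_nonneg (D.ra r)
  have h4 := abs_nonneg (D.rb r)
  unfold bd
  omega

variable [Fintype B]

/-- the points of a line in the region `ρ` -/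
def rA (ρ : Option R) : Option R → Finset ℤ
  | some r => D.A r
  | none => match ρ with
    | some p => (D.A p).image (fun u => 2 * D.bd - u)
    | none => ∅

/-- the order of the lines -/
def rκ : Option R → ℤ
  | some r => D.ra r
  | none => D.bd

open Classical in
noncomputable def rdst (l : R × R × B) : Option R := if D.par l.1 = some l.2.1 then none else some l.2.1

open Classical in
noncomputable def rpd (l : R × R × B) : ℤ :=
  if D.par l.1 = some l.2.1 then 2 * D.bd - D.inn l.2.1 l.2.2 else D.inn l.2.1 l.2.2

/-- a link -/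
def isLink (l : R × R × B) : Prop := D.NP l.1 l.2.1 ∧ D.cr l.1 l.2.2 ∧ D.cr l.2.1 l.2.2

/-- description of a link -/
lemma link_cases {l : R × R × B} (h : D.isLink l) :
    (D.par l.1 = some l.2.1 ∧ D.rdst l = none ∧ D.rpd l = 2 * D.bd - D.inn l.2.1 l.2.2 ∧
      D.inn l.1 l.2.2 = D.inn l.2.1 l.2.2 ∧ D.ra l.2.1 < D.ra l.1 ∧ D.rb l.1 < D.rb l.2.1 ∧
      D.ra l.1 < D.inn l.1 l.2.2 ∧ D.inn l.1 l.2.2 < D.rb l.1 ∧
      ((D.inn l.1 l.2.2 = D.ba l.2.2 ∧ D.rb l.2.1 < D.bb l.2.2) ∨
       (D.inn l.1 l.2.2 = D.bb l.2.2 ∧ D.ba l.2.2 < D.ra l.2.1))) ∨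
    (D.par l.1 = D.par l.2.1 ∧ D.rdst l = some l.2.1 ∧ D.rpd l = D.inn l.2.1 l.2.2 ∧
      D.rb l.1 < D.ra l.2.1 ∧ D.inn l.1 l.2.2 = D.ba l.2.2 ∧ D.inn l.2.1 l.2.2 = D.bb l.2.2 ∧
      D.ra l.1 < D.ba l.2.2 ∧ D.ba l.2.2 < D.rb l.1 ∧ D.ra l.2.1 < D.bb l.2.2 ∧
      D.bb l.2.2 < D.rb l.2.1) := by
  obtain ⟨h1, h2, h3⟩ := h
  have c1 := D.cr_cases h2
  have c2 := D.cr_cases h3
  have c3 := D.hb l.2.2
  rcases D.NP_cases h1 with a | a
  · left
    have e1 : D.rdst l = none := if_pos a.1
    have e2 : D.rpd l = 2 * D.bd - D.inn l.2.1 l.2.2 := if_pos a.1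
    refine ⟨a.1, e1, e2, ?_⟩
    omega
  · right
    have e1 : D.rdst l = some l.2.1 := if_neg a.1
    have e2 : D.rpd l = D.inn l.2.1 l.2.2 := if_neg a.1
    refine ⟨a.2.1, e1, e2, a.2.2, ?_⟩
    omega

lemma mem_rA_some {ρ : Option R} {r : R} {u : ℤ} (h : u ∈ D.rA ρ (some r)) :
    ∃ b, D.cr r b ∧ D.inn r b = u ∧ D.ra r < u ∧ u < D.rb r := by
  obtain ⟨b, hb, hb'⟩ := mem_image.1 h
  have h1 := D.mem_N.1 hb
  have h2 := D.cr_cases h1
  exact ⟨b, h1, hb', by omega, by omega⟩

lemma mem_rA_none {ρ : Option R} {u : ℤ} (h : u ∈ D.rA ρ none) :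
    ∃ p, ρ = some p ∧ ∃ b, D.cr p b ∧ 2 * D.bd - D.inn p b = u ∧ D.bd < u := by
  rcases ρ with _ | p
  · simp [rA] at h
  · obtain ⟨v, hv, hv'⟩ := mem_image.1 h
    obtain ⟨b, hb, rfl⟩ := mem_image.1 hv
    have h1 := D.mem_N.1 hb
    have h2 := D.cr_cases h1
    have h3 := D.bd_spec p
    exact ⟨p, rfl, b, h1, hv', by omega⟩

open Classical in
/-- the polygon of the region `ρ` -/
noncomputable def poly (ρ : Option R) : Poly (Option R) (R × R × B) where
  κ := D.rκ
  A := D.rA ρ
  S := (univ.filter (fun r => D.par r = ρ)).image some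
  t := none
  Lk := univ.filter (fun l => D.par l.1 = ρ ∧ D.isLink l)
  src := fun l => some l.1
  dst := D.rdst
  ps := fun l => D.inn l.1 l.2.2
  pd := D.rpd
  κinj := by
    intro x hx y hy h
    rcases x with _ | r <;> rcases y with _ | s
    · rfl
    · have := D.bd_spec s; simp only [rκ] at h; omega
    · have := D.bd_spec r; simp only [rκ] at h; omega
    · simp only [rκ] at h
      by_contra hne
      have h1 := D.rr r s (fun h => hne (by rw [h]))
      have := D.hr r; have := D.hr s
      omega
  κt := by
    intro x hx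
    simp only [mem_image, mem_filter, mem_univ, true_and] at hx
    obtain ⟨r, _, rfl⟩ := hx
    exact (D.bd_spec r).2
  hA := by
    intro x hx y hy h u hu v hv
    simp only [mem_insert, mem_image, mem_filter, mem_univ, true_and] at hx hy
    rcases hx with rfl | ⟨r, hr, rfl⟩ <;> rcases hy with rfl | ⟨s, hs, rfl⟩
    · exact absurd h (lt_irrefl _)
    · have := D.bd_spec s; simp only [rκ] at h; omega
    · obtain ⟨_, _, _, h1, h2⟩ := D.mem_rA_some hu
      obtain ⟨_, _, _, _, _, h3⟩ := D.mem_rA_none hv
      have := D.bd_spec r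
      omega
    · obtain ⟨_, _, _, h1, h2⟩ := D.mem_rA_some hu
      obtain ⟨_, _, _, h3, h4⟩ := D.mem_rA_some hv
      simp only [rκ] at h
      have hne : r ≠ s := by rintro rfl; exact lt_irrefl _ h
      have := D.sib (hr.trans hs.symm) hne
      omega
  hsrc := by
    intro l hl
    simp only [mem_filter, mem_univ, true_and] at hl
    exact mem_image_of_mem _ (by simpa using hl.1)
  hdst := by
    intro l hl
    simp only [mem_filter, mem_univ, true_and] at hl
    rcases D.link_cases hl.2 with h | h
    · rw [h.2.1]; exact mem_insert_self _ _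
    · rw [h.2.1]
      apply mem_insert_of_mem
      exact mem_image_of_mem _ (by simpa using h.1.symm.trans hl.1)
  hlt := by
    intro l hl
    simp only [mem_filter, mem_univ, true_and] at hl
    have h0 := D.hr l.1
    rcases D.link_cases hl.2 with h | h
    · rw [h.2.1]; exact (D.bd_spec l.1).2
    · rw [h.2.1]; simp only [rκ]; omega
  hps := by
    intro l hl
    simp only [mem_filter, mem_univ, true_and] at hl
    exact D.mem_A hl.2.2.1
  hpd := by
    intro l hl
    simp only [mem_filter, mem_univ, true_and] at hl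
    rcases D.link_cases hl.2 with h | h
    · rw [h.2.1, h.2.2.1, ← hl.1, h.1]
      exact mem_image_of_mem _ (D.mem_A hl.2.2.2)
    · rw [h.2.1, h.2.2.1]
      exact D.mem_A hl.2.2.2
  psinj := by
    intro l hl l' hl' h
    simp only [mem_filter, mem_univ, true_and] at hl hl' h
    have e := D.inn_inj hl.2.2.1 hl'.2.2.1 h
    have e1 : l.1 = l'.1 := by
      by_contra hne
      have h1 := D.sib (hl.1.trans hl'.1.symm) hne
      have h2 := D.cr_cases hl.2.2.1
      have h3 := D.cr_cases hl'.2.2.1
      omega
    have e2 : l.2.1 = l'.2.1 := by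
      apply D.NP_unique hl.2.2.1 hl.2.1
      · rw [e1]; exact hl'.2.1
      · exact hl.2.2.2
      · rw [e]; exact hl'.2.2.2
    exact Prod.ext e1 (Prod.ext e2 e)
  pdinj := by
    intro l hl l' hl' h
    simp only [mem_filter, mem_univ, true_and] at hl hl'
    have b1 := D.bd_spec l.2.1
    have b2 := D.bd_spec l'.2.1
    have b3 := D.bd_spec l.1
    have b4 := D.bd_spec l'.1
    rcases D.link_cases hl.2 with a | a <;> rcases D.link_cases hl'.2 with c | c
    · have hi : D.inn l.2.1 l.2.2 = D.inn l'.2.1 l'.2.2 := by omega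
      have e := D.inn_inj hl.2.2.2 hl'.2.2.2 hi
      have e1 : l.1 = l'.1 := by
        by_contra hne
        have h1 := D.sib (hl.1.trans hl'.1.symm) hne
        omega
      have e2 : l.2.1 = l'.2.1 := by
        have := a.1.symm.trans (hl.1.trans (hl'.1.symm.trans c.1))
        simpa using this
      exact Prod.ext e1 (Prod.ext e2 e)
    · omega
    · omega
    · have hi : D.inn l.2.1 l.2.2 = D.inn l'.2.1 l'.2.2 := by omega
      have e := D.inn_inj hl.2.2.2 hl'.2.2.2 hi
      rw [← e] at c
      have e1 : l.1 = l'.1 := by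
        by_contra hne
        have h1 := D.sib (hl.1.trans hl'.1.symm) hne
        omega
      have e2 : l.2.1 = l'.2.1 := by
        by_contra hne
        have h1 := D.sib (a.1.symm.trans (hl.1.trans (hl'.1.symm.trans c.1))) hne
        omega
      exact Prod.ext e1 (Prod.ext e2 e)
  pspd := by
    intro l hl l' hl' h
    simp only [mem_filter, mem_univ, true_and] at hl hl'
    have b1 := D.bd_spec l.2.1
    have b2 := D.bd_spec l'.2.1
    have b3 := D.bd_spec l.1
    have b4 := D.bd_spec l'.1
    rcases D.link_cases hl'.2 with c | c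
    · have := D.cr_cases hl.2.2.1
      omega
    · have hi : D.inn l.1 l.2.2 = D.inn l'.2.1 l'.2.2 := by omega
      have e := D.inn_inj hl.2.2.1 hl'.2.2.2 hi
      rw [← e] at c
      have h5 := D.hb l.2.2
      have e1 : l.1 = l'.2.1 := by
        by_contra hne
        have h1 := D.sib (hl.1.trans (hl'.1.symm.trans c.1)) hne
        have := D.cr_cases hl.2.2.1
        omega
      rcases D.link_cases hl.2 with a | a
      · have := D.par_some.1 a.1
        have h8 : D.par l'.1 = some l.2.1 := hl'.1.trans (hl.1.symm.trans a.1)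
        have h9 := (D.par_some.1 h8).1
        unfold sub at h9
        omega
      · omega
  nc := by
    intro l hl l' hl' h
    simp only [mem_filter, mem_univ, true_and] at hl hl'
    have b1 := D.bd_spec l.2.1
    have b2 := D.bd_spec l'.2.1
    have b3 := D.bd_spec l.1
    have b4 := D.bd_spec l'.1
    have h5 := D.hb l.2.2
    have h6 := D.hb l'.2.2
    by_cases hbb : l.2.2 = l'.2.2
    · rw [← hbb] at h6 h
      rcases D.link_cases hl.2 with a | a <;> rcases D.link_cases hl'.2 with c | c <;>
        rw [← hbb] at c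
      · omega
      · have h8 : D.par l'.2.1 = some l.2.1 := c.1.symm.trans (hl'.1.trans (hl.1.symm.trans a.1))
        have h9 := (D.par_some.1 h8).1
        unfold sub at h9
        omega
      · have h8 : D.par l.2.1 = some l'.2.1 := a.1.symm.trans (hl.1.trans (hl'.1.symm.trans c.1))
        have h9 := (D.par_some.1 h8).1
        unfold sub at h9
        omega
      · omega
    · have h7 := D.bbx _ _ hbb
      rcases D.link_cases hl.2 with a | a <;> rcases D.link_cases hl'.2 with c | c
      · omega
      · have h8 : D.par l'.2.1 = some l.2.1 := c.1.symm.trans (hl'.1.trans (hl.1.symm.trans a.1))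
        have h9 := (D.par_some.1 h8).1
        unfold sub at h9
        omega
      · have h8 : D.par l.2.1 = some l'.2.1 := a.1.symm.trans (hl.1.trans (hl'.1.symm.trans c.1))
        have h9 := (D.par_some.1 h8).1
        have h10 := (D.par_some.1 (hl.1.trans (hl'.1.symm.trans c.1))).1
        unfold sub at h9 h10
        omega
      · omega

end Diag

end CGr
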