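import Pool.Agent.Work.MP_954b6f_co_helper49.Diag

/-!
# Splitting a blue chord at an extreme crossing of a red chord

If `b₀` is the last (or first) blue chord on the red chord `r₀`, the crossing of `r₀` and `b₀` can
be removed: `b₀` is cut into two chords, which end next to the endpoint of `r₀`.
-/

set_option autoImplicit false
set_option linter.unusedSectionVars false

open Finset

namespace CGr

namespace Diag

variable {R B : Type} (D : Diag R B)

/-- `y` is strictly between `x` and `z` on `r` -/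
def bt (r : R) (x y z : B) : Prop := (D.inn r x < D.inn r y ∧ D.inn r y < D.inn r z) ∨
  (D.inn r z < D.inn r y ∧ D.inn r y < D.inn r x)

/-- the data of a splitting: `e` is the end of `r₀` next to the crossing with `b₀`, `p` a point
inside `r₀` near `3 e`, `q` a point outside `r₀` near `3 e` -/
def SplitData (r0 : R) (b0 : B) (e p q : ℤ) : Prop := D.cr r0 b0 ∧
  ((e = D.rb r0 ∧ p = 3 * e - 1 ∧ q = 3 * e + 1 ∧ ∀ b, D.cr r0 b → D.inn r0 b ≤ D.inn r0 b0) ∨
   (e = D.ra r0 ∧ p = 3 * e + 1 ∧ q = 3 * e - 1 ∧ ∀ b, D.cr r0 b → D.inn r0 b0 ≤ D.inn r0 b))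

variable {D}

/-- blue chords do not end between the crossing and the end of `r₀` -/
lemma split_aux {r0 : R} {b0 : B} {e p q : ℤ} (h : D.SplitData r0 b0 e p q) {b : B}
    (hb : b ≠ b0) :
    (e = D.rb r0 ∧ ((D.inn r0 b0 < D.ba b ∧ D.bb b < e) ∨
      ((D.ba b < D.inn r0 b0 ∨ e < D.ba b) ∧ (D.bb b < D.inn r0 b0 ∨ e < D.bb b)))) ∨
    (e = D.ra r0 ∧ ((e < D.ba b ∧ D.bb b < D.inn r0 b0) ∨
      ((D.ba b < e ∨ D.inn r0 b0 < D.ba b) ∧ (D.bb b < e ∨ D.inn r0 b0 < D.bb b)))) := by
  obtain ⟨h0, h1⟩ := h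
  have a1 := D.cr_cases h0
  have a2 := D.bbx b b0 hb
  have a3 := D.hb b
  have a4 := D.hb b0
  have a5 := D.hr r0
  have a6 := D.ne r0 b
  have a7 := D.ne r0 b0
  by_cases hc : D.cr r0 b
  · have a8 := D.cr_cases hc
    rcases h1 with ⟨e1, e2, e3, e4⟩ | ⟨e1, e2, e3, e4⟩
    · have e5 := e4 b hc
      left
      refine ⟨e1, ?_⟩
      omega
    · have e5 := e4 b hc
      right
      refine ⟨e1, ?_⟩
      omega
  · have hc' := hc
    unfold cr at hc'
    rcases h1 with ⟨e1, e2, e3, e4⟩ | ⟨e1, e2, e3, e4⟩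
    · left
      refine ⟨e1, ?_⟩
      omega
    · right
      refine ⟨e1, ?_⟩
      omega

open Classical in
/-- the new diagram -/
noncomputable def splitD {r0 : R} {b0 : B} {e p q : ℤ} (h : D.SplitData r0 b0 e p q) :
    Diag R (Option B) where
  ra := fun r => 3 * D.ra r
  rb := fun r => 3 * D.rb r
  ba := fun x => match x with
    | some b => if b = b0 then min (3 * D.inn r0 b0) p else 3 * D.ba b
    | none => min (3 * (D.ba b0 + D.bb b0 - D.inn r0 b0)) q
  bb := fun x => match x with
    | some b => if b = b0 then max (3 * D.inn r0 b0) p else 3 * D.bb b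
    | none => max (3 * (D.ba b0 + D.bb b0 - D.inn r0 b0)) q
  hr := fun r => by have := D.hr r; omega
  hb := by
    intro x
    have a1 := D.cr_cases h.1
    have a2 := h.2
    rcases x with _ | b
    · simp only; omega
    · simp only
      split_ifs with hb
      · omega
      · have := D.hb b; omega
  rr := fun r s hrs => by have := D.rr r s hrs; omega
  bbx := by
    intro x y hxy
    have a1 := D.cr_cases h.1
    have a2 : (e = D.rb r0 ∧ p = 3 * e - 1 ∧ q = 3 * e + 1) ∨
      (e = D.ra r0 ∧ p = 3 * e + 1 ∧ q = 3 * e - 1) := by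
      rcases h.2 with ⟨b1, b2, b3, _⟩ | ⟨b1, b2, b3, _⟩
      · exact Or.inl ⟨b1, b2, b3⟩
      · exact Or.inr ⟨b1, b2, b3⟩
    have a3 := D.hr r0
    have a4 := D.hb b0
    rcases x with _ | b <;> rcases y with _ | c
    · exact absurd rfl hxy
    · simp only
      split_ifs with hc
      · omega
      · have a5 := split_aux h hc
        have a6 := D.bbx c b0 hc
        have a7 := D.hb c
        have a8 := D.ne r0 c
        omega
    · simp only
      split_ifs with hc
      · omega
      · have a5 := split_aux h hc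
        have a6 := D.bbx b b0 hc
        have a7 := D.hb b
        have a8 := D.ne r0 b
        omega
    · simp only
      split_ifs with hb hc hc
      · exact absurd (by rw [hb, hc]) hxy
      · have a5 := split_aux h hc
        have a6 := D.bbx c b0 hc
        have a7 := D.hb c
        have a8 := D.ne r0 c
        omega
      · have a5 := split_aux h hb
        have a6 := D.bbx b b0 hb
        have a7 := D.hb b
        have a8 := D.ne r0 b
        omega
      · have a6 := D.bbx b c (fun h => hxy (by rw [h]))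
        omega
  ne := by
    intro r x
    have a1 := D.cr_cases h.1
    have a2 : (e = D.rb r0 ∧ p = 3 * e - 1 ∧ q = 3 * e + 1) ∨
      (e = D.ra r0 ∧ p = 3 * e + 1 ∧ q = 3 * e - 1) := by
      rcases h.2 with ⟨b1, b2, b3, _⟩ | ⟨b1, b2, b3, _⟩
      · exact Or.inl ⟨b1, b2, b3⟩
      · exact Or.inr ⟨b1, b2, b3⟩
    have a3 := D.ne r b0
    rcases x with _ | b
    · simp only; omega
    · simp only
      split_ifs with hb
      · omega
      · have := D.ne r b; omega

/-- `r` inside `s` -/
def sb (D : Diag R B) (r s : R) : Prop := D.ra s < D.ra r ∧ D.rb r < D.rb s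

lemma split_cr_other {r0 : R} {b0 : B} {e p q : ℤ} (h : D.SplitData r0 b0 e p q) {r : R} {b : B}
    (hb : b ≠ b0) : (splitD h).cr r (some b) ↔ D.cr r b := by
  unfold cr splitD
  simp only [hb, if_false]
  omega

lemma split_cr_left {r0 : R} {b0 : B} {e p q : ℤ} (h : D.SplitData r0 b0 e p q) {r : R} :
    (splitD h).cr r (some b0) ↔ D.cr r b0 ∧ D.sb r r0 := by
  have a1 := D.cr_cases h.1
  have a2 : (e = D.rb r0 ∧ p = 3 * e - 1 ∧ q = 3 * e + 1) ∨
    (e = D.ra r0 ∧ p = 3 * e + 1 ∧ q = 3 * e - 1) := by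
    rcases h.2 with ⟨b1, b2, b3, _⟩ | ⟨b1, b2, b3, _⟩
    · exact Or.inl ⟨b1, b2, b3⟩
    · exact Or.inr ⟨b1, b2, b3⟩
  have a3 := D.ne r b0
  have a4 := D.hr r
  have a5 := D.hb b0
  unfold cr splitD sb
  simp only [if_true]
  by_cases hr : r = r0
  · subst hr; omega
  · have a6 := D.rr r r0 hr
    omega

lemma split_cr_right {r0 : R} {b0 : B} {e p q : ℤ} (h : D.SplitData r0 b0 e p q) {r : R} :
    (splitD h).cr r none ↔ D.cr r b0 ∧ r ≠ r0 ∧ ¬ D.sb r r0 := by
  have a1 := D.cr_cases h.1
  have a2 : (e = D.rb r0 ∧ p = 3 * e - 1 ∧ q = 3 * e + 1) ∨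
    (e = D.ra r0 ∧ p = 3 * e + 1 ∧ q = 3 * e - 1) := by
    rcases h.2 with ⟨b1, b2, b3, _⟩ | ⟨b1, b2, b3, _⟩
    · exact Or.inl ⟨b1, b2, b3⟩
    · exact Or.inr ⟨b1, b2, b3⟩
  have a3 := D.ne r b0
  have a4 := D.hr r
  have a5 := D.hb b0
  have a6 := D.hr r0
  unfold cr splitD sb
  simp only
  by_cases hr : r = r0
  · subst hr
    simp only [ne_eq, not_true, false_and, and_false, iff_false]
    omega
  · have a6 := D.rr r r0 hr
    simp only [ne_eq, hr, not_false_iff, true_and]
    omega

/-- the original chord of a new chord -/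
def prj (b0 : B) : Option B → B
  | some b => b
  | none => b0

/-- positions on the red chords -/
lemma split_inn {r0 : R} {b0 : B} {e p q : ℤ} (h : D.SplitData r0 b0 e p q) {r : R}
    {x : Option B} (hx : (splitD h).cr r x) :
    (splitD h).inn r x = 3 * D.inn r (prj b0 x) ∨
    (x = none ∧ D.inn r b0 = D.inn r0 b0 ∧ (splitD h).inn r x = q ∧ D.ra r < D.ra r0 ∧
      D.rb r0 < D.rb r) := by
  classical
  rcases x with _ | b
  · have h1 := (split_cr_right h).1 hx
    have h2 := (splitD h).cr_cases hx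
    have h3 := D.cr_cases h1.1
    have h4 := D.cr_cases h.1
    have h5 := D.rr r r0 h1.2.1
    have h6 := h1.2.2
    have a2 : (e = D.rb r0 ∧ p = 3 * e - 1 ∧ q = 3 * e + 1) ∨
      (e = D.ra r0 ∧ p = 3 * e + 1 ∧ q = 3 * e - 1) := by
      rcases h.2 with ⟨b1, b2, b3, _⟩ | ⟨b1, b2, b3, _⟩
      · exact Or.inl ⟨b1, b2, b3⟩
      · exact Or.inr ⟨b1, b2, b3⟩
    unfold sb at h6
    simp only [prj]
    have e1 : (splitD h).ba none = min (3 * (D.ba b0 + D.bb b0 - D.inn r0 b0)) q := rfl
    have e2 : (splitD h).bb none = max (3 * (D.ba b0 + D.bb b0 - D.inn r0 b0)) q := rfl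
    have e3 : (splitD h).ra r = 3 * D.ra r := rfl
    have e4 : (splitD h).rb r = 3 * D.rb r := rfl
    rw [e1, e2, e3, e4] at h2
    by_cases h7 : D.ra r < D.ra r0 ∧ D.rb r0 < D.rb r
    · right
      exact ⟨trivial, by omega, by omega, h7⟩
    · left
      omega
  · left
    simp only [prj]
    by_cases hb : b = b0
    · subst hb
      have h1 := (split_cr_left h).1 hx
      have h2 := (splitD h).cr_cases hx
      have h3 := D.cr_cases h1.1
      have h4 := D.cr_cases h.1
      have h6 := h1.2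
      have a2 : (e = D.rb r0 ∧ p = 3 * e - 1 ∧ q = 3 * e + 1) ∨
        (e = D.ra r0 ∧ p = 3 * e + 1 ∧ q = 3 * e - 1) := by
        rcases h.2 with ⟨b1, b2, b3, _⟩ | ⟨b1, b2, b3, _⟩
        · exact Or.inl ⟨b1, b2, b3⟩
        · exact Or.inr ⟨b1, b2, b3⟩
      unfold sb at h6
      have e1 : (splitD h).ba (some b) = min (3 * D.inn r0 b) p := if_pos rfl
      have e2 : (splitD h).bb (some b) = max (3 * D.inn r0 b) p := if_pos rfl
      have e3 : (splitD h).ra r = 3 * D.ra r := rfl
      have e4 : (splitD h).rb r = 3 * D.rb r := rfl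
      rw [e1, e2, e3, e4] at h2
      omega
    · have h1 := (split_cr_other h hb).1 hx
      have h2 := (splitD h).cr_cases hx
      have h3 := D.cr_cases h1
      have e1 : (splitD h).ba (some b) = 3 * D.ba b := if_neg hb
      have e2 : (splitD h).bb (some b) = 3 * D.bb b := if_neg hb
      have e3 : (splitD h).ra r = 3 * D.ra r := rfl
      have e4 : (splitD h).rb r = 3 * D.rb r := rfl
      rw [e1, e2, e3, e4] at h2
      omega

lemma split_prj_cr {r0 : R} {b0 : B} {e p q : ℤ} (h : D.SplitData r0 b0 e p q) {r : R}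
    {x : Option B} (hx : (splitD h).cr r x) : D.cr r (prj b0 x) := by
  rcases x with _ | b
  · exact ((split_cr_right h).1 hx).1
  · by_cases hb : b = b0
    · subst hb
      exact ((split_cr_left h).1 hx).1
    · exact (split_cr_other h hb).1 hx

/-- the order on the red chords does not change -/
lemma split_order {r0 : R} {b0 : B} {e p q : ℤ} (h : D.SplitData r0 b0 e p q) {r : R}
    {x y : Option B} (hx : (splitD h).cr r x) (hy : (splitD h).cr r y) :
    (splitD h).inn r x < (splitD h).inn r y ↔ D.inn r (prj b0 x) < D.inn r (prj b0 y) := by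
  by_cases hxy : x = y
  · subst hxy; simp
  -- comparison with a chord different from the new one
  have key : ∀ {x y : Option B}, (splitD h).cr r x → (splitD h).cr r y → x ≠ y →
      (x = none ∧ D.inn r b0 = D.inn r0 b0 ∧ (splitD h).inn r x = q ∧ D.ra r < D.ra r0 ∧
      D.rb r0 < D.rb r) → (splitD h).inn r y = 3 * D.inn r (prj b0 y) →
      (((splitD h).inn r x < (splitD h).inn r y ↔ D.inn r (prj b0 x) < D.inn r (prj b0 y)) ∧
      ((splitD h).inn r y < (splitD h).inn r x ↔ D.inn r (prj b0 y) < D.inn r (prj b0 x))) := by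
    intro x y hx hy hxy h1 h2
    obtain ⟨rfl, h3, h4, h5, h6⟩ := h1
    rcases y with _ | b
    · exact absurd rfl hxy
    · have hb : b ≠ b0 := by
        rintro rfl
        have := ((split_cr_left h).1 hy).2
        unfold sb at this
        omega
      have h7 := split_aux h hb
      have h8 := D.cr_cases ((split_cr_other h hb).1 hy)
      have h9 := D.cr_cases h.1
      have h10 := D.ne r0 b
      have h11 := D.hb b
      have a2 : (e = D.rb r0 ∧ p = 3 * e - 1 ∧ q = 3 * e + 1) ∨
        (e = D.ra r0 ∧ p = 3 * e + 1 ∧ q = 3 * e - 1) := by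
        rcases h.2 with ⟨b1, b2, b3, _⟩ | ⟨b1, b2, b3, _⟩
        · exact Or.inl ⟨b1, b2, b3⟩
        · exact Or.inr ⟨b1, b2, b3⟩
      simp only [prj] at h2 ⊢
      constructor
      · omega
      · omega
  rcases split_inn h hx with h1 | h1 <;> rcases split_inn h hy with h2 | h2
  · rw [h1, h2]; omega
  · exact (key hy hx (Ne.symm hxy) h2 h1).2
  · exact (key hx hy hxy h1 h2).1
  · exact absurd (h1.1.trans h2.1.symm) hxy

lemma split_bt {r0 : R} {b0 : B} {e p q : ℤ} (h : D.SplitData r0 b0 e p q) {r : R}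
    {x y z : Option B} (hx : (splitD h).cr r x) (hy : (splitD h).cr r y)
    (hz : (splitD h).cr r z) :
    (splitD h).bt r x y z ↔ D.bt r (prj b0 x) (prj b0 y) (prj b0 z) := by
  unfold bt
  rw [split_order h hx hy, split_order h hy hz, split_order h hz hy, split_order h hy hx]

/-- betweenness on a blue chord in terms of the red chords only -/
lemma swap_bt_iff {r s t : R} {b : B} (hr : D.cr r b) (hs : D.cr s b) (ht : D.cr t b) :
    D.swap.bt b r s t ↔ r ≠ s ∧ s ≠ t ∧ ((D.sb r s ∧ ¬ D.sb t s) ∨ (¬ D.sb r s ∧ D.sb t s)) := by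
  have a1 := D.swap.cr_cases ((D.swap_cr r b).2 hr)
  have a2 := D.swap.cr_cases ((D.swap_cr s b).2 hs)
  have a3 := D.swap.cr_cases ((D.swap_cr t b).2 ht)
  have e1 : D.swap.ra b = D.ba b := rfl
  have e2 : D.swap.rb b = D.bb b := rfl
  have e3 : ∀ r, D.swap.ba r = D.ra r := fun _ => rfl
  have e4 : ∀ r, D.swap.bb r = D.rb r := fun _ => rfl
  rw [e1, e2, e3, e4] at a1 a2 a3
  have a4 := D.hr r
  have a5 := D.hr s
  have a6 := D.hr t
  unfold bt sb
  by_cases h1 : r = s
  · subst h1
    simp only [ne_eq, not_true, false_and, iff_false]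
    omega
  by_cases h2 : s = t
  · subst h2
    simp only [ne_eq, not_true, false_and, and_false, iff_false]
    omega
  have b1 := D.rr r s h1
  have b2 := D.rr s t h2
  simp only [ne_eq, h1, h2, not_false_iff, true_and]
  omega

lemma split_swap_bt {r0 : R} {b0 : B} {e p q : ℤ} (h : D.SplitData r0 b0 e p q)
    {x : Option B} {r s t : R} (hr : (splitD h).cr r x) (hs : (splitD h).cr s x)
    (ht : (splitD h).cr t x) :
    (splitD h).swap.bt x r s t ↔ D.swap.bt (prj b0 x) r s t := by
  rw [swap_bt_iff hr hs ht, swap_bt_iff (split_prj_cr h hr) (split_prj_cr h hs)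
    (split_prj_cr h ht)]
  have : ∀ r s, (splitD h).sb r s ↔ D.sb r s := by
    intro r s
    unfold sb splitD
    simp only
    omega
  rw [this, this]

end Diag

end CGr
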