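import Pool.Agent.Work.MP_954b6f_co_helper49.Region

/-!
# The inequality `star`

`nbG i` is the number of vertical runs of the set `GP i` of crossings which have at least `i`
crossings on both sides of their red chord.  Then
`nbG i + ∑ r, (ℓ r - i) ≤ 2 nb + ∑ (near pairs), (w - i)`.
-/

set_option autoImplicit false
set_option linter.unusedSectionVars false

open Finset

namespace CGr

lemma pre_neg (A : Finset ℤ) (c u : ℤ) : pre (A.image (fun v => c - v)) (c - u) = post A u := by
  unfold pre post
  rw [filter_image, card_image_of_injective _ (fun a b h => by simpa using h)]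
  congr 1
  apply filter_congr
  intro v _
  constructor <;> intro h <;> omega

lemma post_neg (A : Finset ℤ) (c u : ℤ) : post (A.image (fun v => c - v)) (c - u) = pre A u := by
  unfold pre post
  rw [filter_image, card_image_of_injective _ (fun a b h => by simpa using h)]
  congr 1
  apply filter_congr
  intro v _
  constructor <;> intro h <;> omega

lemma sum_lam (P n : ℕ) : ∑ i ∈ range P, lam i n = min n P + min n (2 * P) := by
  induction P with
  | zero => simp
  | succ k ih =>
    rw [sum_range_succ, ih]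
    unfold lam
    split_ifs <;> omega

namespace Diag

variable {R B : Type} (D : Diag R B) [Fintype R] [Fintype B]

open Classical in
/-- the near pairs -/
noncomputable def NPs : Finset (R × R) := univ.filter (fun p => D.NP p.1 p.2)

/-- number of common neighbours -/
def cw (p : R × R) : ℕ := ((D.N p.1).filter (fun b => D.cr p.2 b)).card

open Classical in
/-- all links -/
noncomputable def LL : Finset (R × R × B) := univ.filter (fun l => D.isLink l)

/-- at least `i` crossings on both sides -/
def inG (i : ℕ) (r : R) (b : B) : Prop := i ≤ D.L r b ∧ i ≤ D.Rt r b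

instance (i : ℕ) (r : R) (b : B) : Decidable (D.inG i r b) := by unfold inG; infer_instance

noncomputable def LG (i : ℕ) : Finset (R × R × B) :=
  D.LL.filter (fun l => D.inG i l.1 l.2.2 ∧ D.inG i l.2.1 l.2.2)

def GP (i : ℕ) : Finset (R × B) := D.cells.filter (fun p => D.inG i p.1 p.2)

open Classical in
/-- the crossings of `GP i` without a successor in `GP i` -/
noncomputable def tops (i : ℕ) : Finset (R × B) :=
  (D.GP i).filter (fun p => ∀ s, D.NP p.1 s → D.cr s p.2 → ¬ D.inG i s p.2)

lemma mem_LL {l : R × R × B} : l ∈ D.LL ↔ D.isLink l := by simp [LL]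

lemma mem_NPs {p : R × R} : p ∈ D.NPs ↔ D.NP p.1 p.2 := by simp [NPs]

lemma mem_LG {i : ℕ} {l : R × R × B} : l ∈ D.LG i ↔ D.isLink l ∧ D.inG i l.1 l.2.2 ∧
    D.inG i l.2.1 l.2.2 := by
  rw [LG, mem_filter, mem_LL]

lemma mem_GP {i : ℕ} {p : R × B} : p ∈ D.GP i ↔ D.cr p.1 p.2 ∧ D.inG i p.1 p.2 := by
  rw [GP, mem_filter, mem_cells]

lemma mem_tops {i : ℕ} {p : R × B} : p ∈ D.tops i ↔ (D.cr p.1 p.2 ∧ D.inG i p.1 p.2) ∧
    ∀ s, D.NP p.1 s → D.cr s p.2 → ¬ D.inG i s p.2 := by
  classical
  unfold tops
  rw [mem_filter, mem_GP]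

lemma card_GP (i : ℕ) : (D.GP i).card = ∑ r, ((D.N r).card - 2 * i) := by
  classical
  rw [card_eq_sum_card_fiberwise (f := Prod.fst) (t := univ) (fun _ _ => mem_coe.2 (mem_univ _))]
  apply sum_congr rfl
  intro r _
  have h1 : ((D.GP i).filter (fun p => p.1 = r)).card =
      ((D.N r).filter (fun b => D.inG i r b)).card := by
    apply card_bij (fun p _ => p.2)
    · intro p hp
      rw [mem_filter, D.mem_GP] at hp
      rw [mem_filter, D.mem_N, ← hp.2]
      exact hp.1
    · intro p hp q hq h
      rw [mem_filter] at hp hq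
      exact Prod.ext (hp.2.trans hq.2.symm) h
    · intro b hb
      rw [mem_filter, D.mem_N] at hb
      exact ⟨(r, b), by rw [mem_filter, D.mem_GP]; exact ⟨hb, rfl⟩, rfl⟩
  rw [h1]
  have h2 := D.card_filter_L r (fun k => i ≤ k ∧ i ≤ (D.N r).card - 1 - k ∧ k < (D.N r).card)
  have h3 : (D.N r).filter (fun b => D.inG i r b) = (D.N r).filter (fun b => i ≤ D.L r b ∧
      i ≤ (D.N r).card - 1 - D.L r b ∧ D.L r b < (D.N r).card) := by
    apply filter_congr
    intro b hb
    have := D.L_add (D.mem_N.1 hb)
    unfold inG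
    omega
  rw [h3, h2]
  generalize (D.N r).card = n
  have : (range n).filter (fun k => i ≤ k ∧ i ≤ n - 1 - k ∧ k < n) = Ico i (n - i) := by
    ext k
    simp only [mem_filter, mem_range, mem_Ico]
    omega
  rw [this, Nat.card_Ico]
  omega

open Classical in
lemma poly_w {ρ : Option R} {p : R × R} (hp : D.NP p.1 p.2) (hρ : D.par p.1 = ρ) :
    D.cw p ≤ (D.poly ρ).w (some p.1)
      (if D.par p.1 = some p.2 then none else some p.2) := by
  classical
  unfold cw Poly.w
  apply card_le_card_of_injOn (fun b => (p.1, p.2, b))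
  · intro b hb
    simp only [coe_filter, Set.mem_ofPred_eq, D.mem_N] at hb
    simp only [mem_coe]
    rw [Poly.mem_lk]
    refine ⟨?_, rfl, ?_⟩
    · show (p.1, p.2, b) ∈ univ.filter (fun l : R × R × B => D.par l.1 = ρ ∧ D.isLink l)
      simp only [mem_filter, mem_univ, true_and]
      exact ⟨hρ, hp, hb⟩
    · show D.rdst (p.1, p.2, b) = _
      unfold rdst
      rfl
  · intro b _ c _ h
    simpa using h

open Classical in
/-- the inequality of level `i` -/
lemma level (i : ℕ) :
    (D.NPs.filter (fun p => i + 1 ≤ D.cw p)).card + (D.LG i \ D.LG (i + 1)).card ≤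
      ∑ r, lam i (D.N r).card := by
  classical
  have hE : (D.NPs.filter (fun p => i + 1 ≤ D.cw p)).card ≤
      ∑ ρ : Option R, ((D.poly ρ).E i).card := by
    rw [card_eq_sum_card_fiberwise (f := fun p => D.par p.1) (t := univ)
      (fun _ _ => mem_coe.2 (mem_univ _))]
    apply sum_le_sum
    intro ρ _
    apply card_le_card_of_injOn (fun p => (some p.1, if D.par p.1 = some p.2 then none else some p.2))
    · intro p hp
      simp only [coe_filter, Set.mem_ofPred_eq, mem_filter, D.mem_NPs] at hp
      obtain ⟨⟨hp1, hp2⟩, hp3⟩ := hp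
      simp only [mem_coe]
      rw [Poly.mem_E]
      refine ⟨⟨?_, ?_⟩, hp2.trans (D.poly_w hp1 hp3)⟩
      · exact mem_image_of_mem _ (by simpa using hp3)
      · simp only
        split_ifs with hc
        · exact mem_insert_self _ _
        · apply mem_insert_of_mem
          rcases D.NP_cases hp1 with a | a
          · exact absurd a.1 hc
          · exact mem_image_of_mem _ (by simpa using a.2.1.symm.trans hp3)
    · intro p hp q hq h
      simp only [coe_filter, Set.mem_ofPred_eq, mem_filter, D.mem_NPs] at hp hq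
      have h1 : p.1 = q.1 := by
        have := congrArg Prod.fst h
        simpa using this
      have h2 := congrArg Prod.snd h
      simp only at h2
      split_ifs at h2 with c d
      · have := c.symm.trans ((by rw [h1] : D.par p.1 = D.par q.1).trans d)
        exact Prod.ext h1 (by simpa using this)
      · exact Prod.ext h1 (by simpa using h2)
  have hD : (D.LG i \ D.LG (i + 1)).card ≤ ∑ ρ : Option R, ((D.poly ρ).D i).card := by
    rw [card_eq_sum_card_fiberwise (f := fun l => D.par l.1) (t := univ)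
      (fun _ _ => mem_coe.2 (mem_univ _))]
    apply sum_le_sum
    intro ρ _
    apply card_le_card
    intro l hl
    rw [mem_filter, mem_sdiff, D.mem_LG, D.mem_LG] at hl
    obtain ⟨⟨⟨h1, h2, h3⟩, h4⟩, h5⟩ := hl
    rw [Poly.mem_D]
    refine ⟨?_, ?_⟩
    · show l ∈ univ.filter (fun l : R × R × B => D.par l.1 = ρ ∧ D.isLink l)
      simp only [mem_filter, mem_univ, true_and]
      exact ⟨h5, h1⟩
    · have e1 : pre ((D.poly ρ).A ((D.poly ρ).src l)) ((D.poly ρ).ps l) = D.L l.1 l.2.2 := rfl
      have e2 : post ((D.poly ρ).A ((D.poly ρ).src l)) ((D.poly ρ).ps l) = D.Rt l.1 l.2.2 := rfl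
      have h6 : ¬ (i + 1 ≤ D.L l.1 l.2.2 ∧ i + 1 ≤ D.Rt l.1 l.2.2 ∧ i + 1 ≤ D.L l.2.1 l.2.2 ∧
          i + 1 ≤ D.Rt l.2.1 l.2.2) := by
        rintro ⟨a, b, c, d⟩
        exact h4 ⟨h1, ⟨a, b⟩, ⟨c, d⟩⟩
      unfold inG at h2 h3
      rw [e1, e2]
      rcases D.link_cases h1 with a | a
      · have e3 : pre ((D.poly ρ).A ((D.poly ρ).dst l)) ((D.poly ρ).pd l) = D.Rt l.2.1 l.2.2 := by
          show pre (D.rA ρ (D.rdst l)) (D.rpd l) = _
          rw [a.2.1, a.2.2.1, ← h5, a.1]
          exact pre_neg _ _ _
        have e4 : post ((D.poly ρ).A ((D.poly ρ).dst l)) ((D.poly ρ).pd l) = D.L l.2.1 l.2.2 := by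
          show post (D.rA ρ (D.rdst l)) (D.rpd l) = _
          rw [a.2.1, a.2.2.1, ← h5, a.1]
          exact post_neg _ _ _
        rw [e3, e4]
        omega
      · have e3 : pre ((D.poly ρ).A ((D.poly ρ).dst l)) ((D.poly ρ).pd l) = D.L l.2.1 l.2.2 := by
          show pre (D.rA ρ (D.rdst l)) (D.rpd l) = _
          rw [a.2.1, a.2.2.1]
          rfl
        have e4 : post ((D.poly ρ).A ((D.poly ρ).dst l)) ((D.poly ρ).pd l) = D.Rt l.2.1 l.2.2 := by
          show post (D.rA ρ (D.rdst l)) (D.rpd l) = _
          rw [a.2.1, a.2.2.1]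
          rfl
        rw [e3, e4]
        omega
  have hS : ∑ ρ : Option R, ∑ x ∈ (D.poly ρ).S, lam i ((D.poly ρ).A x).card =
      ∑ r, lam i (D.N r).card := by
    rw [← sum_fiberwise (s := univ) (g := D.par) (f := fun r => lam i (D.N r).card)]
    apply sum_congr rfl
    intro ρ _
    show ∑ x ∈ (univ.filter (fun r => D.par r = ρ)).image some, lam i (D.rA ρ x).card = _
    rw [sum_image (fun a _ b _ h => by simpa using h)]
    apply sum_congr rfl
    intro r _
    show lam i (D.A r).card = _
    rw [D.card_A]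
  rw [← hS]
  refine (add_le_add hE hD).trans ?_
  rw [← sum_add_distrib]
  exact sum_le_sum (fun ρ _ => (D.poly ρ).main i)

lemma LG_mono (i : ℕ) : D.LG (i + 1) ⊆ D.LG i := by
  intro l hl
  rw [mem_LG] at hl ⊢
  unfold inG at *
  exact ⟨hl.1, ⟨by omega, by omega⟩, ⟨by omega, by omega⟩⟩

lemma LG_zero : D.LG 0 = D.LL := by
  ext l
  rw [mem_LG, mem_LL]
  unfold inG
  simp

lemma card_LL : D.LL.card = ∑ p ∈ D.NPs, D.cw p := by
  classical
  rw [card_eq_sum_card_fiberwise (f := fun l => (l.1, l.2.1)) (t := D.NPs)]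
  · apply sum_congr rfl
    intro p hp
    unfold cw
    apply card_bij (fun l _ => l.2.2)
    · intro l hl
      rw [mem_filter, D.mem_LL] at hl
      rw [mem_filter, D.mem_N, ← hl.2]
      exact ⟨hl.1.2.1, hl.1.2.2⟩
    · intro l hl l' hl' h
      rw [mem_filter] at hl hl'
      have h2 := hl.2.trans hl'.2.symm
      simp only [Prod.mk.injEq] at h2
      exact Prod.ext h2.1 (Prod.ext h2.2 h)
    · intro b hb
      rw [mem_filter, D.mem_N] at hb
      refine ⟨(p.1, p.2, b), ?_, rfl⟩
      rw [mem_filter, D.mem_LL]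
      exact ⟨⟨D.mem_NPs.1 hp, hb.1, hb.2⟩, rfl⟩
  · intro l hl
    rw [mem_coe, D.mem_LL] at hl
    rw [mem_coe, D.mem_NPs]
    exact hl.1

/-- every nontrivial blue chord has at most one crossing without a successor -/
lemma m_le : D.m ≤ D.LL.card + D.nb := by
  classical
  rw [← D.card_cells]
  rw [← card_filter_add_card_filter_not (s := D.cells)
    (fun p : R × B => ∃ s, D.NP p.1 s ∧ D.cr s p.2)]
  apply add_le_add
  · -- cells with a successor
    have h : ∀ p ∈ D.cells.filter (fun p : R × B => ∃ s, D.NP p.1 s ∧ D.cr s p.2),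
        ∃ s, D.NP p.1 s ∧ D.cr s p.2 := fun p hp => (mem_filter.1 hp).2
    apply card_le_card_of_injOn (fun p => if h : ∃ s, D.NP p.1 s ∧ D.cr s p.2 then
      (p.1, h.choose, p.2) else (p.1, p.1, p.2))
    · intro p hp
      rw [mem_coe] at hp
      have h1 := h p hp
      have h2 := D.mem_cells.1 (mem_filter.1 hp).1
      simp only [h1, dif_pos, mem_coe]
      rw [D.mem_LL]
      exact ⟨h1.choose_spec.1, h2, h1.choose_spec.2⟩
    · intro p hp q hq he
      rw [mem_coe] at hp hq
      have h1 := h p hp
      have h2 := h q hq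
      simp only [h1, h2, dif_pos, Prod.mk.injEq] at he
      exact Prod.ext he.1 he.2.2
  · unfold nb nr
    apply card_le_card_of_injOn (fun p => p.2)
    · intro p hp
      rw [mem_coe, mem_filter, D.mem_cells] at hp
      rw [mem_coe, mem_filter]
      exact ⟨mem_univ _, p.1, by rw [mem_N, swap_cr]; exact hp.1⟩
    · intro p hp q hq he
      simp only [coe_filter, Set.mem_ofPred_eq, D.mem_cells] at hp hq
      have e : p.2 = q.2 := he
      have : p.1 = q.1 := by
        apply D.top_unique (b := p.2) hp.1 (by rw [e]; exact hq.1)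
        · intro t ht hc; exact hp.2 ⟨t, ht, hc⟩
        · intro t ht hc; exact hq.2 ⟨t, ht, by rw [← e]; exact hc⟩
      exact Prod.ext this e

lemma LG_le (i : ℕ) : (D.LG i).card + (D.tops i).card ≤ (D.GP i).card := by
  classical
  have h : (D.tops i).card + ((D.GP i).filter (fun p => ¬ ∀ s, D.NP p.1 s → D.cr s p.2 →
      ¬ D.inG i s p.2)).card = (D.GP i).card := by
    unfold tops
    exact card_filter_add_card_filter_not _
  rw [← h, add_comm]
  apply Nat.add_le_add_left
  apply card_le_card_of_injOn (fun l => (l.1, l.2.2))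
  · intro l hl
    rw [mem_coe, D.mem_LG] at hl
    rw [mem_coe, mem_filter, D.mem_GP]
    refine ⟨⟨hl.1.2.1, hl.2.1⟩, fun hc => hc l.2.1 hl.1.1 hl.1.2.2 hl.2.2⟩
  · intro l hl l' hl' he
    rw [mem_coe, D.mem_LG] at hl hl'
    simp only [Prod.mk.injEq] at he
    have : l.2.1 = l'.2.1 := by
      apply D.NP_unique hl.1.2.1 hl.1.1
      · rw [he.1]; exact hl'.1.1
      · exact hl.1.2.2
      · rw [he.2]; exact hl'.1.2.2
    exact Prod.ext he.1 (Prod.ext this he.2)

/-- **The main inequality.** -/
theorem star (P : ℕ) :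
    (D.tops P).card + ∑ r, ((D.N r).card - P) ≤ 2 * D.nb + ∑ p ∈ D.NPs, (D.cw p - P) := by
  classical
  -- sum of the levels
  have h1 : ∑ i ∈ range P, ((D.NPs.filter (fun p => i + 1 ≤ D.cw p)).card +
      (D.LG i \ D.LG (i + 1)).card) ≤ ∑ i ∈ range P, ∑ r, lam i (D.N r).card :=
    sum_le_sum (fun i _ => D.level i)
  have h2 : ∑ i ∈ range P, ∑ r, lam i (D.N r).card =
      ∑ r, (min (D.N r).card P + min (D.N r).card (2 * P)) := by
    rw [sum_comm]
    exact sum_congr rfl (fun r _ => sum_lam P _)
  have h3 : ∑ i ∈ range P, (D.NPs.filter (fun p => i + 1 ≤ D.cw p)).card =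
      ∑ p ∈ D.NPs, min (D.cw p) P := by
    have : ∀ i, (D.NPs.filter (fun p => i + 1 ≤ D.cw p)).card =
        ∑ p ∈ D.NPs, if i + 1 ≤ D.cw p then 1 else 0 := fun i => by rw [card_filter]
    simp_rw [this]
    rw [sum_comm]
    apply sum_congr rfl
    intro p _
    generalize D.cw p = n
    rw [← card_filter]
    have : (range P).filter (fun i => i + 1 ≤ n) = range (min n P) := by
      ext k; simp only [mem_filter, mem_range]; omega
    rw [this, card_range]
  have h4 : ∑ i ∈ range P, (D.LG i \ D.LG (i + 1)).card + (D.LG P).card = D.LL.card := by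
    induction P with
    | zero => simp [D.LG_zero]
    | succ k ih =>
      rw [sum_range_succ]
      have h5 := card_sdiff_add_card_eq_card (D.LG_mono k)
      have h6 := ih (sum_le_sum (fun i _ => D.level i))
        (by rw [sum_comm]; exact sum_congr rfl (fun r _ => sum_lam k _)) (by
          have : ∀ i, (D.NPs.filter (fun p => i + 1 ≤ D.cw p)).card =
              ∑ p ∈ D.NPs, if i + 1 ≤ D.cw p then 1 else 0 := fun i => by rw [card_filter]
          simp_rw [this]
          rw [sum_comm]
          apply sum_congr rfl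
          intro p _
          generalize D.cw p = n
          rw [← card_filter]
          have : (range k).filter (fun i => i + 1 ≤ n) = range (min n k) := by
            ext k; simp only [mem_filter, mem_range]; omega
          rw [this, card_range])
      omega
  rw [sum_add_distrib, h2, h3, sum_add_distrib] at h1
  have h5 := D.LG_le P
  have h6 := D.m_le
  have h7 := D.card_GP P
  have h8 : ∑ r, min (D.N r).card (2 * P) + ∑ r, ((D.N r).card - 2 * P) = D.m := by
    rw [← sum_add_distrib]
    unfold m
    exact sum_congr rfl (fun r _ => by omega)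
  have h9 : ∑ r, min (D.N r).card P + ∑ r, ((D.N r).card - P) = D.m := by
    rw [← sum_add_distrib]
    unfold m
    exact sum_congr rfl (fun r _ => by omega)
  have h10 : ∑ p ∈ D.NPs, min (D.cw p) P + ∑ p ∈ D.NPs, (D.cw p - P) = D.LL.card := by
    rw [D.card_LL, ← sum_add_distrib]
    exact sum_congr rfl (fun r _ => by omega)
  omega

end Diag

end CGr
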